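import Mathlib

set_option autoImplicit false

open MeasureTheory Set Filter Topology
open scoped ENNReal

namespace Pool.Agent.MP_41c3fc_gt

/-! ### Hyperbolic space (hyperboloid model) and its isometries -/

/-- Minkowski space `ℝ^{3,1}`, with coordinates `x 0` (time), `x 1`, `x 2`, `x 3`. -/
abbrev V : Type := Fin 4 → ℝ

/-- The Lorentz form of Minkowski space. -/
def lor (x y : V) : ℝ := -(x 0 * y 0) + x 1 * y 1 + x 2 * y 2 + x 3 * y 3

/-- Hyperbolic 3-space `ℍ³`: the upper sheet of the hyperboloid `lor x x = -1`. Its Riemannian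
metric is the restriction of `lor` to the tangent spaces, and its distance satisfies
`cosh (dist x y) = - lor x y`. -/
def H3 : Set V := {x | lor x x = -1 ∧ 0 < x 0}

/-- Invertible real `4 × 4` matrices. -/
abbrev GL4 : Type := (Matrix (Fin 4) (Fin 4) ℝ)ˣ

/-- The linear action of a matrix on Minkowski space. -/
def act (g : GL4) (x : V) : V := (g : Matrix (Fin 4) (Fin 4) ℝ).mulVec x

/-- `g` is an isometry of `ℍ³`: it preserves the Lorentz form and the upper sheet
(every isometry of `ℍ³` is the restriction of exactly one such `g`). -/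
def IsIsom (g : GL4) : Prop :=
  (∀ x y, lor (act g x) (act g y) = lor x y) ∧ ∀ x ∈ H3, act g x ∈ H3

/-- `Γ` is a discrete torsion-free group of isometries of `ℍ³`, so that `ℍ³/Γ` is a hyperbolic
3-manifold. -/
structure IsDiscreteTorsionFree (Γ : Subgroup GL4) : Prop where
  isom : ∀ g ∈ Γ, IsIsom g
  discrete : ∀ K ⊆ H3, IsCompact K → {g : GL4 | g ∈ Γ ∧ ∃ x ∈ K, act g x ∈ K}.Finite
  torsionFree : ∀ g ∈ Γ, IsOfFinOrder g → g = 1

/-- The future isotropic vectors on the fixed points at infinity of `g` (a point of the sphere at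
infinity of `ℍ³` is a ray of future isotropic vectors). -/
def fixedIdeal (g : GL4) : Set V :=
  {v | lor v v = 0 ∧ 0 < v 0 ∧ ∃ c : ℝ, 0 < c ∧ act g v = c • v}

/-- `g` is parabolic: it has no fixed point in `ℍ³` and exactly one fixed point at infinity. -/
def IsParabolic (g : GL4) : Prop :=
  (∀ x ∈ H3, act g x ≠ x) ∧ ∃ v ∈ fixedIdeal g, ∀ w ∈ fixedIdeal g, ∃ c : ℝ, 0 < c ∧ w = c • v

/-! ### Convex core and geometric finiteness -/

/-- The isotropic vectors on the limit set of `Γ`: the non-zero limits of `c_k • g_k x` with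
`x ∈ ℍ³`, `g_k ∈ Γ`, `c_k > 0`, `c_k → 0`. -/
def limitVectors (Γ : Subgroup GL4) : Set V :=
  {v | v ≠ 0 ∧ ∃ x ∈ H3, ∃ (g : ℕ → GL4) (c : ℕ → ℝ), (∀ k, g k ∈ Γ) ∧ (∀ k, 0 < c k) ∧
    Tendsto c atTop (𝓝 0) ∧ Tendsto (fun k => c k • act (g k) x) atTop (𝓝 v)}

/-- The convex hull in `ℍ³` of the limit set of `Γ` (the set `limitVectors Γ` is a cone, hyperbolic
segments are central projections of segments). -/
def limitHull (Γ : Subgroup GL4) : Set V := {x | x ∈ H3 ∧ x ∈ convexHull ℝ (limitVectors Γ)}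

/-- The closed unit neighbourhood of the convex hull of the limit set. -/
def hullNbhd (Γ : Subgroup GL4) : Set V :=
  {x | x ∈ H3 ∧ ∃ y ∈ limitHull Γ, -lor x y ≤ Real.cosh 1}

/-- The graph parametrisation of `ℍ³` over `ℝ³`. -/
noncomputable def graphH3 (p : Fin 3 → ℝ) : V :=
  ![√(1 + (p 0 ^ 2 + p 1 ^ 2 + p 2 ^ 2)), p 0, p 1, p 2]

/-- The hyperbolic volume measure `dx₁ dx₂ dx₃ / x₀` of `ℍ³`, as a measure on Minkowski space. -/
noncomputable def volH3 : Measure V :=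
  Measure.map graphH3 ((volume : Measure (Fin 3 → ℝ)).withDensity fun p =>
    ENNReal.ofReal (1 / √(1 + (p 0 ^ 2 + p 1 ^ 2 + p 2 ^ 2))))

/-- `D` is a Borel fundamental set for the action of `Γ` on the invariant set `X`: it contains
exactly one point of every orbit in `X`. -/
def IsFundamentalSet (Γ : Subgroup GL4) (X D : Set V) : Prop :=
  MeasurableSet D ∧ D ⊆ X ∧ ∀ x ∈ X, ∃! y, y ∈ D ∧ ∃ g ∈ Γ, act g x = y

/-- `ℍ³/Γ` is geometrically finite: the unit neighbourhood of its convex core has finite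
volume. -/
def GeometricallyFinite (Γ : Subgroup GL4) : Prop :=
  ∃ D, IsFundamentalSet Γ H3 D ∧ volH3 (D ∩ hullNbhd Γ) < ⊤

/-! ### Surfaces -/

/-- First partial derivative. -/
noncomputable def d1 (ψ : ℝ × ℝ → V) (a : ℝ × ℝ) : V := fderiv ℝ ψ a (1, 0)

/-- Second partial derivative. -/
noncomputable def d2 (ψ : ℝ × ℝ → V) (a : ℝ × ℝ) : V := fderiv ℝ ψ a (0, 1)

/-- Coefficients of the first fundamental form. -/
noncomputable def cE (ψ : ℝ × ℝ → V) (a : ℝ × ℝ) : ℝ := lor (d1 ψ a) (d1 ψ a)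
@[inherit_doc cE] noncomputable def cF (ψ : ℝ × ℝ → V) (a : ℝ × ℝ) : ℝ := lor (d1 ψ a) (d2 ψ a)
@[inherit_doc cE] noncomputable def cG (ψ : ℝ × ℝ → V) (a : ℝ × ℝ) : ℝ := lor (d2 ψ a) (d2 ψ a)

/-- The area density of a parametrisation. -/
noncomputable def areaDensity (ψ : ℝ × ℝ → V) (a : ℝ × ℝ) : ℝ :=
  √(cE ψ a * cG ψ a - cF ψ a ^ 2)

/-- The mean curvature of a parametrised surface in `ℍ³` with respect to the unit normal `N`. -/
noncomputable def meanCurvature (ψ : ℝ × ℝ → V) (a : ℝ × ℝ) (N : V) : ℝ :=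
  (cG ψ a * lor (d1 (d1 ψ) a) N - 2 * cF ψ a * lor (d2 (d1 ψ) a) N +
    cE ψ a * lor (d2 (d2 ψ) a) N) / (2 * (cE ψ a * cG ψ a - cF ψ a ^ 2))

/-- `ψ` is a `C²` local parametrisation, defined on the open set `Ω ⊆ ℝ²`, of the embedded surface
`S`: an immersion and a homeomorphism of `Ω` onto a relatively open subset of `S`. -/
structure IsLocalParam (S : Set V) (Ω : Set (ℝ × ℝ)) (ψ : ℝ × ℝ → V) : Prop where
  isOpen : IsOpen Ω
  contDiffOn : ContDiffOn ℝ 2 ψ Ω
  immersion : ∀ a ∈ Ω, Function.Injective (fderiv ℝ ψ a)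
  injOn : InjOn ψ Ω
  openMap : ∀ U ⊆ Ω, IsOpen U → ∃ O : Set V, IsOpen O ∧ ψ '' U = S ∩ O

/-- `S` is an embedded minimal surface in `ℍ³`: near each of its points it has a local
parametrisation with vanishing mean curvature. -/
def IsMinimalSurface (S : Set V) : Prop :=
  S ⊆ H3 ∧ ∀ p ∈ S, ∃ Ω ψ, IsLocalParam S Ω ψ ∧ p ∈ ψ '' Ω ∧
    ∀ a ∈ Ω, ∀ N : V, lor N (ψ a) = 0 → lor N (d1 ψ a) = 0 → lor N (d2 ψ a) = 0 → lor N N = 1 →
      meanCurvature ψ a N = 0

/-- `μ` is the Riemannian area measure of the embedded surface `S`. -/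
def IsAreaMeasure (S : Set V) (μ : Measure V) : Prop :=
  μ Sᶜ = 0 ∧ ∀ Ω ψ, IsLocalParam S Ω ψ → ∀ A ⊆ Ω, MeasurableSet A →
    μ (ψ '' A) = ∫⁻ a in A, ENNReal.ofReal (areaDensity ψ a)

/-- The length of the arc `c|[0,1]` for the Riemannian metric of `ℍ³`. -/
noncomputable def arcLength (c : ℝ → V) : ℝ := ∫ t in (0 : ℝ)..1, √(lor (deriv c t) (deriv c t))

/-- The intrinsic distance of `S`: the infimum of the lengths of the `C¹` arcs in `S` joining two
points. -/
noncomputable def intrinsicDist (S : Set V) (p q : V) : ℝ≥0∞ :=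
  ⨅ (c : ℝ → V) (_ : ContDiff ℝ 1 c ∧ (∀ t ∈ Icc (0 : ℝ) 1, c t ∈ S) ∧ c 0 = p ∧ c 1 = q),
    ENNReal.ofReal (arcLength c)

/-- `S` is complete for its intrinsic distance. -/
def IsCompleteSurface (S : Set V) : Prop :=
  ∀ x : ℕ → V, (∀ k, x k ∈ S) →
    (∀ ε : ℝ≥0∞, 0 < ε → ∃ N, ∀ m n, N ≤ m → N ≤ n → intrinsicDist S (x m) (x n) < ε) →
    ∃ p ∈ S, Tendsto x atTop (𝓝 p)

/-- `S` is invariant under `Γ`; such a set is the full preimage of a subset of `ℍ³/Γ`. -/
def IsInvariantSet (Γ : Subgroup GL4) (S : Set V) : Prop := ∀ g ∈ Γ, ∀ x ∈ S, act g x ∈ S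

/-- `S` is the preimage in `ℍ³` of a nonempty, embedded, complete minimal surface of finite area in
the manifold `ℍ³/Γ`. -/
structure IsFiniteAreaMinimal (Γ : Subgroup GL4) (S : Set V) : Prop where
  nonempty : S.Nonempty
  invariant : IsInvariantSet Γ S
  minimal : IsMinimalSurface S
  complete : IsCompleteSurface S
  finiteArea : ∃ μ, IsAreaMeasure S μ ∧ ∃ D, IsFundamentalSet Γ S D ∧ μ D < ⊤

end Pool.Agent.MP_41c3fc_gt
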