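import Mathlib
import Pool.Agent.MP_41c3fc_gt.Defs

set_option autoImplicit false

open MeasureTheory Set Filter Topology
open scoped ENNReal

namespace Pool.Agent.MP_41c3fc_gt

theorem lor_comm (x y : V) : lor x y = lor y x := by unfold lor; ring

theorem lor_add_left (x y z : V) : lor (x + y) z = lor x z + lor y z := by
  unfold lor; simp only [Pi.add_apply]; ring

theorem lor_add_right (x y z : V) : lor x (y + z) = lor x y + lor x z := by
  unfold lor; simp only [Pi.add_apply]; ring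

theorem lor_sub_left (x y z : V) : lor (x - y) z = lor x z - lor y z := by
  unfold lor; simp only [Pi.sub_apply]; ring

theorem lor_sub_right (x y z : V) : lor x (y - z) = lor x y - lor x z := by
  unfold lor; simp only [Pi.sub_apply]; ring

theorem lor_smul_left (c : ℝ) (x y : V) : lor (c • x) y = c * lor x y := by
  unfold lor; simp only [Pi.smul_apply, smul_eq_mul]; ring

theorem lor_smul_right (c : ℝ) (x y : V) : lor x (c • y) = c * lor x y := by
  unfold lor; simp only [Pi.smul_apply, smul_eq_mul]; ring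

theorem lor_neg_left (x y : V) : lor (-x) y = - lor x y := by
  unfold lor; simp only [Pi.neg_apply]; ring

theorem lor_neg_right (x y : V) : lor x (-y) = - lor x y := by
  unfold lor; simp only [Pi.neg_apply]; ring

@[simp] theorem lor_zero_left (y : V) : lor 0 y = 0 := by simp [lor]

@[simp] theorem lor_zero_right (y : V) : lor y 0 = 0 := by simp [lor]

/-- The Lorentz form as a continuous bilinear map. -/
noncomputable def lorB : V →L[ℝ] V →L[ℝ] ℝ :=
  -((ContinuousLinearMap.proj 0 : V →L[ℝ] ℝ).smulRight (ContinuousLinearMap.proj 0 : V →L[ℝ] ℝ)) +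
    (ContinuousLinearMap.proj 1 : V →L[ℝ] ℝ).smulRight (ContinuousLinearMap.proj 1 : V →L[ℝ] ℝ) +
    (ContinuousLinearMap.proj 2 : V →L[ℝ] ℝ).smulRight (ContinuousLinearMap.proj 2 : V →L[ℝ] ℝ) +
    (ContinuousLinearMap.proj 3 : V →L[ℝ] ℝ).smulRight (ContinuousLinearMap.proj 3 : V →L[ℝ] ℝ)

theorem lorB_apply (x y : V) : lorB x y = lor x y := by
  simp [lorB, lor]

theorem continuous_lor : Continuous fun p : V × V => lor p.1 p.2 := by
  unfold lor; fun_prop

theorem H3_sq {x : V} (hx : x ∈ H3) : x 0 ^ 2 = 1 + (x 1 ^ 2 + x 2 ^ 2 + x 3 ^ 2) := by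
  have h := hx.1
  unfold lor at h
  linarith

theorem H3_one_le {x : V} (hx : x ∈ H3) : 1 ≤ x 0 := by
  have h := H3_sq hx
  nlinarith [sq_nonneg (x 1), sq_nonneg (x 2), sq_nonneg (x 3), hx.2]

theorem isClosed_H3 : IsClosed H3 := by
  have h : H3 = {x | lor x x = -1} ∩ {x | 1 ≤ x 0} := by
    ext x
    constructor
    · intro h; exact ⟨h.1, H3_one_le h⟩
    · rintro ⟨h1, h2⟩
      exact ⟨h1, lt_of_lt_of_le one_pos h2⟩
  rw [h]
  refine IsClosed.inter (isClosed_eq ?_ continuous_const) (isClosed_le continuous_const ?_)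
  · unfold lor; fun_prop
  · fun_prop

/-- Quantitative positivity of the Lorentz form on tangent vectors. -/
theorem lor_self_ge {x y : V} (hx : x ∈ H3) (h : lor y x = 0) :
    (y 1 ^ 2 + y 2 ^ 2 + y 3 ^ 2) / x 0 ^ 2 ≤ lor y y := by
  have hx0 : 0 < x 0 ^ 2 := by have := hx.2; positivity
  have h2 := H3_sq hx
  have h1 : y 0 * x 0 = y 1 * x 1 + y 2 * x 2 + y 3 * x 3 := by
    unfold lor at h; linarith
  have cs : (y 0 * x 0) ^ 2 ≤ (y 1 ^ 2 + y 2 ^ 2 + y 3 ^ 2) * (x 1 ^ 2 + x 2 ^ 2 + x 3 ^ 2) := by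
    rw [h1]
    nlinarith [sq_nonneg (y 1 * x 2 - y 2 * x 1), sq_nonneg (y 1 * x 3 - y 3 * x 1),
      sq_nonneg (y 2 * x 3 - y 3 * x 2)]
  rw [div_le_iff₀ hx0]
  unfold lor
  nlinarith

theorem lor_self_nonneg {x y : V} (hx : x ∈ H3) (h : lor y x = 0) : 0 ≤ lor y y := by
  refine le_trans ?_ (lor_self_ge hx h)
  positivity

theorem eq_zero_of_lor_self {x y : V} (hx : x ∈ H3) (h : lor y x = 0) (h0 : lor y y ≤ 0) :
    y = 0 := by
  have h1 := (lor_self_ge hx h).trans h0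
  have hx0 : 0 < x 0 ^ 2 := by have := hx.2; positivity
  rw [div_le_iff₀ hx0, zero_mul] at h1
  have hy1 : y 1 = 0 := by nlinarith [sq_nonneg (y 1), sq_nonneg (y 2), sq_nonneg (y 3)]
  have hy2 : y 2 = 0 := by nlinarith [sq_nonneg (y 1), sq_nonneg (y 2), sq_nonneg (y 3)]
  have hy3 : y 3 = 0 := by nlinarith [sq_nonneg (y 1), sq_nonneg (y 2), sq_nonneg (y 3)]
  have hy0 : y 0 = 0 := by
    unfold lor at h
    rw [hy1, hy2, hy3] at h
    have : y 0 * x 0 = 0 := by linarith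
    rcases mul_eq_zero.1 this with h' | h'
    · exact h'
    · exact absurd h' hx.2.ne'
  ext i
  fin_cases i <;> simp_all

theorem lor_self_pos {x y : V} (hx : x ∈ H3) (h : lor y x = 0) (hy : y ≠ 0) : 0 < lor y y := by
  by_contra hcon
  exact hy (eq_zero_of_lor_self hx h (not_lt.1 hcon))

/-- Cauchy-Schwarz on a tangent space of `ℍ³`. -/
theorem lor_cauchy {x y z : V} (hx : x ∈ H3) (hy : lor y x = 0) (hz : lor z x = 0) :
    lor y z ^ 2 ≤ lor y y * lor z z := by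
  by_cases hy0 : y = 0
  · subst hy0; simp
  have hpos := lor_self_pos hx hy hy0
  have h : lor (lor y y • z - lor y z • y) x = 0 := by
    rw [lor_sub_left, lor_smul_left, lor_smul_left, hy, hz]; ring
  have h2 := lor_self_nonneg hx h
  have h3 : lor (lor y y • z - lor y z • y) (lor y y • z - lor y z • y) =
      lor y y * (lor y y * lor z z - lor y z ^ 2) := by
    simp only [lor_sub_left, lor_sub_right, lor_smul_left, lor_smul_right, lor_comm z y]
    ring
  rw [h3] at h2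
  have := nonneg_of_mul_nonneg_right h2 hpos
  linarith

/-- the coordinate vector in the direction of `x 3` -/
def e3 : V := ![0, 0, 0, 1]

theorem lor_e3 (x : V) : lor e3 x = x 3 := by simp [lor, e3]

theorem lor_H3_le {x y : V} (hx : x ∈ H3) (hy : y ∈ H3) : y 0 / (2 * x 0) ≤ -lor x y := by
  have hx0 := hx.2
  have hy0 := hy.2
  have hx2 := H3_sq hx
  have hy2 := H3_sq hy
  -- Cauchy-Schwarz for the space parts
  set s := x 1 * y 1 + x 2 * y 2 + x 3 * y 3 with hs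
  have hlor : -lor x y = x 0 * y 0 - s := by unfold lor; rw [hs]; ring
  have cs : s ^ 2 ≤ (x 0 ^ 2 - 1) * (y 0 ^ 2 - 1) := by
    have h1 : x 0 ^ 2 - 1 = x 1 ^ 2 + x 2 ^ 2 + x 3 ^ 2 := by linarith
    have h2 : y 0 ^ 2 - 1 = y 1 ^ 2 + y 2 ^ 2 + y 3 ^ 2 := by linarith
    rw [h1, h2, hs]
    nlinarith [sq_nonneg (x 1 * y 2 - x 2 * y 1), sq_nonneg (x 1 * y 3 - x 3 * y 1),
      sq_nonneg (x 2 * y 3 - x 3 * y 2)]
  rw [hlor, div_le_iff₀ (by positivity)]
  have hxy : 0 < x 0 * y 0 := mul_pos hx0 hy0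
  by_cases hneg : s ≤ 0
  · have h1x := H3_one_le hx
    nlinarith
  push Not at hneg
  -- (x0 y0 - s)(x0 y0 + s) ≥ y0^2 + x0^2 - 1 ≥ y0^2
  have h1 : y 0 ^ 2 ≤ (x 0 * y 0 - s) * (x 0 * y 0 + s) := by
    have h1x := H3_one_le hx
    nlinarith
  have hd : 0 < x 0 * y 0 - s := by
    by_contra hcon
    have : (x 0 * y 0 - s) * (x 0 * y 0 + s) ≤ 0 := by
      apply mul_nonpos_of_nonpos_of_nonneg (not_lt.1 hcon)
      linarith
    nlinarith
  have h2 : x 0 * y 0 + s ≤ 2 * (x 0 * y 0) := by linarith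
  have h3 : y 0 ^ 2 ≤ (x 0 * y 0 - s) * (2 * (x 0 * y 0)) :=
    h1.trans (mul_le_mul_of_nonneg_left h2 hd.le)
  have h4 : y 0 * y 0 ≤ ((x 0 * y 0 - s) * (2 * x 0)) * y 0 := by nlinarith
  exact le_of_mul_le_mul_right h4 hy0

theorem one_le_neg_lor {x y : V} (hx : x ∈ H3) (hy : y ∈ H3) : 1 ≤ -lor x y := by
  have hx0 := hx.2
  have hy0 := hy.2
  have hx2 := H3_sq hx
  have hy2 := H3_sq hy
  set s := x 1 * y 1 + x 2 * y 2 + x 3 * y 3 with hs
  have hlor : -lor x y = x 0 * y 0 - s := by unfold lor; rw [hs]; ring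
  have cs : s ^ 2 ≤ (x 0 ^ 2 - 1) * (y 0 ^ 2 - 1) := by
    have h1 : x 0 ^ 2 - 1 = x 1 ^ 2 + x 2 ^ 2 + x 3 ^ 2 := by linarith
    have h2 : y 0 ^ 2 - 1 = y 1 ^ 2 + y 2 ^ 2 + y 3 ^ 2 := by linarith
    rw [h1, h2, hs]
    nlinarith [sq_nonneg (x 1 * y 2 - x 2 * y 1), sq_nonneg (x 1 * y 3 - x 3 * y 1),
      sq_nonneg (x 2 * y 3 - x 3 * y 2)]
  rw [hlor]
  by_contra hcon
  push Not at hcon
  have h1x := H3_one_le hx
  have h1y := H3_one_le hy
  have hs1 : x 0 * y 0 - 1 < s := by linarith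
  have hs2 : (x 0 * y 0 - 1) ^ 2 < s ^ 2 := by
    apply pow_lt_pow_left₀ hs1 _ two_ne_zero
    nlinarith
  nlinarith [sq_nonneg (x 0 - y 0)]

end Pool.Agent.MP_41c3fc_gt
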