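import Mathlib
import Pool.Agent.MP_41c3fc_gt.Lorentz

set_option autoImplicit false

open MeasureTheory Set Filter Topology
open scoped ENNReal

namespace Pool.Agent.MP_41c3fc_gt

/-- Hypotheses on a parametrised surface in `ℍ³`. -/
structure IsPatch (Ω : Set (ℝ × ℝ)) (ψ : ℝ × ℝ → V) : Prop where
  isOpen : IsOpen Ω
  contDiffOn : ContDiffOn ℝ 2 ψ Ω
  immersion : ∀ a ∈ Ω, Function.Injective (fderiv ℝ ψ a)
  mem : ∀ a ∈ Ω, ψ a ∈ H3

/-- Vanishing of the mean curvature. -/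
def IsMin (Ω : Set (ℝ × ℝ)) (ψ : ℝ × ℝ → V) : Prop :=
  ∀ a ∈ Ω, ∀ N : V, lor N (ψ a) = 0 → lor N (d1 ψ a) = 0 → lor N (d2 ψ a) = 0 → lor N N = 1 →
      meanCurvature ψ a N = 0

theorem hasFDerivAt_lor {f g : ℝ × ℝ → V} {f' g' : ℝ × ℝ →L[ℝ] V} {a : ℝ × ℝ}
    (hf : HasFDerivAt f f' a) (hg : HasFDerivAt g g' a) (e : ℝ × ℝ) :
    fderiv ℝ (fun b => lor (f b) (g b)) a e = lor (f' e) (g a) + lor (f a) (g' e) := by
  have h := lorB.hasFDerivAt_of_bilinear hf hg
  have h2 : (fun b => lor (f b) (g b)) = fun b => lorB (f b) (g b) := by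
    funext b; rw [lorB_apply]
  rw [h2, h.fderiv]
  simp [lorB_apply]
  ring

theorem differentiableAt_lor {f g : ℝ × ℝ → V} {a : ℝ × ℝ}
    (hf : DifferentiableAt ℝ f a) (hg : DifferentiableAt ℝ g a) :
    DifferentiableAt ℝ (fun b => lor (f b) (g b)) a := by
  have h := lorB.hasFDerivAt_of_bilinear hf.hasFDerivAt hg.hasFDerivAt
  have h2 : (fun b => lor (f b) (g b)) = fun b => lorB (f b) (g b) := by
    funext b; rw [lorB_apply]
  rw [h2]
  exact h.differentiableAt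

theorem contDiffOn_lor {f g : ℝ × ℝ → V} {Ω : Set (ℝ × ℝ)} {n : WithTop ℕ∞}
    (hf : ContDiffOn ℝ n f Ω) (hg : ContDiffOn ℝ n g Ω) :
    ContDiffOn ℝ n (fun b => lor (f b) (g b)) Ω := by
  have h2 : (fun b => lor (f b) (g b)) = fun b => lorB (f b) (g b) := by
    funext b; rw [lorB_apply]
  rw [h2]
  exact (contDiffOn_const.clm_apply hf).clm_apply hg

namespace IsPatch

variable {Ω : Set (ℝ × ℝ)} {ψ : ℝ × ℝ → V} {a : ℝ × ℝ}

theorem contDiffOn_d1 (h : IsPatch Ω ψ) : ContDiffOn ℝ 1 (d1 ψ) Ω :=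
  (h.contDiffOn.fderiv_of_isOpen h.isOpen (by norm_num)).clm_apply contDiffOn_const

theorem contDiffOn_d2 (h : IsPatch Ω ψ) : ContDiffOn ℝ 1 (d2 ψ) Ω :=
  (h.contDiffOn.fderiv_of_isOpen h.isOpen (by norm_num)).clm_apply contDiffOn_const

theorem diff (h : IsPatch Ω ψ) (ha : a ∈ Ω) : DifferentiableAt ℝ ψ a :=
  (h.contDiffOn.differentiableOn (by norm_num)).differentiableAt (h.isOpen.mem_nhds ha)

theorem diff_d1 (h : IsPatch Ω ψ) (ha : a ∈ Ω) : DifferentiableAt ℝ (d1 ψ) a :=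
  (h.contDiffOn_d1.differentiableOn (by norm_num)).differentiableAt (h.isOpen.mem_nhds ha)

theorem diff_d2 (h : IsPatch Ω ψ) (ha : a ∈ Ω) : DifferentiableAt ℝ (d2 ψ) a :=
  (h.contDiffOn_d2.differentiableOn (by norm_num)).differentiableAt (h.isOpen.mem_nhds ha)

theorem symm (h : IsPatch Ω ψ) (ha : a ∈ Ω) : d1 (d2 ψ) a = d2 (d1 ψ) a := by
  have hc : ContDiffAt ℝ 2 ψ a := h.contDiffOn.contDiffAt (h.isOpen.mem_nhds ha)
  have hs := hc.isSymmSndFDerivAt (by simp)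
  have hd : DifferentiableAt ℝ (fderiv ℝ ψ) a :=
    ((h.contDiffOn.fderiv_of_isOpen h.isOpen (m := 1) (by norm_num)).differentiableOn
      (by norm_num)).differentiableAt (h.isOpen.mem_nhds ha)
  have e1 : ∀ e f : ℝ × ℝ, fderiv ℝ (fun b => fderiv ℝ ψ b e) a f = fderiv ℝ (fderiv ℝ ψ) a f e := by
    intro e f
    have := hd.hasFDerivAt.clm_apply (hasFDerivAt_const e a)
    rw [this.fderiv]
    simp
  change fderiv ℝ (fun b => fderiv ℝ ψ b (0, 1)) a (1, 0) =
    fderiv ℝ (fun b => fderiv ℝ ψ b (1, 0)) a (0, 1)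
  rw [e1, e1]
  exact hs _ _

/-- differentiate an identity valid on `Ω` -/
theorem fderiv_congr {f g : ℝ × ℝ → ℝ} (h : IsPatch Ω ψ) (ha : a ∈ Ω) (hfg : ∀ b ∈ Ω, f b = g b) :
    fderiv ℝ f a = fderiv ℝ g a := by
  apply Filter.EventuallyEq.fderiv_eq
  filter_upwards [h.isOpen.mem_nhds ha] with b hb using hfg b hb

theorem lor_d1 (h : IsPatch Ω ψ) (ha : a ∈ Ω) : lor (d1 ψ a) (ψ a) = 0 := by
  have h1 := h.fderiv_congr ha (f := fun b => lor (ψ b) (ψ b)) (g := fun _ => -1)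
    (fun b hb => (h.mem b hb).1)
  have h2 := hasFDerivAt_lor (h.diff ha).hasFDerivAt (h.diff ha).hasFDerivAt (1, 0)
  rw [h1] at h2
  simp only [fderiv_fun_const, Pi.zero_apply, zero_apply] at h2
  have h3 : lor (ψ a) (fderiv ℝ ψ a (1, 0)) = lor (fderiv ℝ ψ a (1, 0)) (ψ a) := lor_comm _ _
  change lor (fderiv ℝ ψ a (1, 0)) (ψ a) = 0
  linarith

theorem lor_d2 (h : IsPatch Ω ψ) (ha : a ∈ Ω) : lor (d2 ψ a) (ψ a) = 0 := by
  have h1 := h.fderiv_congr ha (f := fun b => lor (ψ b) (ψ b)) (g := fun _ => -1)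
    (fun b hb => (h.mem b hb).1)
  have h2 := hasFDerivAt_lor (h.diff ha).hasFDerivAt (h.diff ha).hasFDerivAt (0, 1)
  rw [h1] at h2
  simp only [fderiv_fun_const, Pi.zero_apply, zero_apply] at h2
  have h3 : lor (ψ a) (fderiv ℝ ψ a (0, 1)) = lor (fderiv ℝ ψ a (0, 1)) (ψ a) := lor_comm _ _
  change lor (fderiv ℝ ψ a (0, 1)) (ψ a) = 0
  linarith

theorem lin_indep (h : IsPatch Ω ψ) (ha : a ∈ Ω) {s t : ℝ} (hst : s • d1 ψ a + t • d2 ψ a = 0) :
    s = 0 ∧ t = 0 := by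
  have h1 : fderiv ℝ ψ a (s, t) = 0 := by
    have : ((s, t) : ℝ × ℝ) = s • (1, 0) + t • (0, 1) := by ext <;> simp
    rw [this, map_add, map_smul, map_smul]
    exact hst
  have h2 := h.immersion a ha (h1.trans (map_zero _).symm)
  exact ⟨congrArg Prod.fst h2, congrArg Prod.snd h2⟩

theorem lor_span (h : IsPatch Ω ψ) (ha : a ∈ Ω) (s t : ℝ) :
    lor (s • d1 ψ a + t • d2 ψ a) (ψ a) = 0 := by
  rw [lor_add_left, lor_smul_left, lor_smul_left, h.lor_d1 ha, h.lor_d2 ha]; ring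

theorem cE_pos (h : IsPatch Ω ψ) (ha : a ∈ Ω) : 0 < cE ψ a := by
  refine lor_self_pos (h.mem a ha) (h.lor_d1 ha) ?_
  intro h0
  have := (h.lin_indep ha (s := 1) (t := 0) (by simp [h0])).1
  exact one_ne_zero this

theorem cG_pos (h : IsPatch Ω ψ) (ha : a ∈ Ω) : 0 < cG ψ a := by
  refine lor_self_pos (h.mem a ha) (h.lor_d2 ha) ?_
  intro h0
  have := (h.lin_indep ha (s := 0) (t := 1) (by simp [h0])).2
  exact one_ne_zero this

theorem det_pos (h : IsPatch Ω ψ) (ha : a ∈ Ω) : 0 < cE ψ a * cG ψ a - cF ψ a ^ 2 := by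
  have hG := h.cG_pos ha
  have hne : cG ψ a • d1 ψ a + (-cF ψ a) • d2 ψ a ≠ 0 := by
    intro h0
    exact hG.ne' (h.lin_indep ha h0).1
  have h1 := lor_self_pos (h.mem a ha) (h.lor_span ha _ _) hne
  have h2 : lor (cG ψ a • d1 ψ a + (-cF ψ a) • d2 ψ a) (cG ψ a • d1 ψ a + (-cF ψ a) • d2 ψ a) =
      cG ψ a * (cE ψ a * cG ψ a - cF ψ a ^ 2) := by
    simp only [lor_add_left, lor_add_right, lor_smul_left, lor_smul_right]
    rw [lor_comm (d2 ψ a) (d1 ψ a)]
    unfold cE cF cG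
    ring
  rw [h2] at h1
  exact (mul_pos_iff_of_pos_left hG).1 h1

theorem area_pos (h : IsPatch Ω ψ) (ha : a ∈ Ω) : 0 < areaDensity ψ a := Real.sqrt_pos.2 (h.det_pos ha)

theorem area_sq (h : IsPatch Ω ψ) (ha : a ∈ Ω) :
    areaDensity ψ a ^ 2 = cE ψ a * cG ψ a - cF ψ a ^ 2 := Real.sq_sqrt (h.det_pos ha).le

theorem contDiffOn_cE (h : IsPatch Ω ψ) : ContDiffOn ℝ 1 (cE ψ) Ω :=
  contDiffOn_lor h.contDiffOn_d1 h.contDiffOn_d1

theorem contDiffOn_cF (h : IsPatch Ω ψ) : ContDiffOn ℝ 1 (cF ψ) Ω :=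
  contDiffOn_lor h.contDiffOn_d1 h.contDiffOn_d2

theorem contDiffOn_cG (h : IsPatch Ω ψ) : ContDiffOn ℝ 1 (cG ψ) Ω :=
  contDiffOn_lor h.contDiffOn_d2 h.contDiffOn_d2

theorem contDiffOn_area (h : IsPatch Ω ψ) : ContDiffOn ℝ 1 (areaDensity ψ) Ω := by
  have h1 : ContDiffOn ℝ 1 (fun a => cE ψ a * cG ψ a - cF ψ a ^ 2) Ω :=
    (h.contDiffOn_cE.mul h.contDiffOn_cG).sub (h.contDiffOn_cF.pow 2)
  exact h1.sqrt fun a ha => (h.det_pos ha).ne'

end IsPatch

/-- The fields `P`, `Q`: the conormal fields of the coordinate directions, times the density. -/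
noncomputable def fP (ψ : ℝ × ℝ → V) (a : ℝ × ℝ) : V :=
  (cG ψ a / areaDensity ψ a) • d1 ψ a - (cF ψ a / areaDensity ψ a) • d2 ψ a

@[inherit_doc fP] noncomputable def fQ (ψ : ℝ × ℝ → V) (a : ℝ × ℝ) : V :=
  (cE ψ a / areaDensity ψ a) • d2 ψ a - (cF ψ a / areaDensity ψ a) • d1 ψ a

namespace IsPatch

variable {Ω : Set (ℝ × ℝ)} {ψ : ℝ × ℝ → V} {a : ℝ × ℝ}

theorem contDiffOn_fP (h : IsPatch Ω ψ) : ContDiffOn ℝ 1 (fP ψ) Ω :=
  ((h.contDiffOn_cG.div h.contDiffOn_area fun _ ha => (h.area_pos ha).ne').smul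
    h.contDiffOn_d1).sub
  ((h.contDiffOn_cF.div h.contDiffOn_area fun _ ha => (h.area_pos ha).ne').smul h.contDiffOn_d2)

theorem contDiffOn_fQ (h : IsPatch Ω ψ) : ContDiffOn ℝ 1 (fQ ψ) Ω :=
  ((h.contDiffOn_cE.div h.contDiffOn_area fun _ ha => (h.area_pos ha).ne').smul
    h.contDiffOn_d2).sub
  ((h.contDiffOn_cF.div h.contDiffOn_area fun _ ha => (h.area_pos ha).ne').smul h.contDiffOn_d1)

theorem diff_fP (h : IsPatch Ω ψ) (ha : a ∈ Ω) : DifferentiableAt ℝ (fP ψ) a :=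
  (h.contDiffOn_fP.differentiableOn (by norm_num)).differentiableAt (h.isOpen.mem_nhds ha)

theorem diff_fQ (h : IsPatch Ω ψ) (ha : a ∈ Ω) : DifferentiableAt ℝ (fQ ψ) a :=
  (h.contDiffOn_fQ.differentiableOn (by norm_num)).differentiableAt (h.isOpen.mem_nhds ha)

theorem lor_fP_self (h : IsPatch Ω ψ) (ha : a ∈ Ω) : lor (fP ψ a) (ψ a) = 0 := by
  unfold fP
  rw [lor_sub_left, lor_smul_left, lor_smul_left, h.lor_d1 ha, h.lor_d2 ha]; ring

theorem lor_fQ_self (h : IsPatch Ω ψ) (ha : a ∈ Ω) : lor (fQ ψ a) (ψ a) = 0 := by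
  unfold fQ
  rw [lor_sub_left, lor_smul_left, lor_smul_left, h.lor_d1 ha, h.lor_d2 ha]; ring

theorem lor_fP_d1 (h : IsPatch Ω ψ) (ha : a ∈ Ω) : lor (fP ψ a) (d1 ψ a) = areaDensity ψ a := by
  have hW := h.area_pos ha
  have hW2 := h.area_sq ha
  unfold fP
  rw [lor_sub_left, lor_smul_left, lor_smul_left, lor_comm (d2 ψ a) (d1 ψ a)]
  change cG ψ a / areaDensity ψ a * cE ψ a - cF ψ a / areaDensity ψ a * cF ψ a = _
  field_simp
  linarith

theorem lor_fP_d2 (h : IsPatch Ω ψ) (ha : a ∈ Ω) : lor (fP ψ a) (d2 ψ a) = 0 := by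
  have hW := h.area_pos ha
  unfold fP
  rw [lor_sub_left, lor_smul_left, lor_smul_left]
  change cG ψ a / areaDensity ψ a * cF ψ a - cF ψ a / areaDensity ψ a * cG ψ a = _
  ring

theorem lor_fQ_d1 (h : IsPatch Ω ψ) (ha : a ∈ Ω) : lor (fQ ψ a) (d1 ψ a) = 0 := by
  have hW := h.area_pos ha
  unfold fQ
  rw [lor_sub_left, lor_smul_left, lor_smul_left, lor_comm (d2 ψ a) (d1 ψ a)]
  change cE ψ a / areaDensity ψ a * cF ψ a - cF ψ a / areaDensity ψ a * cE ψ a = _
  ring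

theorem lor_fQ_d2 (h : IsPatch Ω ψ) (ha : a ∈ Ω) : lor (fQ ψ a) (d2 ψ a) = areaDensity ψ a := by
  have hW := h.area_pos ha
  have hW2 := h.area_sq ha
  unfold fQ
  rw [lor_sub_left, lor_smul_left, lor_smul_left]
  change cE ψ a / areaDensity ψ a * cG ψ a - cF ψ a / areaDensity ψ a * cF ψ a = _
  field_simp
  linarith

/-- The key identity `∂₁P + ∂₂Q = 2 W ψ` for a minimal surface. -/
theorem div_identity (h : IsPatch Ω ψ) (hm : IsMin Ω ψ) (ha : a ∈ Ω) :
    fderiv ℝ (fP ψ) a (1, 0) + fderiv ℝ (fQ ψ) a (0, 1) = (2 * areaDensity ψ a) • ψ a := by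
  have hW := h.area_pos ha
  have hW2 := h.area_sq ha
  have hP := (h.diff_fP ha).hasFDerivAt
  have hQ := (h.diff_fQ ha).hasFDerivAt
  have hψ := (h.diff ha).hasFDerivAt
  have hd1 := (h.diff_d1 ha).hasFDerivAt
  have hd2 := (h.diff_d2 ha).hasFDerivAt
  have hsymm := h.symm ha
  -- abbreviations
  set P1 := fderiv ℝ (fP ψ) a (1, 0) with hP1
  set Q2 := fderiv ℝ (fQ ψ) a (0, 1) with hQ2
  set W := areaDensity ψ a with hWdef
  set R := P1 + Q2 - (2 * W) • ψ a with hR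
  -- (i)
  have i1 : lor P1 (ψ a) = -W := by
    have e := hasFDerivAt_lor hP hψ (1, 0)
    rw [h.fderiv_congr ha (g := fun _ => 0) (fun b hb => h.lor_fP_self hb)] at e
    simp only [fderiv_fun_const, Pi.zero_apply, zero_apply] at e
    have e2 := h.lor_fP_d1 ha
    change lor (fP ψ a) (fderiv ℝ ψ a (1, 0)) = _ at e2
    rw [e2] at e
    linarith
  have i2 : lor Q2 (ψ a) = -W := by
    have e := hasFDerivAt_lor hQ hψ (0, 1)
    rw [h.fderiv_congr ha (g := fun _ => 0) (fun b hb => h.lor_fQ_self hb)] at e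
    simp only [fderiv_fun_const, Pi.zero_apply, zero_apply] at e
    have e2 := h.lor_fQ_d2 ha
    change lor (fQ ψ a) (fderiv ℝ ψ a (0, 1)) = _ at e2
    rw [e2] at e
    linarith
  have iR : lor R (ψ a) = 0 := by
    rw [hR, lor_sub_left, lor_add_left, lor_smul_left, i1, i2, (h.mem a ha).1]; ring
  -- derivatives of the coefficients
  have hWd : DifferentiableAt ℝ (areaDensity ψ) a :=
    (h.contDiffOn_area.differentiableOn (by norm_num)).differentiableAt (h.isOpen.mem_nhds ha)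
  have hEd : DifferentiableAt ℝ (cE ψ) a := differentiableAt_lor (h.diff_d1 ha) (h.diff_d1 ha)
  have hFd : DifferentiableAt ℝ (cF ψ) a := differentiableAt_lor (h.diff_d1 ha) (h.diff_d2 ha)
  have hGd : DifferentiableAt ℝ (cG ψ) a := differentiableAt_lor (h.diff_d2 ha) (h.diff_d2 ha)
  have hWder : ∀ e, 2 * W * fderiv ℝ (areaDensity ψ) a e =
      fderiv ℝ (cE ψ) a e * cG ψ a + cE ψ a * fderiv ℝ (cG ψ) a e -
        2 * cF ψ a * fderiv ℝ (cF ψ) a e := by
    intro e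
    have e1 := h.fderiv_congr ha (f := fun b => areaDensity ψ b ^ 2)
      (g := fun b => cE ψ b * cG ψ b - cF ψ b ^ 2) (fun b hb => h.area_sq hb)
    have e2 := congrArg (fun L => L e) e1
    have k1 := hWd.hasFDerivAt.pow 2
    have k2 := (hEd.hasFDerivAt.mul hGd.hasFDerivAt).sub (hFd.hasFDerivAt.pow 2)
    have k1' : fderiv ℝ (fun b => areaDensity ψ b ^ 2) a = _ := k1.fderiv
    have k2' : fderiv ℝ (fun b => cE ψ b * cG ψ b - cF ψ b ^ 2) a = _ := k2.fderiv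
    rw [k1', k2'] at e2
    simp at e2
    rw [hWdef]
    linarith
  have hE : ∀ e, fderiv ℝ (cE ψ) a e = 2 * lor (fderiv ℝ (d1 ψ) a e) (d1 ψ a) := by
    intro e
    have := hasFDerivAt_lor hd1 hd1 e
    change fderiv ℝ (cE ψ) a e = _ at this
    rw [this, lor_comm (d1 ψ a)]; ring
  have hF : ∀ e, fderiv ℝ (cF ψ) a e = lor (fderiv ℝ (d1 ψ) a e) (d2 ψ a) +
      lor (fderiv ℝ (d2 ψ) a e) (d1 ψ a) := by
    intro e
    have := hasFDerivAt_lor hd1 hd2 e
    change fderiv ℝ (cF ψ) a e = _ at this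
    rw [this, lor_comm (d1 ψ a)]
  have hG : ∀ e, fderiv ℝ (cG ψ) a e = 2 * lor (fderiv ℝ (d2 ψ) a e) (d2 ψ a) := by
    intro e
    have := hasFDerivAt_lor hd2 hd2 e
    change fderiv ℝ (cG ψ) a e = _ at this
    rw [this, lor_comm (d2 ψ a) (fderiv ℝ (d2 ψ) a e)]; ring
  have hWP : ∀ y, W * lor (fP ψ a) y = cG ψ a * lor (d1 ψ a) y - cF ψ a * lor (d2 ψ a) y := by
    intro y
    unfold fP
    rw [lor_sub_left, lor_smul_left, lor_smul_left, ← hWdef]
    field_simp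
  have hWQ : ∀ y, W * lor (fQ ψ a) y = cE ψ a * lor (d2 ψ a) y - cF ψ a * lor (d1 ψ a) y := by
    intro y
    unfold fQ
    rw [lor_sub_left, lor_smul_left, lor_smul_left, ← hWdef]
    field_simp
  -- second derivatives
  set y11 := fderiv ℝ (d1 ψ) a (1, 0) with hy11
  set y12 := fderiv ℝ (d1 ψ) a (0, 1) with hy12
  set y22 := fderiv ℝ (d2 ψ) a (0, 1) with hy22
  have hy21 : fderiv ℝ (d2 ψ) a (1, 0) = y12 := hsymm
  -- (ii)
  have iR1 : lor R (d1 ψ a) = 0 := by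
    have e := hasFDerivAt_lor hP hd1 (1, 0)
    rw [h.fderiv_congr ha (fun b hb => h.lor_fP_d1 hb)] at e
    have e' := hasFDerivAt_lor hQ hd1 (0, 1)
    rw [h.fderiv_congr ha (g := fun _ => 0) (fun b hb => h.lor_fQ_d1 hb)] at e'
    simp only [fderiv_fun_const, Pi.zero_apply, zero_apply] at e'
    have k := hWder (1, 0)
    rw [hE, hG, hF, hy21] at k
    have k1 := hWP y11
    have k2 := hWQ y12
    rw [← hP1, ← hy11] at e
    rw [← hQ2, ← hy12] at e'
    rw [hR, lor_sub_left, lor_add_left, lor_smul_left, lor_comm (ψ a), h.lor_d1 ha]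
    have : W * (lor P1 (d1 ψ a) + lor Q2 (d1 ψ a)) = 0 := by
      have c1 : lor (d1 ψ a) y11 = lor y11 (d1 ψ a) := lor_comm _ _
      have c2 : lor (d2 ψ a) y11 = lor y11 (d2 ψ a) := lor_comm _ _
      have c3 : lor (d2 ψ a) y12 = lor y12 (d2 ψ a) := lor_comm _ _
      have c4 : lor (d1 ψ a) y12 = lor y12 (d1 ψ a) := lor_comm _ _
      rw [c1, c2] at k1
      rw [c3, c4] at k2
      have e3 : lor P1 (d1 ψ a) = fderiv ℝ (areaDensity ψ) a (1, 0) - lor (fP ψ a) y11 := by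
        linarith
      have e4 : lor Q2 (d1 ψ a) = - lor (fQ ψ a) y12 := by linarith
      rw [e3, e4]
      linear_combination (1 / 2 : ℝ) * k - k1 - k2
    have h0 := (mul_eq_zero.1 this).resolve_left hW.ne'
    linarith
  -- (iii)
  have iR2 : lor R (d2 ψ a) = 0 := by
    have e := hasFDerivAt_lor hP hd2 (1, 0)
    rw [h.fderiv_congr ha (g := fun _ => 0) (fun b hb => h.lor_fP_d2 hb)] at e
    simp only [fderiv_fun_const, Pi.zero_apply, zero_apply] at e
    have e' := hasFDerivAt_lor hQ hd2 (0, 1)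
    rw [h.fderiv_congr ha (fun b hb => h.lor_fQ_d2 hb)] at e'
    have k := hWder (0, 1)
    rw [hE, hG, hF] at k
    have k1 := hWP y12
    have k2 := hWQ y22
    rw [← hP1, hy21] at e
    rw [← hQ2, ← hy22] at e'
    rw [← hy12, ← hy22] at k
    rw [hR, lor_sub_left, lor_add_left, lor_smul_left, lor_comm (ψ a), h.lor_d2 ha]
    have : W * (lor P1 (d2 ψ a) + lor Q2 (d2 ψ a)) = 0 := by
      have c1 : lor (d1 ψ a) y12 = lor y12 (d1 ψ a) := lor_comm _ _
      have c2 : lor (d2 ψ a) y12 = lor y12 (d2 ψ a) := lor_comm _ _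
      have c3 : lor (d2 ψ a) y22 = lor y22 (d2 ψ a) := lor_comm _ _
      have c4 : lor (d1 ψ a) y22 = lor y22 (d1 ψ a) := lor_comm _ _
      rw [c1, c2] at k1
      rw [c3, c4] at k2
      have e3 : lor P1 (d2 ψ a) = - lor (fP ψ a) y12 := by linarith
      have e4 : lor Q2 (d2 ψ a) = fderiv ℝ (areaDensity ψ) a (0, 1) - lor (fQ ψ a) y22 := by
        linarith
      rw [e3, e4]
      linear_combination (1 / 2 : ℝ) * k - k1 - k2
    have h0 := (mul_eq_zero.1 this).resolve_left hW.ne'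
    linarith
  -- (iv)
  have iRN : ∀ N : V, lor N (ψ a) = 0 → lor N (d1 ψ a) = 0 → lor N (d2 ψ a) = 0 → lor N N = 1 →
      lor R N = 0 := by
    intro N hN0 hN1 hN2 hNN
    have hmc := hm a ha N hN0 hN1 hN2 hNN
    unfold meanCurvature at hmc
    have hdet := h.det_pos ha
    have hnum := (div_eq_zero_iff.1 hmc).resolve_right (by positivity)
    change cG ψ a * lor y11 N - 2 * cF ψ a * lor y12 N + cE ψ a * lor y22 N = 0 at hnum
    have hGW : DifferentiableAt ℝ (fun b => cG ψ b / areaDensity ψ b) a :=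
      ((h.contDiffOn_cG.div h.contDiffOn_area fun _ hb => (h.area_pos hb).ne').differentiableOn
        (by norm_num)).differentiableAt (h.isOpen.mem_nhds ha)
    have hFW : DifferentiableAt ℝ (fun b => cF ψ b / areaDensity ψ b) a :=
      ((h.contDiffOn_cF.div h.contDiffOn_area fun _ hb => (h.area_pos hb).ne').differentiableOn
        (by norm_num)).differentiableAt (h.isOpen.mem_nhds ha)
    have hEW : DifferentiableAt ℝ (fun b => cE ψ b / areaDensity ψ b) a :=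
      ((h.contDiffOn_cE.div h.contDiffOn_area fun _ hb => (h.area_pos hb).ne').differentiableOn
        (by norm_num)).differentiableAt (h.isOpen.mem_nhds ha)
    have p1 : P1 = _ := congrArg (fun L => L (1, 0))
      ((hGW.hasFDerivAt.smul hd1).sub (hFW.hasFDerivAt.smul hd2)).fderiv
    have q2 : Q2 = _ := congrArg (fun L => L (0, 1))
      ((hEW.hasFDerivAt.smul hd2).sub (hFW.hasFDerivAt.smul hd1)).fderiv
    have p1N : lor P1 N = (cG ψ a * lor y11 N - cF ψ a * lor y12 N) / W := by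
      rw [p1]
      simp only [sub_apply, add_apply,
        smul_apply, ContinuousLinearMap.smulRight_apply]
      rw [lor_sub_left, lor_add_left, lor_add_left, lor_smul_left, lor_smul_left, lor_smul_left,
        lor_smul_left, lor_comm (d1 ψ a) N, hN1, lor_comm (d2 ψ a) N, hN2, hy21, ← hy11, ← hWdef]
      ring
    have q2N : lor Q2 N = (cE ψ a * lor y22 N - cF ψ a * lor y12 N) / W := by
      rw [q2]
      simp only [sub_apply, add_apply,
        smul_apply, ContinuousLinearMap.smulRight_apply]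
      rw [lor_sub_left, lor_add_left, lor_add_left, lor_smul_left, lor_smul_left, lor_smul_left,
        lor_smul_left, lor_comm (d1 ψ a) N, hN1, lor_comm (d2 ψ a) N, hN2, ← hy22, ← hy12, ← hWdef]
      ring
    rw [hR, lor_sub_left, lor_add_left, lor_smul_left, lor_comm (ψ a) N, hN0, p1N, q2N]
    have : (cG ψ a * lor y11 N - cF ψ a * lor y12 N) / W +
        (cE ψ a * lor y22 N - cF ψ a * lor y12 N) / W =
        (cG ψ a * lor y11 N - 2 * cF ψ a * lor y12 N + cE ψ a * lor y22 N) / W := by ring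
    rw [this, hnum]; ring
  -- conclusion
  have hR0 : R = 0 := by
    by_contra hne
    have hpos := lor_self_pos (h.mem a ha) iR hne
    set N := (√(lor R R))⁻¹ • R with hN
    have hs : 0 < √(lor R R) := Real.sqrt_pos.2 hpos
    have hNN : lor N N = 1 := by
      rw [hN, lor_smul_left, lor_smul_right]
      have : √(lor R R) * √(lor R R) = lor R R := Real.mul_self_sqrt hpos.le
      field_simp
      rw [sq, this]
    have := iRN N (by rw [hN, lor_smul_left, iR, mul_zero]) (by rw [hN, lor_smul_left, iR1, mul_zero])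
      (by rw [hN, lor_smul_left, iR2, mul_zero]) hNN
    rw [hN, lor_smul_right] at this
    rcases mul_eq_zero.1 this with h0 | h0
    · exact (inv_ne_zero hs.ne') h0
    · exact hpos.ne' h0
  exact sub_eq_zero.1 hR0

end IsPatch

end Pool.Agent.MP_41c3fc_gt
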