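import Mathlib
import Pool.Agent.MP_41c3fc_gt.Lorentz

set_option autoImplicit false

open MeasureTheory Set Filter Topology
open scoped ENNReal NNReal

namespace Pool.Agent.MP_41c3fc_gt

/-- The length of a tangent vector. -/
noncomputable def rn (y : V) : ℝ := √(lor y y)

theorem rn_nonneg (y : V) : 0 ≤ rn y := Real.sqrt_nonneg _

theorem rn_smul (s : ℝ) (y : V) : rn (s • y) = |s| * rn y := by
  unfold rn
  rw [lor_smul_left, lor_smul_right, ← mul_assoc, ← sq, Real.sqrt_mul (sq_nonneg s),
    Real.sqrt_sq_eq_abs]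

theorem continuous_rn : Continuous rn := by
  unfold rn lor; fun_prop

/-- The speed of an arc. -/
noncomputable def speed (c : ℝ → V) (t : ℝ) : ℝ := rn (deriv c t)

theorem speed_nonneg (c : ℝ → V) (t : ℝ) : 0 ≤ speed c t := rn_nonneg _

theorem continuous_speed {c : ℝ → V} (hc : ContDiff ℝ 1 c) : Continuous (speed c) :=
  continuous_rn.comp (hc.continuous_deriv le_rfl)

/-- `c` restricts to an arc in `S` from `p` to `q`. -/
def IsArc (S : Set V) (c : ℝ → V) (p q : V) : Prop :=
  ContDiff ℝ 1 c ∧ (∀ t ∈ Icc (0 : ℝ) 1, c t ∈ S) ∧ c 0 = p ∧ c 1 = q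

theorem arcLength_eq (c : ℝ → V) : arcLength c = ∫ t in (0 : ℝ)..1, speed c t := rfl

theorem arcLength_nonneg (c : ℝ → V) : 0 ≤ arcLength c :=
  intervalIntegral.integral_nonneg zero_le_one fun t _ => speed_nonneg c t

theorem dist_le_of_arc {S : Set V} {c : ℝ → V} {p q : V} (hc : IsArc S c p q) :
    intrinsicDist S p q ≤ ENNReal.ofReal (arcLength c) :=
  iInf₂_le c hc

theorem dist_lt_iff {S : Set V} {p q : V} {r : ℝ≥0∞} :
    intrinsicDist S p q < r ↔ ∃ c, IsArc S c p q ∧ ENNReal.ofReal (arcLength c) < r := by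
  unfold intrinsicDist
  simp only [iInf_lt_iff, exists_prop]
  rfl

theorem speed_comp {c : ℝ → V} (hc : ContDiff ℝ 1 c) {φ : ℝ → ℝ} (hφ : ContDiff ℝ 1 φ) (t : ℝ) :
    speed (c ∘ φ) t = |deriv φ t| * speed c (φ t) := by
  have h1 : HasDerivAt c (deriv c (φ t)) (φ t) :=
    (hc.differentiable (by norm_num)).differentiableAt.hasDerivAt
  have h2 : HasDerivAt φ (deriv φ t) t :=
    (hφ.differentiable (by norm_num)).differentiableAt.hasDerivAt
  unfold speed
  rw [(h1.scomp t h2).deriv, rn_smul]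

theorem length_reparam {c : ℝ → V} (hc : ContDiff ℝ 1 c) {φ : ℝ → ℝ} (hφ : ContDiff ℝ 1 φ)
    (hmono : ∀ t, 0 ≤ deriv φ t) (a b : ℝ) :
    ∫ t in a..b, speed (c ∘ φ) t = ∫ t in φ a..φ b, speed c t := by
  rw [← intervalIntegral.integral_comp_mul_deriv (f := φ) (f' := deriv φ) (g := speed c)
    (fun x _ => (hφ.differentiable (by norm_num)).differentiableAt.hasDerivAt)
    (hφ.continuous_deriv le_rfl).continuousOn (continuous_speed hc)]
  apply intervalIntegral.integral_congr
  intro t _
  change speed (c ∘ φ) t = speed c (φ t) * deriv φ t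
  rw [speed_comp hc hφ, abs_of_nonneg (hmono t), mul_comm]

theorem dist_self {S : Set V} {p : V} (hp : p ∈ S) : intrinsicDist S p p = 0 := by
  have h : IsArc S (fun _ => p) p p := ⟨contDiff_const, fun _ _ => hp, rfl, rfl⟩
  have h1 := dist_le_of_arc h
  have h2 : arcLength (fun _ => p) = 0 := by
    unfold arcLength
    simp
  rw [h2, ENNReal.ofReal_zero] at h1
  exact le_antisymm h1 zero_le

theorem dist_comm_le {S : Set V} (p q : V) : intrinsicDist S p q ≤ intrinsicDist S q p := by
  refine le_iInf₂ fun c hc => ?_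
  have h : IsArc S (c ∘ fun t => 1 - t) p q := by
    refine ⟨hc.1.comp (by fun_prop), ?_, ?_, ?_⟩
    · intro t ht
      exact hc.2.1 _ ⟨by linarith [ht.2], by linarith [ht.1]⟩
    · simp [hc.2.2.2]
    · simp [hc.2.2.1]
  refine (dist_le_of_arc h).trans (le_of_eq ?_)
  congr 1
  rw [arcLength_eq, arcLength_eq]
  have h1 : ∀ t, speed (c ∘ fun t => 1 - t) t = speed c (1 - t) := by
    intro t
    rw [speed_comp hc.1 (by fun_prop)]
    have : deriv (fun t : ℝ => 1 - t) t = -1 := by
      simp [deriv_const_sub]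
    rw [this]; simp
  simp only [h1]
  rw [intervalIntegral.integral_comp_sub_left (fun t => speed c t) 1]
  simp

theorem dist_comm' {S : Set V} (p q : V) : intrinsicDist S p q = intrinsicDist S q p :=
  le_antisymm (dist_comm_le p q) (dist_comm_le q p)

theorem deriv_smoothTransition_of_nonpos {s : ℝ} (hs : s ≤ 0) :
    deriv Real.smoothTransition s = 0 := by
  apply IsLocalMin.deriv_eq_zero
  refine Eventually.of_forall fun x => ?_
  rw [Real.smoothTransition.zero_of_nonpos hs]
  exact Real.smoothTransition.nonneg x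

theorem deriv_smoothTransition_of_one_le {s : ℝ} (hs : 1 ≤ s) :
    deriv Real.smoothTransition s = 0 := by
  apply IsLocalMax.deriv_eq_zero
  refine Eventually.of_forall fun x => ?_
  rw [Real.smoothTransition.one_of_one_le hs]
  exact Real.smoothTransition.le_one x

theorem deriv_smoothTransition_nonneg (s : ℝ) : 0 ≤ deriv Real.smoothTransition s :=
  Real.smoothTransition.monotone.deriv_nonneg

theorem contDiff_st : ContDiff ℝ 1 Real.smoothTransition := Real.smoothTransition.contDiff

/-- The two reparametrisations used for concatenation. -/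
noncomputable def phi1 (t : ℝ) : ℝ := Real.smoothTransition (2 * t)
@[inherit_doc phi1] noncomputable def phi2 (t : ℝ) : ℝ := Real.smoothTransition (2 * t - 1)

theorem contDiff_phi1 : ContDiff ℝ 1 phi1 := contDiff_st.comp (by fun_prop)
theorem contDiff_phi2 : ContDiff ℝ 1 phi2 := contDiff_st.comp (by fun_prop)

theorem hasDerivAt_phi1 (t : ℝ) : HasDerivAt phi1 (deriv Real.smoothTransition (2 * t) * 2) t := by
  have h1 : HasDerivAt Real.smoothTransition (deriv Real.smoothTransition (2 * t)) (2 * t) :=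
    (contDiff_st.differentiable (by norm_num)).differentiableAt.hasDerivAt
  have h2 : HasDerivAt (fun t : ℝ => 2 * t) 2 t := by
    simpa using (hasDerivAt_id t).const_mul (2 : ℝ)
  exact h1.comp t h2

theorem hasDerivAt_phi2 (t : ℝ) :
    HasDerivAt phi2 (deriv Real.smoothTransition (2 * t - 1) * 2) t := by
  have h1 : HasDerivAt Real.smoothTransition (deriv Real.smoothTransition (2 * t - 1))
      (2 * t - 1) :=
    (contDiff_st.differentiable (by norm_num)).differentiableAt.hasDerivAt
  have h2 : HasDerivAt (fun t : ℝ => 2 * t - 1) 2 t := by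
    simpa using ((hasDerivAt_id t).const_mul (2 : ℝ)).sub_const 1
  exact h1.comp t h2

theorem deriv_phi1_nonneg (t : ℝ) : 0 ≤ deriv phi1 t := by
  rw [(hasDerivAt_phi1 t).deriv]
  exact mul_nonneg (deriv_smoothTransition_nonneg _) (by norm_num)

theorem deriv_phi2_nonneg (t : ℝ) : 0 ≤ deriv phi2 t := by
  rw [(hasDerivAt_phi2 t).deriv]
  exact mul_nonneg (deriv_smoothTransition_nonneg _) (by norm_num)

theorem exists_concat {S : Set V} {p q r : V} {c c' : ℝ → V} (hc : IsArc S c p q)
    (hc' : IsArc S c' q r) :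
    ∃ d, IsArc S d p r ∧ arcLength d = arcLength c + arcLength c' := by
  obtain ⟨c1, c2, c3, c4⟩ := hc
  obtain ⟨d1, d2, d3, d4⟩ := hc'
  have hst := Real.smoothTransition.nonneg
  have hst' := Real.smoothTransition.le_one
  refine ⟨fun t => (c ∘ phi1) t + (c' ∘ phi2) t - q, ⟨?_, ?_, ?_, ?_⟩, ?_⟩
  · exact ((c1.comp contDiff_phi1).add (d1.comp contDiff_phi2)).sub contDiff_const
  · intro t ht
    rcases le_total t (1 / 2) with h | h
    · have : phi2 t = 0 := Real.smoothTransition.zero_of_nonpos (by linarith)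
      simp only [Function.comp_apply, this, d3, add_sub_cancel_right]
      exact c2 _ ⟨hst _, hst' _⟩
    · have : phi1 t = 1 := Real.smoothTransition.one_of_one_le (by linarith)
      simp only [Function.comp_apply, this, c4, add_sub_cancel_left]
      exact d2 _ ⟨hst _, hst' _⟩
  · have h1 : phi1 0 = 0 := Real.smoothTransition.zero_of_nonpos (by norm_num)
    have h2 : phi2 0 = 0 := Real.smoothTransition.zero_of_nonpos (by norm_num)
    simp only [Function.comp_apply, h1, h2, c3, d3, add_sub_cancel_right]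
  · have h1 : phi1 1 = 1 := Real.smoothTransition.one_of_one_le (by norm_num)
    have h2 : phi2 1 = 1 := Real.smoothTransition.one_of_one_le (by norm_num)
    simp only [Function.comp_apply, h1, h2, c4, d4, add_sub_cancel_left]
  · set d := fun t => (c ∘ phi1) t + (c' ∘ phi2) t - q with hd
    have hdd : ContDiff ℝ 1 d :=
      ((c1.comp contDiff_phi1).add (d1.comp contDiff_phi2)).sub contDiff_const
    have hder : ∀ t, deriv d t = deriv (c ∘ phi1) t + deriv (c' ∘ phi2) t := by
      intro t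
      have h1 : DifferentiableAt ℝ (c ∘ phi1) t :=
        ((c1.comp contDiff_phi1).differentiable (by norm_num)).differentiableAt
      have h2 : DifferentiableAt ℝ (c' ∘ phi2) t :=
        ((d1.comp contDiff_phi2).differentiable (by norm_num)).differentiableAt
      exact ((h1.hasDerivAt.add h2.hasDerivAt).sub_const q).deriv
    have z1 : ∀ t, 1 / 2 ≤ t → deriv (c ∘ phi1) t = 0 := by
      intro t ht
      have h1 : HasDerivAt c (deriv c (phi1 t)) (phi1 t) :=
        (c1.differentiable (by norm_num)).differentiableAt.hasDerivAt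
      rw [(h1.scomp t (hasDerivAt_phi1 t)).deriv,
        deriv_smoothTransition_of_one_le (by linarith)]
      simp
    have z2 : ∀ t, t ≤ 1 / 2 → deriv (c' ∘ phi2) t = 0 := by
      intro t ht
      have h1 : HasDerivAt c' (deriv c' (phi2 t)) (phi2 t) :=
        (d1.differentiable (by norm_num)).differentiableAt.hasDerivAt
      rw [(h1.scomp t (hasDerivAt_phi2 t)).deriv,
        deriv_smoothTransition_of_nonpos (by linarith)]
      simp
    rw [arcLength_eq, ← intervalIntegral.integral_add_adjacent_intervals (b := 1 / 2)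
      ((continuous_speed hdd).intervalIntegrable _ _) ((continuous_speed hdd).intervalIntegrable _ _)]
    have e1 : ∫ t in (0 : ℝ)..1 / 2, speed d t = arcLength c := by
      have : ∫ t in (0 : ℝ)..1 / 2, speed d t = ∫ t in (0 : ℝ)..1 / 2, speed (c ∘ phi1) t := by
        apply intervalIntegral.integral_congr
        intro t ht
        rw [uIcc_of_le (by norm_num)] at ht
        change rn (deriv d t) = rn (deriv (c ∘ phi1) t)
        rw [hder, z2 t ht.2, add_zero]
      rw [this, length_reparam c1 contDiff_phi1 deriv_phi1_nonneg]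
      have h1 : phi1 0 = 0 := Real.smoothTransition.zero_of_nonpos (by norm_num)
      have h2 : phi1 (1 / 2) = 1 := Real.smoothTransition.one_of_one_le (by norm_num)
      rw [h1, h2, arcLength_eq]
    have e2 : ∫ t in (1 / 2 : ℝ)..1, speed d t = arcLength c' := by
      have : ∫ t in (1 / 2 : ℝ)..1, speed d t = ∫ t in (1 / 2 : ℝ)..1, speed (c' ∘ phi2) t := by
        apply intervalIntegral.integral_congr
        intro t ht
        rw [uIcc_of_le (by norm_num)] at ht
        change rn (deriv d t) = rn (deriv (c' ∘ phi2) t)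
        rw [hder, z1 t ht.1, zero_add]
      rw [this, length_reparam d1 contDiff_phi2 deriv_phi2_nonneg]
      have h1 : phi2 (1 / 2) = 0 := Real.smoothTransition.zero_of_nonpos (by norm_num)
      have h2 : phi2 1 = 1 := Real.smoothTransition.one_of_one_le (by norm_num)
      rw [h1, h2, arcLength_eq]
    rw [e1, e2]

theorem dist_triangle' {S : Set V} (p q r : V) :
    intrinsicDist S p r ≤ intrinsicDist S p q + intrinsicDist S q r := by
  have h1 : intrinsicDist S p q = ⨅ (c : ℝ → V) (_ : IsArc S c p q),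
    ENNReal.ofReal (arcLength c) := rfl
  have h2 : intrinsicDist S q r = ⨅ (c : ℝ → V) (_ : IsArc S c q r),
    ENNReal.ofReal (arcLength c) := rfl
  rw [h1, h2]
  simp only [ENNReal.iInf_add, ENNReal.add_iInf]
  refine le_iInf fun c' => le_iInf fun hc' => le_iInf fun c => le_iInf fun hc => ?_
  obtain ⟨d, hd, hl⟩ := exists_concat hc hc'
  rw [← ENNReal.ofReal_add (arcLength_nonneg _) (arcLength_nonneg _), ← hl]
  exact dist_le_of_arc hd

/-- Splitting of arcs. -/
theorem exists_mid {S : Set V} {p q : V} {r s : ℝ} (hr : 0 ≤ r) (hs : 0 < s)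
    (h : intrinsicDist S p q < ENNReal.ofReal (r + s)) :
    ∃ z ∈ S, intrinsicDist S p z ≤ ENNReal.ofReal r ∧ intrinsicDist S z q < ENNReal.ofReal s := by
  obtain ⟨c, hc, hl⟩ := dist_lt_iff.1 h
  rw [ENNReal.ofReal_lt_ofReal_iff (by linarith)] at hl
  have hcont := continuous_speed hc.1
  by_cases hL : arcLength c ≤ r
  · refine ⟨q, ?_, ?_, ?_⟩
    · rw [← hc.2.2.2]; exact hc.2.1 1 ⟨zero_le_one, le_rfl⟩
    · exact (dist_le_of_arc hc).trans (ENNReal.ofReal_le_ofReal hL)
    · rw [dist_self]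
      · simpa using hs
      · rw [← hc.2.2.2]; exact hc.2.1 1 ⟨zero_le_one, le_rfl⟩
  · push Not at hL
    have hcL : Continuous fun t => ∫ u in (0 : ℝ)..t, speed c u :=
      intervalIntegral.continuous_primitive (fun a b => hcont.intervalIntegrable a b) 0
    have hiv := intermediate_value_Icc (zero_le_one' ℝ) hcL.continuousOn
    obtain ⟨t, ht, htr⟩ := hiv (show r ∈ Icc (∫ u in (0 : ℝ)..0, speed c u)
      (∫ u in (0 : ℝ)..1, speed c u) from ⟨by simpa using hr, hL.le⟩)
    refine ⟨c t, hc.2.1 t ht, ?_, ?_⟩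
    · have hφ : ContDiff ℝ 1 (fun τ : ℝ => t * τ) := by fun_prop
      have hφd : ∀ τ : ℝ, deriv (fun τ : ℝ => t * τ) τ = t := by
        intro τ; simpa using ((hasDerivAt_id τ).const_mul t).deriv
      have ha : IsArc S (c ∘ fun τ => t * τ) p (c t) := by
        refine ⟨hc.1.comp hφ, ?_, ?_, ?_⟩
        · intro τ hτ
          exact hc.2.1 _ ⟨mul_nonneg ht.1 hτ.1, by nlinarith [ht.1, ht.2, hτ.1, hτ.2]⟩
        · simp [hc.2.2.1]
        · simp
      refine (dist_le_of_arc ha).trans (le_of_eq ?_)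
      congr 1
      rw [arcLength_eq, length_reparam hc.1 hφ (fun τ => by rw [hφd]; exact ht.1)]
      simpa using htr
    · have hφ : ContDiff ℝ 1 (fun τ : ℝ => t + (1 - t) * τ) := by fun_prop
      have hφd : ∀ τ : ℝ, deriv (fun τ : ℝ => t + (1 - t) * τ) τ = 1 - t := by
        intro τ; simpa using (((hasDerivAt_id τ).const_mul (1 - t)).const_add t).deriv
      have ha : IsArc S (c ∘ fun τ => t + (1 - t) * τ) (c t) q := by
        refine ⟨hc.1.comp hφ, ?_, ?_, ?_⟩
        · intro τ hτ
          exact hc.2.1 _ ⟨by nlinarith [ht.1, ht.2, hτ.1, hτ.2],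
            by nlinarith [ht.1, ht.2, hτ.1, hτ.2]⟩
        · simp
        · simp [hc.2.2.2]
      refine lt_of_le_of_lt (dist_le_of_arc ha) ?_
      rw [ENNReal.ofReal_lt_ofReal_iff hs, arcLength_eq,
        length_reparam hc.1 hφ (fun τ => by rw [hφd]; linarith [ht.2])]
      have h3 : t + (1 - t) * 0 = t := by ring
      have h4 : t + (1 - t) * 1 = 1 := by ring
      rw [h3, h4]
      have h5 : (∫ u in (0 : ℝ)..t, speed c u) + ∫ u in t..1, speed c u = ∫ u in (0 : ℝ)..1, speed c u :=
        intervalIntegral.integral_add_adjacent_intervals (hcont.intervalIntegrable _ _)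
          (hcont.intervalIntegrable _ _)
      have h6 : ∫ u in (0 : ℝ)..t, speed c u = r := htr
      rw [arcLength_eq] at hl
      linarith

/-- Comparison with the norm of Minkowski space. -/
theorem norm_le_of_tangent {x y : V} (hx : x ∈ H3) (h : lor y x = 0) : ‖y‖ ≤ x 0 * rn y := by
  have hx0 := hx.2
  have h1 := lor_self_ge hx h
  have hl := lor_self_nonneg hx h
  rw [div_le_iff₀ (by positivity)] at h1
  have h2 := H3_sq hx
  have h3 : y 0 * x 0 = y 1 * x 1 + y 2 * x 2 + y 3 * x 3 := by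
    unfold lor at h; linarith
  have cs : (y 0 * x 0) ^ 2 ≤ (y 1 ^ 2 + y 2 ^ 2 + y 3 ^ 2) * (x 1 ^ 2 + x 2 ^ 2 + x 3 ^ 2) := by
    rw [h3]
    nlinarith [sq_nonneg (y 1 * x 2 - y 2 * x 1), sq_nonneg (y 1 * x 3 - y 3 * x 1),
      sq_nonneg (y 2 * x 3 - y 3 * x 2)]
  have hq : 0 ≤ y 1 ^ 2 + y 2 ^ 2 + y 3 ^ 2 := by positivity
  have h0 : y 0 ^ 2 ≤ y 1 ^ 2 + y 2 ^ 2 + y 3 ^ 2 := by
    have : y 0 ^ 2 * x 0 ^ 2 ≤ (y 1 ^ 2 + y 2 ^ 2 + y 3 ^ 2) * x 0 ^ 2 := by
      nlinarith
    exact le_of_mul_le_mul_right this (by positivity)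
  have hB : (x 0 * rn y) ^ 2 = lor y y * x 0 ^ 2 := by
    unfold rn
    rw [mul_pow, Real.sq_sqrt hl]; ring
  have hnn : 0 ≤ x 0 * rn y := mul_nonneg hx0.le (rn_nonneg _)
  rw [pi_norm_le_iff_of_nonneg hnn]
  intro i
  rw [Real.norm_eq_abs]
  apply abs_le_of_sq_le_sq _ hnn
  rw [hB]
  refine le_trans ?_ h1
  fin_cases i
  · exact h0
  · change y 1 ^ 2 ≤ _; nlinarith [sq_nonneg (y 2), sq_nonneg (y 3)]
  · change y 2 ^ 2 ≤ _; nlinarith [sq_nonneg (y 1), sq_nonneg (y 3)]
  · change y 3 ^ 2 ≤ _; nlinarith [sq_nonneg (y 1), sq_nonneg (y 2)]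

theorem arc_tangent {c : ℝ → V} (hc : ContDiff ℝ 1 c) (hS : ∀ t ∈ Icc (0 : ℝ) 1, c t ∈ H3) {t : ℝ}
    (ht : t ∈ Icc (0 : ℝ) 1) : lor (deriv c t) (c t) = 0 := by
  have hcl : IsClosed {t | lor (deriv c t) (c t) = 0} := by
    refine isClosed_eq ?_ continuous_const
    exact continuous_lor.comp ((hc.continuous_deriv le_rfl).prodMk hc.continuous)
  have hsub : Ioo (0 : ℝ) 1 ⊆ {t | lor (deriv c t) (c t) = 0} := by
    intro s hs
    have hd : HasDerivAt c (deriv c s) s :=
      (hc.differentiable (by norm_num)).differentiableAt.hasDerivAt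
    have h1 : HasDerivAt (fun s => lor (c s) (c s)) (2 * lor (deriv c s) (c s)) s := by
      have hi : ∀ i, HasDerivAt (fun s => c s i) (deriv c s i) s := hasDerivAt_pi.1 hd
      have := ((((hi 0).mul (hi 0)).neg.add ((hi 1).mul (hi 1))).add
        ((hi 2).mul (hi 2))).add ((hi 3).mul (hi 3))
      refine this.congr_deriv ?_
      simp only [lor]; ring
    have h2 : (fun s => lor (c s) (c s)) =ᶠ[𝓝 s] fun _ => -1 := by
      filter_upwards [Icc_mem_nhds hs.1 hs.2] with u hu
      exact (hS u hu).1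
    have h3 := h1.deriv
    rw [h2.deriv_eq] at h3
    simp at h3
    exact h3.symm ▸ rfl
  have := closure_minimal hsub hcl
  rw [closure_Ioo (by norm_num)] at this
  exact this ht

theorem arc_norm_le {c : ℝ → V} (hc : ContDiff ℝ 1 c) (hS : ∀ t ∈ Icc (0 : ℝ) 1, c t ∈ H3) :
    ‖c 1 - c 0‖ ≤ c 0 0 * Real.exp (arcLength c) * arcLength c := by
  have hsp := continuous_speed hc
  have hd : ∀ s, HasDerivAt c (deriv c s) s := fun s =>
      (hc.differentiable (by norm_num)).differentiableAt.hasDerivAt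
  have hcd := hc.continuous_deriv le_rfl
  have hbd : ∀ t ∈ Icc (0 : ℝ) 1, ‖deriv c t‖ ≤ c t 0 * speed c t := fun t ht =>
    norm_le_of_tangent (hS t ht) (arc_tangent hc hS ht)
  -- growth of the time coordinate
  have hgrow : ∀ t ∈ Icc (0 : ℝ) 1, c t 0 ≤ c 0 0 * Real.exp (arcLength c) := by
    intro t ht
    have h0pos : 0 < c 0 0 := (hS 0 ⟨le_rfl, zero_le_one⟩).2
    have htpos : 0 < c t 0 := (hS t ht).2
    have hder : ∀ s ∈ uIcc 0 t, HasDerivAt (fun s => Real.log (c s 0))
        (deriv c s 0 / c s 0) s := by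
      intro s hs
      rw [uIcc_of_le ht.1] at hs
      have hs' : s ∈ Icc (0 : ℝ) 1 := ⟨hs.1, hs.2.trans ht.2⟩
      exact ((hasDerivAt_pi.1 (hd s)) 0).log (hS s hs').2.ne'
    have hcc : ContinuousOn (fun s => deriv c s 0 / c s 0) (uIcc 0 t) := by
      apply ContinuousOn.div
      · exact ((continuous_apply 0).comp hcd).continuousOn
      · exact ((continuous_apply 0).comp hc.continuous).continuousOn
      · intro s hs
        rw [uIcc_of_le ht.1] at hs
        exact (hS s ⟨hs.1, hs.2.trans ht.2⟩).2.ne'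
    have hint := intervalIntegral.integral_eq_sub_of_hasDerivAt hder hcc.intervalIntegrable
    have hle : ∫ s in (0 : ℝ)..t, deriv c s 0 / c s 0 ≤ ∫ s in (0 : ℝ)..t, speed c s := by
      apply intervalIntegral.integral_mono_on ht.1 hcc.intervalIntegrable
        (hsp.intervalIntegrable _ _)
      intro s hs
      have hs' : s ∈ Icc (0 : ℝ) 1 := ⟨hs.1, hs.2.trans ht.2⟩
      rw [div_le_iff₀ (hS s hs').2]
      have h1 : deriv c s 0 ≤ ‖deriv c s‖ := (le_abs_self _).trans (norm_le_pi_norm (deriv c s) 0)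
      have h2 := hbd s hs'
      rw [mul_comm]
      linarith
    have hle2 : ∫ s in (0 : ℝ)..t, speed c s ≤ arcLength c := by
      rw [arcLength_eq, ← intervalIntegral.integral_add_adjacent_intervals
        (hsp.intervalIntegrable 0 t) (hsp.intervalIntegrable t 1)]
      have : 0 ≤ ∫ u in t..1, speed c u :=
        intervalIntegral.integral_nonneg ht.2 fun u _ => speed_nonneg c u
      linarith
    have hlog : Real.log (c t 0) ≤ Real.log (c 0 0) + arcLength c := by linarith
    calc c t 0 = Real.exp (Real.log (c t 0)) := (Real.exp_log htpos).symm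
      _ ≤ Real.exp (Real.log (c 0 0) + arcLength c) := Real.exp_le_exp.2 hlog
      _ = c 0 0 * Real.exp (arcLength c) := by rw [Real.exp_add, Real.exp_log h0pos]
  have hftc := intervalIntegral.integral_eq_sub_of_hasDerivAt (a := 0) (b := 1)
    (fun s _ => hd s) (hcd.intervalIntegrable _ _)
  rw [← hftc]
  have hb2 : ‖∫ y in (0 : ℝ)..1, deriv c y‖ ≤
      ∫ y in (0 : ℝ)..1, (c 0 0 * Real.exp (arcLength c)) * speed c y := by
    apply intervalIntegral.norm_integral_le_of_norm_le zero_le_one
    · refine Eventually.of_forall fun t ht => ?_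
      have ht' : t ∈ Icc (0 : ℝ) 1 := ⟨ht.1.le, ht.2⟩
      exact (hbd t ht').trans (mul_le_mul_of_nonneg_right (hgrow t ht') (speed_nonneg _ _))
    · exact (continuous_const.mul hsp).intervalIntegrable _ _
  rw [intervalIntegral.integral_const_mul] at hb2
  exact hb2

/-- If `q` is close to `p` for the intrinsic distance, it is close in Minkowski space. -/
theorem norm_lt_of_dist {S : Set V} (hS : S ⊆ H3) (p : V) {η : ℝ} (hη : 0 < η) :
    ∃ δ : ℝ, 0 < δ ∧ ∀ q, intrinsicDist S p q < ENNReal.ofReal δ → ‖q - p‖ < η := by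
  have hcont : Continuous fun δ : ℝ => (|p 0| + 1) * Real.exp δ * δ := by fun_prop
  have h0 : (fun δ : ℝ => (|p 0| + 1) * Real.exp δ * δ) 0 < η := by simpa using hη
  obtain ⟨δ, hδ, hball⟩ := Metric.eventually_nhds_iff.1 (hcont.continuousAt.eventually_lt
    continuousAt_const h0)
  refine ⟨δ / 2, by linarith, ?_⟩
  intro q hq
  obtain ⟨c, hc, hl⟩ := dist_lt_iff.1 hq
  rw [ENNReal.ofReal_lt_ofReal_iff (by linarith)] at hl
  have h1 := arc_norm_le hc.1 (fun t ht => hS (hc.2.1 t ht))
  rw [hc.2.2.1, hc.2.2.2] at h1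
  have hL := arcLength_nonneg c
  have h2 : (|p 0| + 1) * Real.exp (δ / 2) * (δ / 2) < η := by
    apply hball
    rw [Real.dist_eq]
    rw [sub_zero, abs_of_pos (by linarith)]
    linarith
  refine lt_of_le_of_lt (h1.trans ?_) h2
  have h3 : p 0 ≤ |p 0| + 1 := by linarith [le_abs_self (p 0)]
  have h4 : Real.exp (arcLength c) ≤ Real.exp (δ / 2) := Real.exp_le_exp.2 hl.le
  have h5 : 0 ≤ |p 0| + 1 := by positivity
  calc p 0 * Real.exp (arcLength c) * arcLength c
      ≤ (|p 0| + 1) * Real.exp (arcLength c) * arcLength c := by gcongr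
    _ ≤ (|p 0| + 1) * Real.exp (δ / 2) * (δ / 2) := by gcongr

end Pool.Agent.MP_41c3fc_gt
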