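import Mathlib
import Pool.Agent.MP_41c3fc_gt.Dist
import Pool.Agent.MP_41c3fc_gt.Chart

set_option autoImplicit false

open MeasureTheory Set Filter Topology
open scoped ENNReal NNReal

namespace Pool.Agent.MP_41c3fc_gt

/-- `S` is an embedded `C²` surface in `ℍ³`. -/
def IsSurf (S : Set V) : Prop := S ⊆ H3 ∧ ∀ p ∈ S, ∃ Ω ψ, IsLocalParam S Ω ψ ∧ p ∈ ψ '' Ω

theorem IsMinimalSurface.isSurf {S : Set V} (h : IsMinimalSurface S) : IsSurf S :=
  ⟨h.1, fun p hp => by obtain ⟨Ω, ψ, h1, h2, _⟩ := h.2 p hp; exact ⟨Ω, ψ, h1, h2⟩⟩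

theorem IsLocalParam.mem {S : Set V} {Ω : Set (ℝ × ℝ)} {ψ : ℝ × ℝ → V} (h : IsLocalParam S Ω ψ)
    {a : ℝ × ℝ} (ha : a ∈ Ω) : ψ a ∈ S := by
  obtain ⟨O, _, hO⟩ := h.openMap Ω subset_rfl h.isOpen
  have : ψ a ∈ ψ '' Ω := mem_image_of_mem ψ ha
  rw [hO] at this
  exact this.1

theorem IsLocalParam.isPatch {S : Set V} (hS : S ⊆ H3) {Ω : Set (ℝ × ℝ)} {ψ : ℝ × ℝ → V}
    (h : IsLocalParam S Ω ψ) : IsPatch Ω ψ :=
  ⟨h.isOpen, h.contDiffOn, h.immersion, fun _ ha => hS (h.mem ha)⟩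

/-- The map from a chart to the surface is open. -/
theorem IsLocalParam.exists_open {S : Set V} {Ω : Set (ℝ × ℝ)} {ψ : ℝ × ℝ → V}
    (h : IsLocalParam S Ω ψ) {U : Set (ℝ × ℝ)} (hU : U ⊆ Ω) (hUo : IsOpen U) {a : ℝ × ℝ}
    (ha : a ∈ U) : ∃ η > 0, ∀ y ∈ S, ‖y - ψ a‖ < η → ∃ b ∈ U, ψ b = y := by
  obtain ⟨O, hO, hOe⟩ := h.openMap U hU hUo
  have hm : ψ a ∈ ψ '' U := mem_image_of_mem ψ ha
  rw [hOe] at hm
  obtain ⟨η, hη, hball⟩ := Metric.isOpen_iff.1 hO _ hm.2
  refine ⟨η, hη, fun y hy hyη => ?_⟩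
  have : y ∈ S ∩ O := ⟨hy, hball (by rw [Metric.mem_ball, dist_eq_norm]; exact hyη)⟩
  rw [← hOe] at this
  exact this

/-- Upper bound of the intrinsic distance in a chart. -/
theorem dist_chart_le {S : Set V} {Ω : Set (ℝ × ℝ)} {ψ : ℝ × ℝ → V} (hΩ : IsOpen Ω)
    (hψ : ContDiffOn ℝ 1 ψ Ω) (hS : ∀ a ∈ Ω, ψ a ∈ S) {U : Set (ℝ × ℝ)} (hU : Convex ℝ U)
    (hUΩ : U ⊆ Ω) {a b : ℝ × ℝ} (ha : a ∈ U) (hb : b ∈ U) {M : ℝ}
    (hM : ∀ x ∈ U, rn (fderiv ℝ ψ x (b - a)) ≤ M) :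
    intrinsicDist S (ψ a) (ψ b) ≤ ENNReal.ofReal M := by
  set γ : ℝ → ℝ × ℝ := fun t => a + Real.smoothTransition t • (b - a) with hγ
  have hγU : ∀ t, γ t ∈ U := by
    intro t
    have h1 := Real.smoothTransition.nonneg t
    have h2 := Real.smoothTransition.le_one t
    have : γ t = (1 - Real.smoothTransition t) • a + Real.smoothTransition t • b := by
      rw [hγ]; simp only; rw [smul_sub, sub_smul, one_smul]; abel
    rw [this]
    exact hU ha hb (by linarith) h1 (by ring)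
  have hγc : ContDiff ℝ 1 γ := contDiff_const.add (contDiff_st.smul contDiff_const)
  have hγd : ∀ t, HasDerivAt γ (deriv Real.smoothTransition t • (b - a)) t := by
    intro t
    have h1 : HasDerivAt Real.smoothTransition (deriv Real.smoothTransition t) t :=
      (contDiff_st.differentiable (by norm_num)).differentiableAt.hasDerivAt
    exact (h1.smul_const (b - a)).const_add a
  have hcc : ContDiff ℝ 1 (ψ ∘ γ) := by
    rw [contDiff_iff_contDiffAt]
    intro t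
    exact (hψ.contDiffAt (hΩ.mem_nhds (hUΩ (hγU t)))).comp t hγc.contDiffAt
  have harc : IsArc S (ψ ∘ γ) (ψ a) (ψ b) := by
    refine ⟨hcc, fun t _ => hS _ (hUΩ (hγU t)), ?_, ?_⟩
    · simp [hγ, Real.smoothTransition.zero]
    · simp [hγ, Real.smoothTransition.one]
  refine (dist_le_of_arc harc).trans (ENNReal.ofReal_le_ofReal ?_)
  rw [arcLength_eq]
  have hsp : ∀ t, speed (ψ ∘ γ) t ≤ deriv Real.smoothTransition t * M := by
    intro t
    have hd : HasFDerivAt ψ (fderiv ℝ ψ (γ t)) (γ t) :=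
      ((hψ.differentiableOn (by norm_num)).differentiableAt
        (hΩ.mem_nhds (hUΩ (hγU t)))).hasFDerivAt
    have h1 := hd.comp_hasDerivAt t (hγd t)
    unfold speed
    rw [h1.deriv, map_smul, rn_smul, abs_of_nonneg (deriv_smoothTransition_nonneg t)]
    exact mul_le_mul_of_nonneg_left (hM _ (hγU t)) (deriv_smoothTransition_nonneg t)
  have hcs : Continuous (deriv Real.smoothTransition) := contDiff_st.continuous_deriv le_rfl
  calc ∫ t in (0 : ℝ)..1, speed (ψ ∘ γ) t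
      ≤ ∫ t in (0 : ℝ)..1, deriv Real.smoothTransition t * M := by
        apply intervalIntegral.integral_mono_on zero_le_one
          ((continuous_speed hcc).intervalIntegrable _ _)
          ((hcs.mul continuous_const).intervalIntegrable _ _)
        intro t _
        exact hsp t
    _ = M := by
        rw [intervalIntegral.integral_mul_const, intervalIntegral.integral_deriv_eq_sub'
          Real.smoothTransition rfl
          (fun x _ => (contDiff_st.differentiable (by norm_num)).differentiableAt)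
          hcs.continuousOn, Real.smoothTransition.one, Real.smoothTransition.zero]
        ring

theorem rn_le_norm (y : V) : rn y ≤ 2 * ‖y‖ := by
  unfold rn
  rw [show 2 * ‖y‖ = √((2 * ‖y‖) ^ 2) from (Real.sqrt_sq (by positivity)).symm]
  apply Real.sqrt_le_sqrt
  have h : ∀ i, y i ^ 2 ≤ ‖y‖ ^ 2 := by
    intro i
    apply sq_le_sq.2
    rw [abs_of_nonneg (norm_nonneg y)]
    exact norm_le_pi_norm y i
  have h1 := h 1
  have h2 := h 2
  have h3 := h 3
  unfold lor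
  nlinarith [sq_nonneg (y 0)]

theorem exists_lipschitz_chart {S : Set V} {Ω : Set (ℝ × ℝ)} {ψ : ℝ × ℝ → V} (hΩ : IsOpen Ω)
    (hψ : ContDiffOn ℝ 1 ψ Ω) (hS : ∀ a ∈ Ω, ψ a ∈ S) {a₀ : ℝ × ℝ} {ρ : ℝ}
    (hρ : Metric.closedBall a₀ ρ ⊆ Ω) :
    ∃ C : ℝ, 0 ≤ C ∧ ∀ a ∈ Metric.closedBall a₀ ρ, ∀ b ∈ Metric.closedBall a₀ ρ,
      intrinsicDist S (ψ a) (ψ b) ≤ ENNReal.ofReal (C * ‖b - a‖) := by
  have hcf : ContinuousOn (fun a => ‖fderiv ℝ ψ a‖) (Metric.closedBall a₀ ρ) :=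
    ((hψ.continuousOn_fderiv_of_isOpen hΩ le_rfl).mono hρ).norm
  obtain ⟨B, hB⟩ := (isCompact_closedBall a₀ ρ).bddAbove_image hcf
  refine ⟨2 * |B|, by positivity, fun a ha b hb => ?_⟩
  apply dist_chart_le hΩ hψ hS (convex_closedBall a₀ ρ) hρ ha hb
  intro x hx
  have h1 : ‖fderiv ℝ ψ x‖ ≤ B := hB (mem_image_of_mem _ hx)
  calc rn (fderiv ℝ ψ x (b - a)) ≤ 2 * ‖fderiv ℝ ψ x (b - a)‖ := rn_le_norm _
    _ ≤ 2 * (‖fderiv ℝ ψ x‖ * ‖b - a‖) := by
      gcongr; exact ContinuousLinearMap.le_opNorm _ _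
    _ ≤ 2 * (|B| * ‖b - a‖) := by
      gcongr; exact h1.trans (le_abs_self B)
    _ = 2 * |B| * ‖b - a‖ := by ring

/-- Points of `S` near `p` in Minkowski space are near for the intrinsic distance. -/
theorem dist_lt_of_near {S : Set V} (hS : IsSurf S) {p : V} (hp : p ∈ S) {ε : ℝ≥0∞} (hε : 0 < ε) :
    ∃ η > 0, ∀ y ∈ S, ‖y - p‖ < η → intrinsicDist S p y < ε := by
  obtain ⟨Ω, ψ, hψ, a, ha, rfl⟩ := hS.2 p hp
  obtain ⟨ρ, hρ, hball⟩ := Metric.nhds_basis_closedBall.mem_iff.1 (hψ.isOpen.mem_nhds ha)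
  obtain ⟨C, hC, hlip⟩ := exists_lipschitz_chart hψ.isOpen (hψ.contDiffOn.of_le (by norm_num))
    (fun a ha => hψ.mem ha) hball
  -- choose a real number below ε
  obtain ⟨e, he0, heε⟩ : ∃ e : ℝ, 0 < e ∧ ENNReal.ofReal e < ε := by
    obtain ⟨q, hq0, hq⟩ := ENNReal.lt_iff_exists_nnreal_btwn.1 hε
    refine ⟨q, by exact_mod_cast hq0, ?_⟩
    rwa [ENNReal.ofReal_coe_nnreal]
  set r := min ρ (e / (C + 1)) with hr
  have hrpos : 0 < r := lt_min hρ (by positivity)
  obtain ⟨η, hη, hη2⟩ := hψ.exists_open (U := Metric.ball a r)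
    ((Metric.ball_subset_closedBall.trans (Metric.closedBall_subset_closedBall
      (min_le_left _ _))).trans hball) Metric.isOpen_ball (Metric.mem_ball_self hrpos)
  refine ⟨η, hη, fun y hy hyη => ?_⟩
  obtain ⟨b, hb, rfl⟩ := hη2 y hy hyη
  refine lt_of_le_of_lt (hlip a (Metric.mem_closedBall_self hρ.le) b
    ((Metric.ball_subset_closedBall.trans (Metric.closedBall_subset_closedBall
      (min_le_left _ _))) hb)) (lt_of_le_of_lt (ENNReal.ofReal_le_ofReal ?_) heε)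
  have hb' : ‖b - a‖ < r := by rw [← dist_eq_norm]; exact hb
  have : r ≤ e / (C + 1) := min_le_right _ _
  calc C * ‖b - a‖ ≤ C * (e / (C + 1)) := by gcongr; linarith
    _ ≤ e := by
      rw [mul_div_assoc', div_le_iff₀ (by linarith)]
      nlinarith

/-- The surface with its intrinsic distance. -/
@[ext] structure SPt (S : Set V) where
  /-- the underlying point -/
  val : V
  mem : val ∈ S

noncomputable instance (S : Set V) : PseudoEMetricSpace (SPt S) where
  edist x y := intrinsicDist S x.1 y.1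
  edist_self x := dist_self x.2
  edist_comm x y := dist_comm' _ _
  edist_triangle x y z := dist_triangle' _ _ _

theorem SPt.edist_def {S : Set V} (x y : SPt S) : edist x y = intrinsicDist S x.1 y.1 := rfl

theorem SPt.continuous_val {S : Set V} (hS : S ⊆ H3) : Continuous (fun x : SPt S => x.1) := by
  rw [continuous_iff_continuousAt]
  intro x
  rw [ContinuousAt, Metric.tendsto_nhds]
  intro η hη
  obtain ⟨δ, hδ, h⟩ := norm_lt_of_dist hS x.1 hη
  filter_upwards [Metric.eball_mem_nhds x (ENNReal.ofReal_pos.2 hδ)] with y hy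
  rw [dist_eq_norm]
  apply h
  rw [Metric.mem_eball, edist_comm] at hy
  exact hy

theorem SPt.exists_compact_nhds {S : Set V} (hS : IsSurf S) (x : SPt S) :
    ∃ K : Set (SPt S), IsCompact K ∧ K ∈ 𝓝 x := by
  obtain ⟨Ω, ψ, hψ, a, ha, hax⟩ := hS.2 x.1 x.2
  obtain ⟨ρ, hρ, hball⟩ := Metric.nhds_basis_closedBall.mem_iff.1 (hψ.isOpen.mem_nhds ha)
  obtain ⟨C, hC, hlip⟩ := exists_lipschitz_chart hψ.isOpen (hψ.contDiffOn.of_le (by norm_num))
    (fun a ha => hψ.mem ha) hball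
  set f : Metric.closedBall a ρ → SPt S := fun b => ⟨ψ b.1, hψ.mem (hball b.2)⟩ with hf
  have hfc : Continuous f := by
    apply LipschitzWith.continuous (K := C.toNNReal)
    intro b b'
    rw [SPt.edist_def]
    refine (hlip b.1 b.2 b'.1 b'.2).trans ?_
    rw [ENNReal.ofReal_mul hC, ← dist_eq_norm, _root_.dist_comm, ← edist_dist]
    exact le_refl _
  have : CompactSpace (Metric.closedBall a ρ) :=
    isCompact_iff_compactSpace.1 (isCompact_closedBall a ρ)
  refine ⟨range f, isCompact_range hfc, ?_⟩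
  obtain ⟨η, hη, hη2⟩ := hψ.exists_open (U := Metric.ball a ρ)
    (Metric.ball_subset_closedBall.trans hball) Metric.isOpen_ball (Metric.mem_ball_self hρ)
  obtain ⟨δ, hδ, hδ2⟩ := norm_lt_of_dist hS.1 x.1 hη
  filter_upwards [Metric.eball_mem_nhds x (ENNReal.ofReal_pos.2 hδ)] with y hy
  rw [Metric.mem_eball, edist_comm] at hy
  have h1 := hδ2 y.1 hy
  rw [← hax] at h1
  obtain ⟨b, hb, hby⟩ := hη2 y.1 y.2 h1
  exact ⟨⟨b, Metric.ball_subset_closedBall hb⟩, SPt.ext hby⟩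

theorem SPt.weaklyLocallyCompact {S : Set V} (hS : IsSurf S) : WeaklyLocallyCompactSpace (SPt S) :=
  ⟨SPt.exists_compact_nhds hS⟩

theorem SPt.complete {S : Set V} (hS : IsSurf S) (hc : IsCompleteSurface S) :
    CompleteSpace (SPt S) := by
  apply EMetric.complete_of_cauchySeq_tendsto
  intro u hu
  rw [EMetric.cauchySeq_iff] at hu
  obtain ⟨p, hp, hlim⟩ := hc (fun k => (u k).1) (fun k => (u k).2) (fun ε hε => by
    obtain ⟨N, hN⟩ := hu ε hε
    exact ⟨N, fun m n hm hn => hN m hm n hn⟩)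
  refine ⟨⟨p, hp⟩, ?_⟩
  rw [EMetric.tendsto_nhds]
  intro ε hε
  obtain ⟨η, hη, h⟩ := dist_lt_of_near hS hp hε
  have h2 := (Metric.tendsto_nhds.1 hlim) η hη
  filter_upwards [h2] with k hk
  rw [edist_comm]
  exact h _ (u k).2 (by rw [← dist_eq_norm]; exact hk)

/-- Hopf-Rinow. -/
theorem SPt.isCompact_closedBall {S : Set V} (hS : IsSurf S) (hc : IsCompleteSurface S)
    (p : SPt S) (R : ℝ) : IsCompact {x : SPt S | edist p x ≤ ENNReal.ofReal R} := by
  have := SPt.weaklyLocallyCompact hS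
  have := SPt.complete hS hc
  have hclosed : ∀ r : ℝ, IsClosed {x : SPt S | edist p x ≤ ENNReal.ofReal r} := fun r =>
    isClosed_le (continuous_const.edist continuous_id) continuous_const
  have hmono : ∀ {r s : ℝ}, r ≤ s → IsCompact {x : SPt S | edist p x ≤ ENNReal.ofReal s} →
      IsCompact {x : SPt S | edist p x ≤ ENNReal.ofReal r} := by
    intro r s hrs hs
    exact hs.of_isClosed_subset (hclosed r)
      (fun x hx => le_trans hx (ENNReal.ofReal_le_ofReal hrs))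
  by_contra hcon
  set T : Set ℝ := {r | IsCompact {x : SPt S | edist p x ≤ ENNReal.ofReal r}} with hT
  -- extension step
  have hstep : ∀ s : ℝ, 0 ≤ s → s ∈ T → ∃ η > 0, s + η ∈ T := by
    intro s hs hsT
    obtain ⟨K', hK', hsub⟩ := exists_compact_superset hsT
    obtain ⟨δ, hδ, hδ2⟩ := lebesgue_number_lemma_of_emetric (ι := Unit) hsT
      (c := fun _ => interior K') (fun _ => isOpen_interior) (fun x hx => mem_iUnion.2 ⟨(), hsub hx⟩)
    obtain ⟨q, hq0, hq⟩ := ENNReal.lt_iff_exists_nnreal_btwn.1 hδ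
    have hq0' : (0 : ℝ) < q := by exact_mod_cast hq0
    refine ⟨(q : ℝ) / 2, by positivity, ?_⟩
    refine hK'.of_isClosed_subset (hclosed _) ?_
    intro y hy
    have hlt : intrinsicDist S p.1 y.1 < ENNReal.ofReal (s + q) := by
      refine lt_of_le_of_lt hy ?_
      rw [ENNReal.ofReal_lt_ofReal_iff (by linarith)]
      linarith
    obtain ⟨z, hz, hz1, hz2⟩ := exists_mid hs hq0' hlt
    obtain ⟨_, hb⟩ := hδ2 ⟨z, hz⟩ hz1
    apply interior_subset
    apply hb
    rw [Metric.mem_eball, edist_comm]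
    refine lt_trans hz2 ?_
    rwa [ENNReal.ofReal_coe_nnreal]
  have h0T : (0 : ℝ) ∈ T := by
    obtain ⟨K, hK, hKn⟩ := SPt.exists_compact_nhds hS p
    refine hK.of_isClosed_subset (hclosed 0) ?_
    intro x hx
    obtain ⟨δ, hδ, hδ2⟩ := EMetric.mem_nhds_iff.1 hKn
    apply hδ2
    rw [Metric.mem_eball, edist_comm]
    refine lt_of_le_of_lt hx ?_
    simpa using hδ
  have hRb : ∀ r ∈ T, r ≤ R := by
    intro r hr
    by_contra h
    push Not at h
    exact hcon (hmono h.le hr)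
  have hbdd : BddAbove T := ⟨R, hRb⟩
  set s := sSup T with hs
  have hs0 : 0 ≤ s := le_csSup hbdd h0T
  have hsT : s ∈ T := by
    change IsCompact {x : SPt S | edist p x ≤ ENNReal.ofReal s}
    rw [isCompact_iff_totallyBounded_isComplete]
    refine ⟨?_, (hclosed s).isComplete⟩
    rw [EMetric.totallyBounded_iff]
    intro ε hε
    obtain ⟨q, hq0, hq⟩ := ENNReal.lt_iff_exists_nnreal_btwn.1 hε
    have hq0' : (0 : ℝ) < q := by exact_mod_cast hq0
    -- a compact ball of radius r > s - q/2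
    obtain ⟨r, hrT, hr0, hr⟩ : ∃ r ∈ T, 0 ≤ r ∧ s - q / 2 < r := by
      obtain ⟨r, hrT, hr⟩ := exists_lt_of_lt_csSup ⟨0, h0T⟩ (show s - q / 2 < sSup T by linarith)
      rcases le_total 0 r with h | h
      · exact ⟨r, hrT, h, hr⟩
      · exact ⟨0, h0T, le_rfl, lt_of_lt_of_le hr h⟩
    have hrc : IsCompact {x : SPt S | edist p x ≤ ENNReal.ofReal r} := hrT
    obtain ⟨t, ht, htc⟩ := EMetric.totallyBounded_iff.1 hrc.totallyBounded
      (ENNReal.ofReal (q / 2)) (ENNReal.ofReal_pos.2 (by linarith))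
    refine ⟨t, ht, ?_⟩
    intro x hx
    have hlt : intrinsicDist S p.1 x.1 < ENNReal.ofReal (r + q / 2) := by
      refine lt_of_le_of_lt hx ?_
      rw [ENNReal.ofReal_lt_ofReal_iff (by linarith)]
      linarith
    obtain ⟨z, hz, hz1, hz2⟩ := exists_mid hr0 (by linarith) hlt
    have hzm : (⟨z, hz⟩ : SPt S) ∈ {x : SPt S | edist p x ≤ ENNReal.ofReal r} := hz1
    obtain ⟨y, hy, hyz⟩ := mem_iUnion₂.1 (htc hzm)
    refine mem_iUnion₂.2 ⟨y, hy, ?_⟩
    rw [Metric.mem_eball] at hyz ⊢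
    have h3 : edist x (⟨z, hz⟩ : SPt S) < ENNReal.ofReal (q / 2) := by
      rw [edist_comm]; exact hz2
    calc edist x y ≤ edist x (⟨z, hz⟩ : SPt S) + edist (⟨z, hz⟩ : SPt S) y := edist_triangle _ _ _
      _ < ENNReal.ofReal (q / 2) + ENNReal.ofReal (q / 2) := ENNReal.add_lt_add h3 hyz
      _ = ENNReal.ofReal q := by
        rw [← ENNReal.ofReal_add (by linarith) (by linarith)]; congr 1; ring
      _ = q := ENNReal.ofReal_coe_nnreal
      _ ≤ ε := hq.le
  obtain ⟨η, hη, hη2⟩ := hstep s hs0 hsT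
  have := le_csSup hbdd hη2
  linarith

/-- Closed intrinsic balls are compact subsets of Minkowski space. -/
theorem isCompact_ball {S : Set V} (hS : IsSurf S) (hc : IsCompleteSurface S) {p : V} (hp : p ∈ S)
    (R : ℝ) : IsCompact {x | x ∈ S ∧ intrinsicDist S p x ≤ ENNReal.ofReal R} := by
  have h := (SPt.isCompact_closedBall hS hc ⟨p, hp⟩ R).image (SPt.continuous_val hS.1)
  convert h using 1
  ext x
  constructor
  · rintro ⟨h1, h2⟩
    exact ⟨⟨x, h1⟩, h2, rfl⟩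
  · rintro ⟨y, hy, rfl⟩
    exact ⟨y.2, hy⟩

end Pool.Agent.MP_41c3fc_gt
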