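import Mathlib
import Pool.Agent.MP_41c3fc_gt.HopfRinow

set_option autoImplicit false

open MeasureTheory Set Filter Topology
open scoped ENNReal NNReal

namespace Pool.Agent.MP_41c3fc_gt

theorem act_one (x : V) : act 1 x = x := by simp [act]

theorem act_mul (g h : GL4) (x : V) : act (g * h) x = act g (act h x) := by
  simp [act, Matrix.mulVec_mulVec]

theorem act_inv_act (g : GL4) (x : V) : act g⁻¹ (act g x) = x := by
  rw [← act_mul, inv_mul_cancel, act_one]

theorem act_act_inv (g : GL4) (x : V) : act g (act g⁻¹ x) = x := by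
  rw [← act_mul, mul_inv_cancel, act_one]

/-- The action as a continuous linear map. -/
noncomputable def actL (g : GL4) : V →L[ℝ] V :=
  LinearMap.toContinuousLinearMap (Matrix.mulVecLin (g : Matrix (Fin 4) (Fin 4) ℝ))

theorem actL_apply (g : GL4) (x : V) : actL g x = act g x := rfl

theorem continuous_act (g : GL4) : Continuous (act g) := (actL g).continuous

theorem act_smul (g : GL4) (c : ℝ) (x : V) : act g (c • x) = c • act g x := (actL g).map_smul c x

theorem act_add (g : GL4) (x y : V) : act g (x + y) = act g x + act g y := (actL g).map_add x y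

theorem act_injective (g : GL4) : Function.Injective (act g) := by
  intro x y h
  rw [← act_inv_act g x, h, act_inv_act]

theorem measurable_act (g : GL4) : Measurable (act g) := (continuous_act g).measurable

/-- `g` preserves the Lorentz form and the set `S`. -/
structure Pres (S : Set V) (g : GL4) : Prop where
  lor_eq : ∀ x y, lor (act g x) (act g y) = lor x y
  mem_iff : ∀ x, act g x ∈ S ↔ x ∈ S

theorem Pres.inv {S : Set V} {g : GL4} (h : Pres S g) : Pres S g⁻¹ where
  lor_eq x y := by rw [← h.lor_eq, act_act_inv, act_act_inv]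
  mem_iff x := by rw [← h.mem_iff, act_act_inv]

theorem Pres.mul {S : Set V} {g g' : GL4} (h : Pres S g) (h' : Pres S g') : Pres S (g * g') where
  lor_eq x y := by rw [act_mul, act_mul, h.lor_eq, h'.lor_eq]
  mem_iff x := by rw [act_mul, h.mem_iff, h'.mem_iff]

theorem Pres.one {S : Set V} : Pres S 1 where
  lor_eq x y := by rw [act_one, act_one]
  mem_iff x := by rw [act_one]

theorem pres_of_invariant {Γ : Subgroup GL4} (hΓ : ∀ g ∈ Γ, IsIsom g) {S : Set V}
    (hS : IsInvariantSet Γ S) {g : GL4} (hg : g ∈ Γ) : Pres S g where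
  lor_eq := (hΓ g hg).1
  mem_iff x := by
    constructor
    · intro h
      have := hS g⁻¹ (Γ.inv_mem hg) _ h
      rwa [act_inv_act] at this
    · exact hS g hg x

theorem pres_H3 {g : GL4} (h1 : IsIsom g) (h2 : IsIsom g⁻¹) : Pres H3 g where
  lor_eq := h1.1
  mem_iff x := by
    constructor
    · intro h
      have := h2.2 _ h
      rwa [act_inv_act] at this
    · exact h1.2 x

/-! ### Invariance of the intrinsic distance -/

theorem arcLength_act {g : GL4} (hg : ∀ x y, lor (act g x) (act g y) = lor x y) {c : ℝ → V}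
    (hc : ContDiff ℝ 1 c) : arcLength (fun t => act g (c t)) = arcLength c := by
  unfold arcLength
  congr 1
  funext t
  have h1 : HasDerivAt c (deriv c t) t :=
    (hc.differentiable (by norm_num)).differentiableAt.hasDerivAt
  have h2 : HasDerivAt (fun t => act g (c t)) (act g (deriv c t)) t :=
    (actL g).hasFDerivAt.comp_hasDerivAt t h1
  rw [h2.deriv, hg]

theorem dist_act_le {S : Set V} {g : GL4} (hg : Pres S g) (p q : V) :
    intrinsicDist S (act g p) (act g q) ≤ intrinsicDist S p q := by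
  refine le_iInf₂ fun c hc => ?_
  rw [← arcLength_act hg.lor_eq hc.1]
  apply dist_le_of_arc
  refine ⟨(actL g).contDiff.comp hc.1, fun t ht => (hg.mem_iff _).2 (hc.2.1 t ht), ?_, ?_⟩
  · simp only [hc.2.2.1]
  · simp only [hc.2.2.2]

theorem dist_act {S : Set V} {g : GL4} (hg : Pres S g) (p q : V) :
    intrinsicDist S (act g p) (act g q) = intrinsicDist S p q := by
  apply le_antisymm (dist_act_le hg p q)
  have := dist_act_le hg.inv (act g p) (act g q)
  rwa [act_inv_act, act_inv_act] at this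

/-! ### Charts and isometries -/

theorem fderiv_act_comp {g : GL4} {ψ : ℝ × ℝ → V} {a : ℝ × ℝ} (h : DifferentiableAt ℝ ψ a) :
    fderiv ℝ (fun b => act g (ψ b)) a = (actL g).comp (fderiv ℝ ψ a) :=
  ((actL g).hasFDerivAt.comp a h.hasFDerivAt).fderiv

theorem IsLocalParam.act {S : Set V} {Ω : Set (ℝ × ℝ)} {ψ : ℝ × ℝ → V} (h : IsLocalParam S Ω ψ)
    {g : GL4} (hg : Pres S g) :
    IsLocalParam S Ω (fun b => MP_41c3fc_gt.act g (ψ b)) where
  isOpen := h.isOpen
  contDiffOn := (actL g).contDiff.comp_contDiffOn h.contDiffOn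
  immersion := by
    intro a ha
    have hd : DifferentiableAt ℝ ψ a :=
      (h.contDiffOn.differentiableOn (by norm_num)).differentiableAt (h.isOpen.mem_nhds ha)
    rw [fderiv_act_comp hd]
    exact (act_injective g).comp (h.immersion a ha)
  injOn := (act_injective g).comp_injOn h.injOn
  openMap := by
    intro U hU hUo
    obtain ⟨O, hO, hOe⟩ := h.openMap U hU hUo
    refine ⟨MP_41c3fc_gt.act g⁻¹ ⁻¹' O, hO.preimage (continuous_act _), ?_⟩
    ext y
    constructor
    · rintro ⟨a, ha, rfl⟩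
      have h1 : ψ a ∈ S ∩ O := hOe ▸ mem_image_of_mem ψ ha
      refine ⟨(hg.mem_iff _).2 h1.1, ?_⟩
      change MP_41c3fc_gt.act g⁻¹ (MP_41c3fc_gt.act g (ψ a)) ∈ O
      rw [act_inv_act]
      exact h1.2
    · rintro ⟨hy1, hy2⟩
      have h1 : MP_41c3fc_gt.act g⁻¹ y ∈ S ∩ O := ⟨(hg.inv.mem_iff y).2 hy1, hy2⟩
      rw [← hOe] at h1
      obtain ⟨a, ha, hay⟩ := h1
      refine ⟨a, ha, ?_⟩
      simp only
      rw [hay, act_act_inv]

theorem areaDensity_act {g : GL4} (hg : ∀ x y, lor (act g x) (act g y) = lor x y)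
    {ψ : ℝ × ℝ → V} {a : ℝ × ℝ} (h : DifferentiableAt ℝ ψ a) :
    areaDensity (fun b => act g (ψ b)) a = areaDensity ψ a := by
  unfold areaDensity cE cF cG d1 d2
  rw [fderiv_act_comp h]
  simp only [ContinuousLinearMap.comp_apply, actL_apply, hg]

/-! ### Measures -/

theorem measurableSet_inter_preimage {Ω : Set (ℝ × ℝ)} {ψ : ℝ × ℝ → V} (hΩ : IsOpen Ω)
    (hψ : ContinuousOn ψ Ω) {B : Set V} (hB : MeasurableSet B) :
    MeasurableSet (Ω ∩ ψ ⁻¹' B) := by
  classical
  have h1 : Measurable (Ω.piecewise ψ (fun _ => 0)) :=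
    hψ.measurable_piecewise continuousOn_const hΩ.measurableSet
  have h2 : Ω ∩ ψ ⁻¹' B = Ω ∩ (Ω.piecewise ψ (fun _ => 0)) ⁻¹' B := by
    ext a
    constructor
    · rintro ⟨h, h'⟩
      refine ⟨h, ?_⟩
      change Ω.piecewise ψ (fun _ => 0) a ∈ B
      rw [piecewise_eq_of_mem _ _ _ h]
      exact h'
    · rintro ⟨h, h'⟩
      refine ⟨h, ?_⟩
      change Ω.piecewise ψ (fun _ => 0) a ∈ B at h'
      rw [piecewise_eq_of_mem _ _ _ h] at h'
      exact h'
  rw [h2]
  exact hΩ.measurableSet.inter (h1 hB)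

theorem IsLocalParam.measurableSet_image {S : Set V} {Ω : Set (ℝ × ℝ)} {ψ : ℝ × ℝ → V}
    (h : IsLocalParam S Ω ψ) {A : Set (ℝ × ℝ)} (hA : A ⊆ Ω) (hAm : MeasurableSet A) :
    MeasurableSet (ψ '' A) :=
  hAm.image_of_continuousOn_injOn (h.contDiffOn.continuousOn.mono hA) (h.injOn.mono hA)

/-- A surface is covered by countably many charts. -/
theorem exists_countable_charts {S : Set V} (hS : IsSurf S) :
    ∃ (t : Set V) (Ω : V → Set (ℝ × ℝ)) (ψ : V → ℝ × ℝ → V), t.Countable ∧
      (∀ p ∈ t, IsLocalParam S (Ω p) (ψ p)) ∧ S = ⋃ p ∈ t, ψ p '' Ω p := by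
  classical
  have hch : ∀ p : V, ∃ (Ω : Set (ℝ × ℝ)) (ψ : ℝ × ℝ → V), p ∈ S →
      (IsLocalParam S Ω ψ ∧ p ∈ ψ '' Ω) := by
    intro p
    by_cases hp : p ∈ S
    · obtain ⟨Ω, ψ, h⟩ := hS.2 p hp
      exact ⟨Ω, ψ, fun _ => h⟩
    · exact ⟨∅, fun _ => 0, fun h => absurd h hp⟩
  choose Ω ψ hΩψ using hch
  have hnhds : ∀ p ∈ S, ψ p '' Ω p ∈ 𝓝[S] p := by
    intro p hp
    obtain ⟨h1, h2⟩ := hΩψ p hp
    obtain ⟨O, hO, hOe⟩ := h1.openMap (Ω p) subset_rfl h1.isOpen
    rw [hOe] at h2 ⊢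
    exact inter_mem_nhdsWithin S (hO.mem_nhds h2.2)
  obtain ⟨t, hts, htc, hcov⟩ := TopologicalSpace.countable_cover_nhdsWithin hnhds
  refine ⟨t, Ω, ψ, htc, fun p hp => (hΩψ p (hts hp)).1, ?_⟩
  apply subset_antisymm hcov
  intro x hx
  obtain ⟨p, hp, a, ha, rfl⟩ := mem_iUnion₂.1 hx
  exact (hΩψ p (hts hp)).1.mem ha

theorem IsSurf.measurableSet {S : Set V} (hS : IsSurf S) : MeasurableSet S := by
  obtain ⟨t, Ω, ψ, htc, ht, hcov⟩ := exists_countable_charts hS
  rw [hcov]
  exact MeasurableSet.biUnion htc fun p hp =>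
    (ht p hp).measurableSet_image subset_rfl (ht p hp).isOpen.measurableSet

theorem IsAreaMeasure.restrict {S : Set V} {μ : Measure V}
    (hμ : IsAreaMeasure S μ) : μ.restrict S = μ := by
  apply Measure.restrict_eq_self_of_ae_mem
  rw [ae_iff]
  exact hμ.1

/-- The area measure in a chart. -/
theorem IsAreaMeasure.restrict_chart {S : Set V} {μ : Measure V} (hμ : IsAreaMeasure S μ)
    {Ω : Set (ℝ × ℝ)} {ψ : ℝ × ℝ → V} (h : IsLocalParam S Ω ψ) {B : Set V}
    (hB : MeasurableSet B) :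
    μ (B ∩ ψ '' Ω) = ∫⁻ a in Ω ∩ ψ ⁻¹' B, ENNReal.ofReal (areaDensity ψ a) := by
  have h1 : B ∩ ψ '' Ω = ψ '' (Ω ∩ ψ ⁻¹' B) := by
    rw [image_inter_preimage, inter_comm]
  rw [h1]
  exact hμ.2 Ω ψ h _ inter_subset_left
    (measurableSet_inter_preimage h.isOpen h.contDiffOn.continuousOn hB)

theorem IsAreaMeasure.map_act {S : Set V} {μ : Measure V} (hS : IsSurf S)
    (hμ : IsAreaMeasure S μ) {g : GL4} (hg : Pres S g) : μ.map (act g) = μ := by
  obtain ⟨t, Ω, ψ, htc, ht, hcov⟩ := exists_countable_charts hS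
  have hν : (μ.map (act g)).restrict S = μ.map (act g) := by
    apply Measure.restrict_eq_self_of_ae_mem
    rw [ae_iff]
    have : {a | a ∉ S} = Sᶜ := rfl
    rw [this, Measure.map_apply (measurable_act g) hS.measurableSet.compl]
    have h2 : act g ⁻¹' Sᶜ = Sᶜ := by
      ext x
      simp only [mem_preimage, mem_compl_iff, hg.mem_iff]
    rw [h2]
    exact hμ.1
  rw [← hν, ← hμ.restrict]
  rw [hμ.restrict]
  conv_rhs => rw [← hμ.restrict]
  conv_lhs => rw [hcov]
  conv_rhs => rw [hcov]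
  rw [Measure.restrict_biUnion_congr htc]
  intro p hp
  have hloc := ht p hp
  have hmeas := hloc.measurableSet_image subset_rfl hloc.isOpen.measurableSet
  ext B hB
  rw [Measure.restrict_apply hB, Measure.restrict_apply hB,
    Measure.map_apply (measurable_act g) (hB.inter hmeas), hμ.restrict_chart hloc hB]
  have hloc' := hloc.act hg.inv
  have h1 : act g ⁻¹' (B ∩ ψ p '' Ω p) =
      (act g ⁻¹' B) ∩ (fun b => act g⁻¹ (ψ p b)) '' Ω p := by
    ext x
    constructor
    · rintro ⟨hx1, a, ha, hax⟩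
      exact ⟨hx1, a, ha, by simp only; rw [hax, act_inv_act]⟩
    · rintro ⟨hx1, a, ha, rfl⟩
      exact ⟨hx1, a, ha, by simp only; rw [act_act_inv]⟩
  rw [h1, hμ.restrict_chart hloc' (measurable_act g hB)]
  have h2 : Ω p ∩ (fun b => act g⁻¹ (ψ p b)) ⁻¹' (act g ⁻¹' B) = Ω p ∩ ψ p ⁻¹' B := by
    ext a
    simp only [mem_inter_iff, mem_preimage, act_act_inv]
  rw [h2]
  apply setLIntegral_congr_fun
    (measurableSet_inter_preimage hloc.isOpen hloc.contDiffOn.continuousOn hB)
  intro a ha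
  simp only
  rw [areaDensity_act hg.inv.lor_eq]
  exact (hloc.contDiffOn.differentiableOn (by norm_num)).differentiableAt
    (hloc.isOpen.mem_nhds ha.1)

theorem IsAreaMeasure.pos_of_open {S : Set V} {μ : Measure V} (hS : IsSurf S)
    (hμ : IsAreaMeasure S μ) {O : Set V} (hO : IsOpen O) {p : V} (hp : p ∈ S) (hpO : p ∈ O) :
    0 < μ (S ∩ O) := by
  obtain ⟨Ω, ψ, h, a, ha, rfl⟩ := hS.2 p hp
  have hpat := h.isPatch hS.1
  have hopen : IsOpen (Ω ∩ ψ ⁻¹' O) := h.contDiffOn.continuousOn.isOpen_inter_preimage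
        h.isOpen hO
  have h1 : 0 < μ (O ∩ ψ '' Ω) := by
    rw [hμ.restrict_chart h hO.measurableSet, pos_iff_ne_zero]
    intro h0
    rw [lintegral_eq_zero_iff'
      ((hpat.contDiffOn_area.continuousOn.mono inter_subset_left).aemeasurable
        hopen.measurableSet).ennreal_ofReal] at h0
    have h2 : ∀ᵐ b ∂(volume.restrict (Ω ∩ ψ ⁻¹' O)), False := by
      filter_upwards [h0, ae_restrict_mem hopen.measurableSet] with b hb hbm
      have := hpat.area_pos hbm.1
      simp only [Pi.zero_apply, ENNReal.ofReal_eq_zero] at hb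
      linarith
    rw [ae_iff] at h2
    simp only [not_false_eq_true, Measure.restrict_apply_univ, ofPred_true] at h2
    exact (hopen.measure_pos volume ⟨a, ha, hpO⟩).ne' h2
  refine lt_of_lt_of_le h1 (measure_mono ?_)
  rintro x ⟨hx, b, hb, rfl⟩
  exact ⟨h.mem hb, hx⟩

end Pool.Agent.MP_41c3fc_gt
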