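import Mathlib
import Pool.Agent.MP_41c3fc_gt.Action

set_option autoImplicit false

open MeasureTheory Set Filter Topology
open scoped ENNReal NNReal

namespace Pool.Agent.MP_41c3fc_gt

/-- The open future cone. -/
def cone : Set V := {x | lor x x < 0 ∧ 0 < x 0}

/-- Lorentz norm. -/
noncomputable def nrm (x : V) : ℝ := √(-lor x x)

/-- Radial projection to `ℍ³`. -/
noncomputable def nb (x : V) : V := (nrm x)⁻¹ • x

theorem continuous_lor_self : Continuous fun x : V => lor x x := by unfold lor; fun_prop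

theorem continuous_lor_left (p : V) : Continuous fun x : V => lor x p := by unfold lor; fun_prop

theorem isOpen_cone : IsOpen cone := by
  apply IsOpen.inter
  · exact isOpen_lt continuous_lor_self continuous_const
  · exact isOpen_lt continuous_const (continuous_apply 0)

theorem H3_subset_cone : H3 ⊆ cone := fun x hx => ⟨by rw [hx.1]; norm_num, hx.2⟩

theorem nrm_pos {x : V} (hx : x ∈ cone) : 0 < nrm x := Real.sqrt_pos.2 (by linarith [hx.1])

theorem nb_mem {x : V} (hx : x ∈ cone) : nb x ∈ H3 := by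
  have h := nrm_pos hx
  have h2 : nrm x * nrm x = -lor x x := Real.mul_self_sqrt (by linarith [hx.1])
  constructor
  · unfold nb
    rw [lor_smul_left, lor_smul_right]
    field_simp
    rw [sq, h2]; ring
  · change 0 < (nrm x)⁻¹ * x 0
    exact mul_pos (inv_pos.2 h) hx.2

theorem nrm_H3 {x : V} (hx : x ∈ H3) : nrm x = 1 := by
  unfold nrm; rw [hx.1]; simp

theorem nb_H3 {x : V} (hx : x ∈ H3) : nb x = x := by
  unfold nb; rw [nrm_H3 hx]; simp

theorem contDiffAt_nrm {x : V} (hx : x ∈ cone) : ContDiffAt ℝ 1 nrm x := by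
  unfold nrm
  apply ContDiffAt.sqrt
  · unfold lor; fun_prop
  · linarith [hx.1]

theorem continuousOn_nb : ContinuousOn nb cone := by
  intro x hx
  apply ContinuousAt.continuousWithinAt
  exact ((contDiffAt_nrm hx).continuousAt.inv₀ (nrm_pos hx).ne').smul continuousAt_id

theorem act_mem_cone {g : GL4} (hg : IsIsom g) {x : V} (hx : x ∈ cone) : act g x ∈ cone := by
  have h1 := hg.2 _ (nb_mem hx)
  have h2 : x = nrm x • nb x := by
    unfold nb; rw [smul_smul, mul_inv_cancel₀ (nrm_pos hx).ne', one_smul]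
  constructor
  · rw [hg.1]; exact hx.1
  · rw [h2, act_smul]
    exact mul_pos (nrm_pos hx) h1.2

theorem nrm_act {g : GL4} (hg : IsIsom g) (x : V) : nrm (act g x) = nrm x := by
  unfold nrm; rw [hg.1]

theorem nb_act {g : GL4} (hg : IsIsom g) (x : V) : nb (act g x) = act g (nb x) := by
  unfold nb; rw [nrm_act hg, act_smul]

/-- The bump functions. -/
noncomputable def bump (p : V) (δ : ℝ) (x : V) : ℝ :=
  3 * Real.smoothTransition ((1 + δ - (-lor x p) / nrm x) / (δ / 2))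

theorem bump_nonneg (p : V) (δ : ℝ) (x : V) : 0 ≤ bump p δ x :=
  mul_nonneg (by norm_num) (Real.smoothTransition.nonneg _)

theorem bump_nb (p : V) (δ : ℝ) {x : V} (hx : x ∈ cone) : bump p δ (nb x) = bump p δ x := by
  unfold bump
  rw [nrm_H3 (nb_mem hx)]
  unfold nb
  rw [lor_smul_left]
  congr 3
  have := (nrm_pos hx).ne'
  field_simp

theorem contDiffAt_bump (p : V) (δ : ℝ) {x : V} (hx : x ∈ cone) : ContDiffAt ℝ 1 (bump p δ) x := by
  unfold bump
  apply ContDiffAt.mul contDiffAt_const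
  have h1 : ContDiffAt ℝ 1 (fun x => (1 + δ - (-lor x p) / nrm x) / (δ / 2)) x := by
    apply ContDiffAt.div_const
    apply ContDiffAt.sub contDiffAt_const
    apply ContDiffAt.div
    · unfold lor; fun_prop
    · exact contDiffAt_nrm hx
    · exact (nrm_pos hx).ne'
  exact Real.smoothTransition.contDiffAt.comp x h1

theorem lt_of_bump_ne_zero {p : V} {δ : ℝ} (hδ : 0 < δ) {x : V} (hx : x ∈ H3)
    (h : bump p δ x ≠ 0) : -lor x p < 1 + δ := by
  by_contra hcon
  push Not at hcon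
  apply h
  unfold bump
  rw [nrm_H3 hx, div_one, Real.smoothTransition.zero_of_nonpos, mul_zero]
  apply div_nonpos_of_nonpos_of_nonneg <;> linarith

theorem bump_eq_three {p : V} {δ : ℝ} (hδ : 0 < δ) {x : V} (hx : x ∈ H3)
    (h : -lor x p ≤ 1 + δ / 2) : bump p δ x = 3 := by
  unfold bump
  rw [nrm_H3 hx, div_one, Real.smoothTransition.one_of_one_le, mul_one]
  rw [le_div_iff₀ (by linarith)]
  linarith

theorem isCompact_lorBall (p : V) (hp : p ∈ H3) (r : ℝ) : IsCompact {x | x ∈ H3 ∧ -lor x p ≤ r} := by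
  apply Metric.isCompact_of_isClosed_isBounded
  · apply IsClosed.inter isClosed_H3
    exact isClosed_le (continuous_lor_left p).neg continuous_const
  · rw [Metric.isBounded_iff_subset_closedBall 0]
    refine ⟨2 * p 0 * |r|, ?_⟩
    rintro x ⟨hx, hxr⟩
    rw [mem_closedBall_zero_iff]
    have hp0 := hp.2
    have hx0 := hx.2
    have h1 := lor_H3_le hp hx
    rw [lor_comm, div_le_iff₀ (by positivity)] at h1
    have h2 : x 0 ≤ 2 * p 0 * |r| := by
      have : -lor x p * (2 * p 0) ≤ |r| * (2 * p 0) :=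
        mul_le_mul_of_nonneg_right (hxr.trans (le_abs_self r)) (by positivity)
      linarith
    rw [pi_norm_le_iff_of_nonneg (by positivity)]
    intro i
    rw [Real.norm_eq_abs]
    refine le_trans ?_ h2
    have h3 := H3_sq hx
    apply abs_le_of_sq_le_sq _ hx0.le
    fin_cases i
    · exact le_refl _
    · change x 1 ^ 2 ≤ x 0 ^ 2; nlinarith [sq_nonneg (x 2), sq_nonneg (x 3)]
    · change x 2 ^ 2 ≤ x 0 ^ 2; nlinarith [sq_nonneg (x 1), sq_nonneg (x 3)]
    · change x 3 ^ 2 ≤ x 0 ^ 2; nlinarith [sq_nonneg (x 2), sq_nonneg (x 1)]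

/-- Points of `ℍ³` close to `p` in the sense of the Lorentz form are close. -/
theorem near_of_lor {p : V} (hp : p ∈ H3) {η : ℝ} (hη : 0 < η) :
    ∃ δ > 0, ∀ x ∈ H3, -lor x p < 1 + δ → ‖x - p‖ < η := by
  have hcont : Continuous fun e : ℝ => p 0 * √(2 * e + e ^ 2) + e * ‖p‖ := by fun_prop
  have h0 : (fun e : ℝ => p 0 * √(2 * e + e ^ 2) + e * ‖p‖) 0 < η := by simpa using hη
  obtain ⟨δ, hδ, hball⟩ := Metric.eventually_nhds_iff.1 (hcont.continuousAt.eventually_lt
    continuousAt_const h0)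
  refine ⟨δ, hδ, fun x hx hxδ => ?_⟩
  set e := -lor x p - 1 with he
  have he0 : 0 ≤ e := by linarith [one_le_neg_lor hx hp]
  have h1 := hball (y := e) (by rw [Real.dist_eq, sub_zero, abs_of_nonneg he0]; linarith)
  refine lt_of_le_of_lt ?_ h1
  set w := x + lor x p • p with hw
  have hwp : lor w p = 0 := by
    rw [hw, lor_add_left, lor_smul_left, hp.1]; ring
  have hww : lor w w = 2 * e + e ^ 2 := by
    rw [hw]
    simp only [lor_add_left, lor_add_right, lor_smul_left, lor_smul_right, hx.1, hp.1,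
      lor_comm p x]
    rw [he]; ring
  have h2 := norm_le_of_tangent hp hwp
  unfold rn at h2
  rw [hww] at h2
  have h3 : x - p = w + e • p := by
    rw [hw, he]
    ext i
    simp only [Pi.sub_apply, Pi.add_apply, Pi.smul_apply, smul_eq_mul]
    ring
  rw [h3]
  calc ‖w + e • p‖ ≤ ‖w‖ + ‖e • p‖ := norm_add_le _ _
    _ ≤ p 0 * √(2 * e + e ^ 2) + e * ‖p‖ := by
      rw [norm_smul, Real.norm_eq_abs, abs_of_nonneg he0]
      linarith

/-- A function on the cone which is `C¹` and has locally finitely many translates. -/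
structure GoodFn (Γ : Subgroup GL4) (b : V → ℝ) : Prop where
  smooth : ∀ x ∈ cone, ContDiffAt ℝ 1 b x
  locfin : ∀ x₀ ∈ cone, ∃ N ∈ 𝓝 x₀, ∃ F : Finset Γ, ∀ x ∈ N, ∀ g : Γ, g ∉ F →
    b (act (g : GL4) x) = 0

theorem goodFn_bump {Γ : Subgroup GL4} (hΓ : IsDiscreteTorsionFree Γ) {p : V} (hp : p ∈ H3) {δ : ℝ}
    (hδ : 0 < δ) : GoodFn Γ (bump p δ) where
  smooth x hx := contDiffAt_bump p δ hx
  locfin := by
    intro x₀ hx₀
    obtain ⟨N, hN, hNc, hNcomp⟩ := local_compact_nhds (isOpen_cone.mem_nhds hx₀)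
    have hK1 : IsCompact (nb '' N) := hNcomp.image_of_continuousOn (continuousOn_nb.mono hNc)
    have hK2 := isCompact_lorBall p hp (1 + δ)
    have hK := hK1.union hK2
    have hfin := hΓ.discrete _ (union_subset (by rintro _ ⟨y, hy, rfl⟩; exact nb_mem (hNc hy))
      (fun y hy => hy.1)) hK
    have hfin2 : {g : Γ | ∃ x ∈ nb '' N ∪ {x | x ∈ H3 ∧ -lor x p ≤ 1 + δ},
        act (g : GL4) x ∈ nb '' N ∪ {x | x ∈ H3 ∧ -lor x p ≤ 1 + δ}}.Finite := by
      apply Finite.of_finite_image (f := Subtype.val) _ Subtype.val_injective.injOn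
      refine hfin.subset ?_
      rintro _ ⟨g, hg, rfl⟩
      exact ⟨g.2, hg⟩
    refine ⟨N, hN, hfin2.toFinset, ?_⟩
    intro x hx g hg
    by_contra hne
    apply hg
    rw [Finite.mem_toFinset]
    have hiso := hΓ.isom g g.2
    refine ⟨nb x, Or.inl (mem_image_of_mem _ hx), Or.inr ⟨hiso.2 _ (nb_mem (hNc hx)), ?_⟩⟩
    have h1 : bump p δ (act g (nb x)) ≠ 0 := by
      rw [← nb_act hiso, bump_nb p δ (act_mem_cone hiso (hNc hx))]
      exact hne
    exact (lt_of_bump_ne_zero hδ (hiso.2 _ (nb_mem (hNc hx))) h1).le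

theorem goodFn_sum {Γ : Subgroup GL4} {ι : Type*} (t : Finset ι) {b : ι → V → ℝ}
    (hb : ∀ i ∈ t, GoodFn Γ (b i)) : GoodFn Γ (fun x => ∑ i ∈ t, b i x) where
  smooth x hx := ContDiffAt.sum fun i hi => (hb i hi).smooth x hx
  locfin := by
    classical
    induction t using Finset.induction_on with
    | empty => intro x₀ _; exact ⟨univ, univ_mem, ∅, by simp⟩
    | insert i t hit ih =>
      intro x₀ hx₀
      obtain ⟨N, hN, F, hF⟩ := ih (fun j hj => hb j (Finset.mem_insert_of_mem hj)) x₀ hx₀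
      obtain ⟨N', hN', F', hF'⟩ := (hb i (Finset.mem_insert_self i t)).locfin x₀ hx₀
      refine ⟨N ∩ N', inter_mem hN hN', F ∪ F', ?_⟩
      intro x hx g hg
      rw [Finset.mem_union, not_or] at hg
      rw [Finset.sum_insert hit, hF' x hx.2 g hg.2, hF x hx.1 g hg.1, add_zero]

/-- The sum over the group. -/
noncomputable def hsum (Γ : Subgroup GL4) (b : V → ℝ) (x : V) : ℝ := ∑' g : Γ, b (act (g : GL4) x)

theorem hsum_act (Γ : Subgroup GL4) (b : V → ℝ) (x : V) {h : GL4} (hh : h ∈ Γ) :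
    hsum Γ b (act h x) = hsum Γ b x := by
  unfold hsum
  have := (Equiv.mulRight (⟨h, hh⟩ : Γ)).tsum_eq (fun g : Γ => b (act (g : GL4) x))
  rw [← this]
  apply tsum_congr
  intro g
  simp only [Equiv.coe_mulRight, Subgroup.coe_mul, act_mul]

namespace GoodFn

variable {Γ : Subgroup GL4} {b : V → ℝ}

theorem hsum_eventually (hb : GoodFn Γ b) {x₀ : V} (hx₀ : x₀ ∈ cone) :
    ∃ F : Finset Γ, (∀ᶠ x in 𝓝 x₀, hsum Γ b x = ∑ g ∈ F, b (act (g : GL4) x)) ∧
      ∀ g : Γ, g ∉ F → ∀ᶠ x in 𝓝 x₀, b (act (g : GL4) x) = 0 := by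
  obtain ⟨N, hN, F, hF⟩ := hb.locfin x₀ hx₀
  refine ⟨F, ?_, ?_⟩
  · filter_upwards [hN] with x hx
    exact tsum_eq_sum fun g hg => hF x hx g hg
  · intro g hg
    filter_upwards [hN] with x hx
    exact hF x hx g hg

theorem contDiffAt_act (hb : GoodFn Γ b) (hΓ : IsDiscreteTorsionFree Γ) (g : Γ) {x : V}
    (hx : x ∈ cone) : ContDiffAt ℝ 1 (fun x => b (act (g : GL4) x)) x :=
  (hb.smooth _ (act_mem_cone (hΓ.isom g g.2) hx)).comp x (actL (g : GL4)).contDiff.contDiffAt

theorem contDiffAt_hsum (hb : GoodFn Γ b) (hΓ : IsDiscreteTorsionFree Γ) {x : V} (hx : x ∈ cone) :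
    ContDiffAt ℝ 1 (hsum Γ b) x := by
  obtain ⟨F, hF, _⟩ := hb.hsum_eventually hx
  refine ContDiffAt.congr_of_eventuallyEq ?_ hF
  exact ContDiffAt.sum fun g _ => hb.contDiffAt_act hΓ g hx

theorem fderiv_act (hb : GoodFn Γ b) (hΓ : IsDiscreteTorsionFree Γ) (g : Γ) {x : V}
    (hx : x ∈ cone) (v : V) :
    fderiv ℝ (fun x => b (act (g : GL4) x)) x v =
      fderiv ℝ b (act (g : GL4) x) (act (g : GL4) v) := by
  have h1 : HasFDerivAt b (fderiv ℝ b (act (g : GL4) x)) (act (g : GL4) x) :=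
    ((hb.smooth _ (act_mem_cone (hΓ.isom g g.2) hx)).differentiableAt (by norm_num)).hasFDerivAt
  have h2 : HasFDerivAt (act (g : GL4)) (actL (g : GL4)) x := (actL (g : GL4)).hasFDerivAt
  have h3 := (h1.comp x h2).fderiv
  have h4 : fderiv ℝ (fun x => b (act (g : GL4) x)) x = _ := h3
  rw [h4]; rfl

theorem finite_support (hb : GoodFn Γ b) {x : V} (hx : x ∈ cone) :
    ∃ F : Finset Γ, ∀ g : Γ, g ∉ F → b (act (g : GL4) x) = 0 := by
  obtain ⟨F, _, hF⟩ := hb.hsum_eventually hx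
  exact ⟨F, fun g hg => (hF g hg).self_of_nhds⟩

theorem summable (hb : GoodFn Γ b) {x : V} (hx : x ∈ cone) :
    Summable fun g : Γ => b (act (g : GL4) x) := by
  obtain ⟨F, hF⟩ := hb.finite_support hx
  exact summable_of_ne_finset_zero hF

theorem le_hsum (hb : GoodFn Γ b) (hb0 : ∀ x, 0 ≤ b x) {x : V} (hx : x ∈ cone) (g : Γ) :
    b (act (g : GL4) x) ≤ hsum Γ b x :=
  (hb.summable hx).le_tsum g fun _ _ => hb0 _

/-- The derivatives sum up to the derivative of the sum. -/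
theorem hasSum_fderiv (hb : GoodFn Γ b) (hΓ : IsDiscreteTorsionFree Γ) {x : V} (hx : x ∈ cone)
    (v : V) : HasSum (fun g : Γ => fderiv ℝ b (act (g : GL4) x) (act (g : GL4) v))
      (fderiv ℝ (hsum Γ b) x v) := by
  obtain ⟨F, hF, hF2⟩ := hb.hsum_eventually hx
  have h1 : fderiv ℝ (hsum Γ b) x v =
      ∑ g ∈ F, fderiv ℝ b (act (g : GL4) x) (act (g : GL4) v) := by
    have h2 : fderiv ℝ (hsum Γ b) x = fderiv ℝ (fun x => ∑ g ∈ F, b (act (g : GL4) x)) x :=
      Filter.EventuallyEq.fderiv_eq hF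
    rw [h2, fderiv_fun_sum fun g _ => (hb.contDiffAt_act hΓ g hx).differentiableAt (by norm_num)]
    rw [sum_apply]
    exact Finset.sum_congr rfl fun g _ => hb.fderiv_act hΓ g hx v
  rw [h1]
  apply hasSum_sum_of_ne_finset_zero
  intro g hg
  rw [← hb.fderiv_act hΓ g hx v]
  have h3 : fderiv ℝ (fun x => b (act (g : GL4) x)) x = fderiv ℝ (fun _ => (0 : ℝ)) x :=
    Filter.EventuallyEq.fderiv_eq (hF2 g hg)
  rw [h3]; simp

end GoodFn

/-- The normalising denominator. -/
noncomputable def den (Γ : Subgroup GL4) (b : V → ℝ) (x : V) : ℝ :=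
  hsum Γ b x + Real.smoothTransition (1 - hsum Γ b x)

theorem hsum_nonneg {Γ : Subgroup GL4} {b : V → ℝ} (hb0 : ∀ x, 0 ≤ b x) (x : V) :
    0 ≤ hsum Γ b x := tsum_nonneg fun _ => hb0 _

theorem den_pos {Γ : Subgroup GL4} {b : V → ℝ} (hb0 : ∀ x, 0 ≤ b x) (x : V) : 0 < den Γ b x := by
  unfold den
  have h := hsum_nonneg (Γ := Γ) hb0 x
  rcases h.eq_or_lt with h0 | h0
  · rw [← h0]
    simp [Real.smoothTransition.one]
  · have := Real.smoothTransition.nonneg (1 - hsum Γ b x)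
    linarith

theorem den_act (Γ : Subgroup GL4) (b : V → ℝ) (x : V) {h : GL4} (hh : h ∈ Γ) :
    den Γ b (act h x) = den Γ b x := by
  unfold den; rw [hsum_act Γ b x hh]

theorem GoodFn.contDiffAt_den {Γ : Subgroup GL4} {b : V → ℝ} (hb : GoodFn Γ b)
    (hΓ : IsDiscreteTorsionFree Γ) {x : V} (hx : x ∈ cone) : ContDiffAt ℝ 1 (den Γ b) x := by
  have h := hb.contDiffAt_hsum hΓ hx
  exact h.add (Real.smoothTransition.contDiffAt.comp x (contDiffAt_const.sub h))

/-- The quotient of a good function by the denominator is good. -/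
theorem GoodFn.div_den {Γ : Subgroup GL4} {b c : V → ℝ} (hb : GoodFn Γ b) (hb0 : ∀ x, 0 ≤ b x)
    (hΓ : IsDiscreteTorsionFree Γ) (hc : GoodFn Γ c) : GoodFn Γ (fun x => c x / den Γ b x) where
  smooth x hx := (hc.smooth x hx).div (hb.contDiffAt_den hΓ hx) (den_pos hb0 x).ne'
  locfin := by
    intro x₀ hx₀
    obtain ⟨N, hN, F, hF⟩ := hc.locfin x₀ hx₀
    exact ⟨N, hN, F, fun x hx g hg => by rw [hF x hx g hg, zero_div]⟩

theorem hsum_div_den (Γ : Subgroup GL4) (b c : V → ℝ) (x : V) :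
    hsum Γ (fun x => c x / den Γ b x) x = hsum Γ c x / den Γ b x := by
  unfold hsum
  rw [← tsum_div_const]
  apply tsum_congr
  intro g
  simp only
  rw [den_act Γ b x g.2]

theorem hsum_self_le_one {Γ : Subgroup GL4} {b : V → ℝ} (hb0 : ∀ x, 0 ≤ b x) (x : V) :
    hsum Γ (fun x => b x / den Γ b x) x ≤ 1 := by
  rw [hsum_div_den, div_le_one (den_pos hb0 x)]
  unfold den
  linarith [Real.smoothTransition.nonneg (1 - hsum Γ b x)]

theorem hsum_self_eq_one {Γ : Subgroup GL4} {b : V → ℝ} {x : V} (h : 1 ≤ hsum Γ b x) :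
    hsum Γ (fun x => b x / den Γ b x) x = 1 := by
  rw [hsum_div_den]
  unfold den
  rw [Real.smoothTransition.zero_of_nonpos (by linarith), add_zero, div_self (by linarith)]

theorem fderiv_hsum_self {Γ : Subgroup GL4} {b : V → ℝ} (hb : GoodFn Γ b)
    (hΓ : IsDiscreteTorsionFree Γ) {x : V} (hx : x ∈ cone) (h : 1 < hsum Γ b x) :
    fderiv ℝ (hsum Γ (fun x => b x / den Γ b x)) x = 0 := by
  have h1 : ∀ᶠ y in 𝓝 x, 1 < hsum Γ b y :=
    continuousAt_const.eventually_lt (hb.contDiffAt_hsum hΓ hx).continuousAt h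
  have h2 : (hsum Γ (fun x => b x / den Γ b x)) =ᶠ[𝓝 x] fun _ => 1 := by
    filter_upwards [h1] with y hy
    exact hsum_self_eq_one hy.le
  rw [h2.fderiv_eq]
  simp

end Pool.Agent.MP_41c3fc_gt
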