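import Mathlib
import Pool.Agent.MP_41c3fc_gt.Chart

set_option autoImplicit false

open MeasureTheory Set Filter Topology
open scoped ENNReal

namespace Pool.Agent.MP_41c3fc_gt

/-- The function `u / (1 + u²)`. -/
noncomputable def fF (u : ℝ) : ℝ := u / (1 + u ^ 2)

/-- The function `u² / (1 + u²)`. -/
noncomputable def ell (u : ℝ) : ℝ := u ^ 2 / (1 + u ^ 2)

theorem ell_nonneg (u : ℝ) : 0 ≤ ell u := by unfold ell; positivity

theorem ell_le_one (u : ℝ) : ell u ≤ 1 := by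
  unfold ell
  rw [div_le_one (by positivity)]
  linarith

theorem ell_pos {u : ℝ} (hu : u ≠ 0) : 0 < ell u := by unfold ell; positivity

theorem continuous_ell : Continuous ell := by
  unfold ell
  apply Continuous.div (by fun_prop) (by fun_prop)
  intro u; positivity

theorem contDiff_fF : ContDiff ℝ 1 fF := by
  unfold fF
  apply ContDiff.div (by fun_prop) (by fun_prop)
  intro u; positivity

theorem hasDerivAt_fF (u : ℝ) : HasDerivAt fF ((1 - u ^ 2) / (1 + u ^ 2) ^ 2) u := by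
  have h : (1 + u ^ 2) ≠ 0 := by positivity
  have h1 := (hasDerivAt_id u).div (((hasDerivAt_id u).pow 2).const_add 1) (by simpa using h)
  refine h1.congr_deriv ?_
  simp
  ring

/-- The coordinates, in the chart, of the tangential part of `e3`. -/
noncomputable def fEta (ψ : ℝ × ℝ → V) (a : ℝ × ℝ) : ℝ × ℝ :=
  (fP ψ a 3 / areaDensity ψ a, fQ ψ a 3 / areaDensity ψ a)

/-- The tangential part of `e3`. -/
noncomputable def fY (ψ : ℝ × ℝ → V) (a : ℝ × ℝ) : V := fderiv ℝ ψ a (fEta ψ a)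

/-- The coordinates, in the chart, of the vector field `X`. -/
noncomputable def fXi (ψ : ℝ × ℝ → V) (a : ℝ × ℝ) : ℝ × ℝ := fF (ψ a 3) • fEta ψ a

/-- First component of `W ξ`. -/
noncomputable def fM1 (ψ : ℝ × ℝ → V) (a : ℝ × ℝ) : ℝ := fF (ψ a 3) * fP ψ a 3

/-- Second component of `W ξ`. -/
noncomputable def fM2 (ψ : ℝ × ℝ → V) (a : ℝ × ℝ) : ℝ := fF (ψ a 3) * fQ ψ a 3

theorem fderiv_apply_eq (ψ : ℝ × ℝ → V) (a v : ℝ × ℝ) :
    fderiv ℝ ψ a v = v.1 • d1 ψ a + v.2 • d2 ψ a := by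
  have : v = v.1 • (1, 0) + v.2 • (0, 1) := by ext <;> simp
  conv_lhs => rw [this]
  rw [map_add, map_smul, map_smul]
  rfl

namespace IsPatch

variable {Ω : Set (ℝ × ℝ)} {ψ : ℝ × ℝ → V} {a : ℝ × ℝ}

theorem fP3 (ψ : ℝ × ℝ → V) (a : ℝ × ℝ) : fP ψ a 3 =
    (cG ψ a / areaDensity ψ a) * d1 ψ a 3 - (cF ψ a / areaDensity ψ a) * d2 ψ a 3 := rfl

theorem fQ3 (ψ : ℝ × ℝ → V) (a : ℝ × ℝ) : fQ ψ a 3 =
    (cE ψ a / areaDensity ψ a) * d2 ψ a 3 - (cF ψ a / areaDensity ψ a) * d1 ψ a 3 := rfl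

theorem lor_fderiv_self (h : IsPatch Ω ψ) (ha : a ∈ Ω) (v : ℝ × ℝ) :
    lor (fderiv ℝ ψ a v) (ψ a) = 0 := by
  rw [fderiv_apply_eq]; exact h.lor_span ha _ _

theorem lor_fY_d1 (h : IsPatch Ω ψ) (ha : a ∈ Ω) : lor (fY ψ a) (d1 ψ a) = d1 ψ a 3 := by
  have hW := h.area_pos ha
  have hW2 := h.area_sq ha
  unfold fY
  rw [fderiv_apply_eq]
  simp only [fEta, fP3, fQ3]
  rw [lor_add_left, lor_smul_left, lor_smul_left, lor_comm (d2 ψ a) (d1 ψ a)]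
  change _ * cE ψ a + _ * cF ψ a = _
  field_simp
  rw [hW2]
  ring

theorem lor_fY_d2 (h : IsPatch Ω ψ) (ha : a ∈ Ω) : lor (fY ψ a) (d2 ψ a) = d2 ψ a 3 := by
  have hW := h.area_pos ha
  have hW2 := h.area_sq ha
  unfold fY
  rw [fderiv_apply_eq]
  simp only [fEta, fP3, fQ3]
  rw [lor_add_left, lor_smul_left, lor_smul_left]
  change _ * cF ψ a + _ * cG ψ a = _
  field_simp
  rw [hW2]
  ring

theorem lor_fY (h : IsPatch Ω ψ) (ha : a ∈ Ω) (v : ℝ × ℝ) :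
    lor (fY ψ a) (fderiv ℝ ψ a v) = fderiv ℝ ψ a v 3 := by
  rw [fderiv_apply_eq, lor_add_right, lor_smul_right, lor_smul_right, h.lor_fY_d1 ha,
    h.lor_fY_d2 ha]
  rfl

theorem lor_fY_fY (h : IsPatch Ω ψ) (ha : a ∈ Ω) : lor (fY ψ a) (fY ψ a) = fY ψ a 3 :=
  h.lor_fY ha (fEta ψ a)

theorem fY3_nonneg (h : IsPatch Ω ψ) (ha : a ∈ Ω) : 0 ≤ fY ψ a 3 := by
  rw [← h.lor_fY_fY ha]
  exact lor_self_nonneg (h.mem a ha) (h.lor_fderiv_self ha _)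

theorem fY3_le (h : IsPatch Ω ψ) (ha : a ∈ Ω) : fY ψ a 3 ≤ 1 + ψ a 3 ^ 2 := by
  have hself := (h.mem a ha).1
  have hY0 : lor (fY ψ a) (ψ a) = 0 := h.lor_fderiv_self ha _
  have hz : lor (e3 + (ψ a 3) • ψ a) (ψ a) = 0 := by
    rw [lor_add_left, lor_smul_left, lor_e3, hself]; ring
  have hzz : lor (e3 + (ψ a 3) • ψ a) (e3 + (ψ a 3) • ψ a) = 1 + ψ a 3 ^ 2 := by
    simp only [lor_add_left, lor_add_right, lor_smul_left, lor_smul_right, lor_comm (ψ a) e3,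
      lor_e3, hself]
    simp [e3]
    ring
  have hYz : lor (fY ψ a) (e3 + (ψ a 3) • ψ a) = fY ψ a 3 := by
    rw [lor_add_right, lor_smul_right, hY0, lor_comm, lor_e3]; ring
  have hc := lor_cauchy (h.mem a ha) hY0 hz
  rw [hYz, hzz, h.lor_fY_fY ha] at hc
  have h0 := h.fY3_nonneg ha
  rcases h0.eq_or_lt with h1 | h1
  · rw [← h1]; positivity
  · rw [sq] at hc
    exact le_of_mul_le_mul_left hc h1

theorem lor_X_le (h : IsPatch Ω ψ) (ha : a ∈ Ω) :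
    lor (fderiv ℝ ψ a (fXi ψ a)) (fderiv ℝ ψ a (fXi ψ a)) ≤ 1 := by
  have h1 : fderiv ℝ ψ a (fXi ψ a) = fF (ψ a 3) • fY ψ a := by
    unfold fXi; rw [map_smul]; rfl
  rw [h1, lor_smul_left, lor_smul_right, h.lor_fY_fY ha]
  have h2 := h.fY3_le ha
  have h3 := h.fY3_nonneg ha
  set u := ψ a 3
  have hu : 0 < 1 + u ^ 2 := by positivity
  calc fF u * (fF u * fY ψ a 3) = (fF u) ^ 2 * fY ψ a 3 := by ring
    _ ≤ (fF u) ^ 2 * (1 + u ^ 2) := by gcongr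
    _ = u ^ 2 / (1 + u ^ 2) := by unfold fF; field_simp
    _ ≤ 1 := by rw [div_le_one hu]; linarith

theorem area_smul_fXi (h : IsPatch Ω ψ) (ha : a ∈ Ω) :
    areaDensity ψ a • fXi ψ a = (fM1 ψ a, fM2 ψ a) := by
  have hW := h.area_pos ha
  unfold fXi fEta fM1 fM2
  ext
  · simp; field_simp
  · simp; field_simp

theorem contDiffOn_coord {f : ℝ × ℝ → V} {n : WithTop ℕ∞} (hf : ContDiffOn ℝ n f Ω) (i : Fin 4) :
    ContDiffOn ℝ n (fun b => f b i) Ω :=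
  contDiffOn_pi.1 hf i

theorem fderiv_coord {f : ℝ × ℝ → V} (hf : DifferentiableAt ℝ f a) (i : Fin 4) (e : ℝ × ℝ) :
    fderiv ℝ (fun b => f b i) a e = fderiv ℝ f a e i := by
  have h1 := (ContinuousLinearMap.proj (R := ℝ) (φ := fun _ : Fin 4 => ℝ) i).hasFDerivAt.comp a
    hf.hasFDerivAt
  have h2 : fderiv ℝ (fun b => f b i) a = _ := h1.fderiv
  rw [h2]; rfl

theorem contDiffOn_fM1 (h : IsPatch Ω ψ) : ContDiffOn ℝ 1 (fM1 ψ) Ω :=
  (contDiff_fF.comp_contDiffOn (contDiffOn_coord (h.contDiffOn.of_le (by norm_num)) 3)).mul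
    (contDiffOn_coord h.contDiffOn_fP 3)

theorem contDiffOn_fM2 (h : IsPatch Ω ψ) : ContDiffOn ℝ 1 (fM2 ψ) Ω :=
  (contDiff_fF.comp_contDiffOn (contDiffOn_coord (h.contDiffOn.of_le (by norm_num)) 3)).mul
    (contDiffOn_coord h.contDiffOn_fQ 3)

theorem fderiv_fF_coord (h : IsPatch Ω ψ) (ha : a ∈ Ω) :
    HasFDerivAt (fun b => fF (ψ b 3)) (((1 - ψ a 3 ^ 2) / (1 + ψ a 3 ^ 2) ^ 2) •
      fderiv ℝ (fun b => ψ b 3) a) a := by
  have hd : DifferentiableAt ℝ (fun b => ψ b 3) a :=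
    ((contDiffOn_coord h.contDiffOn 3).differentiableOn (by norm_num)).differentiableAt
      (h.isOpen.mem_nhds ha)
  exact (hasDerivAt_fF (ψ a 3)).comp_hasFDerivAt a hd.hasFDerivAt

theorem div_ge (h : IsPatch Ω ψ) (hm : IsMin Ω ψ) (ha : a ∈ Ω) :
    areaDensity ψ a * ell (ψ a 3) ≤
      fderiv ℝ (fM1 ψ) a (1, 0) + fderiv ℝ (fM2 ψ) a (0, 1) := by
  have hW := h.area_pos ha
  have hF := h.fderiv_fF_coord ha
  have hP : DifferentiableAt ℝ (fun b => fP ψ b 3) a :=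
    ((contDiffOn_coord h.contDiffOn_fP 3).differentiableOn (by norm_num)).differentiableAt
      (h.isOpen.mem_nhds ha)
  have hQ : DifferentiableAt ℝ (fun b => fQ ψ b 3) a :=
    ((contDiffOn_coord h.contDiffOn_fQ 3).differentiableOn (by norm_num)).differentiableAt
      (h.isOpen.mem_nhds ha)
  have k1 : fderiv ℝ (fM1 ψ) a = _ := (hF.mul hP.hasFDerivAt).fderiv
  have k2 : fderiv ℝ (fM2 ψ) a = _ := (hF.mul hQ.hasFDerivAt).fderiv
  rw [k1, k2]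
  simp only [add_apply, smul_apply, smul_eq_mul]
  rw [fderiv_coord (h.diff_fP ha), fderiv_coord (h.diff_fQ ha), fderiv_coord (h.diff ha),
    fderiv_coord (h.diff ha)]
  have hdiv := congrFun (h.div_identity hm ha) 3
  simp only [Pi.add_apply, Pi.smul_apply, smul_eq_mul] at hdiv
  have hY3 : areaDensity ψ a * fY ψ a 3 = fP ψ a 3 * d1 ψ a 3 + fQ ψ a 3 * d2 ψ a 3 := by
    unfold fY
    rw [fderiv_apply_eq]
    simp only [fEta, Pi.add_apply, Pi.smul_apply, smul_eq_mul]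
    field_simp
  change _ ≤ fF (ψ a 3) * fderiv ℝ (fP ψ) a (1, 0) 3 +
    fP ψ a 3 * ((1 - ψ a 3 ^ 2) / (1 + ψ a 3 ^ 2) ^ 2 * d1 ψ a 3) +
    (fF (ψ a 3) * fderiv ℝ (fQ ψ) a (0, 1) 3 +
    fQ ψ a 3 * ((1 - ψ a 3 ^ 2) / (1 + ψ a 3 ^ 2) ^ 2 * d2 ψ a 3))
  set u := ψ a 3 with hu
  set W := areaDensity ψ a with hWd
  have e1 : fF u * fderiv ℝ (fP ψ) a (1, 0) 3 + fP ψ a 3 * ((1 - u ^ 2) / (1 + u ^ 2) ^ 2 * d1 ψ a 3) +
      (fF u * fderiv ℝ (fQ ψ) a (0, 1) 3 + fQ ψ a 3 * ((1 - u ^ 2) / (1 + u ^ 2) ^ 2 * d2 ψ a 3)) =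
      W * (fF u * (2 * u) + (1 - u ^ 2) / (1 + u ^ 2) ^ 2 * fY ψ a 3) := by
    linear_combination fF u * hdiv - ((1 - u ^ 2) / (1 + u ^ 2) ^ 2) * hY3
  rw [e1]
  apply mul_le_mul_of_nonneg_left _ hW.le
  have y0 := h.fY3_nonneg ha
  have y1 := h.fY3_le ha
  rw [← hu] at y1
  set y := fY ψ a 3
  have hpos : 0 < 1 + u ^ 2 := by positivity
  unfold ell fF
  have key : u ^ 2 / (1 + u ^ 2) = (u ^ 2 * (1 + u ^ 2)) / (1 + u ^ 2) ^ 2 := by
    field_simp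
  have key2 : u / (1 + u ^ 2) * (2 * u) + (1 - u ^ 2) / (1 + u ^ 2) ^ 2 * y =
      (2 * u ^ 2 * (1 + u ^ 2) + (1 - u ^ 2) * y) / (1 + u ^ 2) ^ 2 := by
    field_simp
  rw [key, key2]
  apply div_le_div_of_nonneg_right _ (by positivity)
  rcases le_total (u ^ 2) 1 with hc | hc
  · have : 0 ≤ (1 - u ^ 2) * y := mul_nonneg (by linarith) y0
    nlinarith [sq_nonneg u]
  · have : (u ^ 2 - 1) * y ≤ (u ^ 2 - 1) * (1 + u ^ 2) :=
      mul_le_mul_of_nonneg_left y1 (by linarith)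
    nlinarith [sq_nonneg u]

end IsPatch

end Pool.Agent.MP_41c3fc_gt
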