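import Mathlib
import Pool.Agent.MP_41c3fc_gt.Action
import Pool.Agent.MP_41c3fc_gt.Field

set_option autoImplicit false

open MeasureTheory Set Filter Topology
open scoped ENNReal NNReal

namespace Pool.Agent.MP_41c3fc_gt

/-- `v` is tangent to `S` at `x`. -/
def IsTan (S : Set V) (x v : V) : Prop :=
  ∃ c : ℝ → V, HasDerivAt c v 0 ∧ c 0 = x ∧ ∀ᶠ t in 𝓝 0, c t ∈ S

theorem IsLocalParam.diff {S : Set V} {Ω : Set (ℝ × ℝ)} {ψ : ℝ × ℝ → V} (h : IsLocalParam S Ω ψ)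
    {a : ℝ × ℝ} (ha : a ∈ Ω) : DifferentiableAt ℝ ψ a :=
  (h.contDiffOn.differentiableOn (by norm_num)).differentiableAt (h.isOpen.mem_nhds ha)

theorem IsLocalParam.isTan {S : Set V} {Ω : Set (ℝ × ℝ)} {ψ : ℝ × ℝ → V}
    (h : IsLocalParam S Ω ψ) {a : ℝ × ℝ} (ha : a ∈ Ω) (w : ℝ × ℝ) :
    IsTan S (ψ a) (fderiv ℝ ψ a w) := by
  have hline : HasDerivAt (fun t : ℝ => a + t • w) w 0 := by
    simpa using ((hasDerivAt_id (0 : ℝ)).smul_const w).const_add a
  have h0 : a + (0 : ℝ) • w = a := by simp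
  refine ⟨fun t => ψ (a + t • w), ?_, ?_, ?_⟩
  · have hd : HasFDerivAt ψ (fderiv ℝ ψ a) (a + (0 : ℝ) • w) := by
      rw [h0]; exact (h.diff ha).hasFDerivAt
    exact hd.comp_hasDerivAt (0 : ℝ) hline
  · simp
  · have hc : ContinuousAt (fun t : ℝ => a + t • w) 0 := hline.continuousAt
    have hn : Ω ∈ 𝓝 (a + (0 : ℝ) • w) := by rw [h0]; exact h.isOpen.mem_nhds ha
    filter_upwards [hc hn] with t ht
    exact h.mem ht

theorem IsLocalParam.isTan_iff {S : Set V} {Ω : Set (ℝ × ℝ)} {ψ : ℝ × ℝ → V}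
    (h : IsLocalParam S Ω ψ) {a : ℝ × ℝ} (ha : a ∈ Ω) {v : V} :
    IsTan S (ψ a) v ↔ ∃ w, fderiv ℝ ψ a w = v := by
  constructor
  swap
  · rintro ⟨w, rfl⟩
    exact h.isTan ha w
  rintro ⟨c, hc, hc0, hcS⟩
  set L := fderiv ℝ ψ a with hL
  have hLd : HasFDerivAt ψ L a := (h.diff ha).hasFDerivAt
  obtain ⟨K, hK, hanti⟩ := LinearMap.exists_antilipschitzWith (L : ℝ × ℝ →ₗ[ℝ] V)
    (LinearMap.ker_eq_bot.2 (h.immersion a ha))
  have hlow : ∀ w, ‖w‖ ≤ K * ‖L w‖ := by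
    intro w
    have := hanti.le_mul_dist w 0
    simpa [dist_zero_right] using this
  have hKpos : (0 : ℝ) < K := by exact_mod_cast hK
  -- for small t choose b t
  have hcc : Tendsto c (𝓝 0) (𝓝 (ψ a)) := hc0 ▸ hc.continuousAt.tendsto
  have key : ∀ r > 0, ∀ᶠ t in 𝓝 (0 : ℝ), ∃ b ∈ Ω, ‖b - a‖ < r ∧ ψ b = c t := by
    intro r hr
    obtain ⟨η, hη, hη2⟩ := h.exists_open (U := Ω ∩ Metric.ball a r) inter_subset_left
      (h.isOpen.inter Metric.isOpen_ball) ⟨ha, Metric.mem_ball_self hr⟩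
    filter_upwards [hcS, (Metric.tendsto_nhds.1 hcc) η hη] with t h1 h2
    obtain ⟨b, hb, hb2⟩ := hη2 (c t) h1 (by rw [← dist_eq_norm]; exact h2)
    exact ⟨b, hb.1, by rw [← dist_eq_norm]; exact hb.2, hb2⟩
  -- v is in the closure of the range of L
  have hcl : v ∈ closure (range L) := by
    rw [Metric.mem_closure_iff]
    intro ε hε
    -- little o estimates
    set ε' : ℝ := min (1 / (2 * (K : ℝ))) (ε / (4 * (K : ℝ) * (‖v‖ + 1))) with hε'
    have hε'pos : 0 < ε' := lt_min (by positivity) (by positivity)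
    have ho : ∀ᶠ b in 𝓝 a, ‖ψ b - ψ a - L (b - a)‖ ≤ ε' * ‖b - a‖ :=
      (hasFDerivAt_iff_isLittleO.1 hLd).def hε'pos
    obtain ⟨r, hr, hr2⟩ := Metric.eventually_nhds_iff.1 ho
    have ho2 : ∀ᶠ t in 𝓝 (0 : ℝ), ‖c t - c 0 - (t - 0) • v‖ ≤ (min 1 (ε / 4)) * ‖t - 0‖ :=
      (hasDerivAt_iff_isLittleO.1 hc).def (lt_min one_pos (by positivity))
    have hall := (key r hr).and ho2
    obtain ⟨τ, hτ, hτ2⟩ := Metric.eventually_nhds_iff.1 hall
    obtain ⟨⟨b, hb, hbr, hbc⟩, h2⟩ := hτ2 (y := τ / 2) (by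
      rw [Real.dist_eq, sub_zero, abs_of_pos (by linarith)]; linarith)
    set t := τ / 2 with ht
    have htpos : 0 < t := by linarith
    have h1 := hr2 (y := b) (by rw [dist_eq_norm]; exact hbr)
    rw [hbc] at h1
    rw [hc0, sub_zero, Real.norm_eq_abs, abs_of_pos htpos] at h2
    -- bound of b - a
    have e1 : ‖L (b - a)‖ ≤ ‖c t - ψ a‖ + ε' * ‖b - a‖ := by
      calc ‖L (b - a)‖ = ‖(c t - ψ a) - (c t - ψ a - L (b - a))‖ := by congr 1; abel
        _ ≤ ‖c t - ψ a‖ + ‖c t - ψ a - L (b - a)‖ := norm_sub_le _ _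
        _ ≤ _ := by linarith
    have e2 : ‖c t - ψ a‖ ≤ t * (‖v‖ + 1) := by
      calc ‖c t - ψ a‖ = ‖t • v + (c t - ψ a - t • v)‖ := by congr 1; abel
        _ ≤ ‖t • v‖ + ‖c t - ψ a - t • v‖ := norm_add_le _ _
        _ ≤ t * ‖v‖ + 1 * t := by
          rw [norm_smul, Real.norm_eq_abs, abs_of_pos htpos]
          have : min 1 (ε / 4) * t ≤ 1 * t :=
            mul_le_mul_of_nonneg_right (min_le_left _ _) htpos.le
          linarith
        _ = t * (‖v‖ + 1) := by ring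
    have e3 : ‖b - a‖ ≤ 2 * K * (t * (‖v‖ + 1)) := by
      have h3 := hlow (b - a)
      have h4 : K * (ε' * ‖b - a‖) ≤ 1 / 2 * ‖b - a‖ := by
        have : K * ε' ≤ 1 / 2 := by
          calc K * ε' ≤ K * (1 / (2 * K)) := mul_le_mul_of_nonneg_left (min_le_left _ _) hKpos.le
            _ = 1 / 2 := by field_simp
        nlinarith [norm_nonneg (b - a)]
      have h5 : K * ‖L (b - a)‖ ≤ K * (t * (‖v‖ + 1)) + K * (ε' * ‖b - a‖) := by
        rw [← mul_add]
        exact mul_le_mul_of_nonneg_left (by linarith) hKpos.le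
      linarith
    refine ⟨L ((1 / t) • (b - a)), mem_range_self _, ?_⟩
    rw [dist_eq_norm]
    have e4 : v - L ((1 / t) • (b - a)) =
        (1 / t) • ((c t - ψ a - L (b - a)) - (c t - ψ a - t • v)) := by
      rw [map_smul, smul_sub, smul_sub, smul_sub (1 / t) (c t - ψ a) (t • v), smul_smul,
        one_div, inv_mul_cancel₀ htpos.ne', one_smul]
      abel
    rw [e4, norm_smul, Real.norm_eq_abs, abs_of_pos (by positivity)]
    have e5 : ‖(c t - ψ a - L (b - a)) - (c t - ψ a - t • v)‖ ≤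
        ε' * (2 * K * (t * (‖v‖ + 1))) + (ε / 4) * t := by
      refine (norm_sub_le _ _).trans (add_le_add (h1.trans ?_) (h2.trans ?_))
      · exact mul_le_mul_of_nonneg_left e3 hε'pos.le
      · exact mul_le_mul_of_nonneg_right (min_le_right _ _) htpos.le
    have e6 : ε' * (2 * K * (t * (‖v‖ + 1))) ≤ (ε / 2) * t := by
      calc ε' * (2 * K * (t * (‖v‖ + 1))) ≤
          (ε / (4 * K * (‖v‖ + 1))) * (2 * K * (t * (‖v‖ + 1))) :=
            mul_le_mul_of_nonneg_right (min_le_right _ _) (by positivity)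
        _ = (ε / 2) * t := by field_simp; ring
    calc 1 / t * ‖(c t - ψ a - L (b - a)) - (c t - ψ a - t • v)‖
        ≤ 1 / t * ((ε / 2) * t + (ε / 4) * t) :=
          mul_le_mul_of_nonneg_left (by linarith) (by positivity)
      _ = 3 / 4 * ε := by field_simp; ring
      _ < ε := by linarith
  have hclosed : IsClosed (range L) := by
    have : (range L) = ((LinearMap.range (L : ℝ × ℝ →ₗ[ℝ] V) : Submodule ℝ V) : Set V) := by
      ext; simp
    rw [this]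
    exact Submodule.closed_of_finiteDimensional _
  rw [hclosed.closure_eq] at hcl
  exact hcl

theorem IsTan.act {S : Set V} {g : GL4} (hg : Pres S g) {x v : V} (h : IsTan S x v) :
    IsTan S (act g x) (act g v) := by
  obtain ⟨c, hc, hc0, hcS⟩ := h
  refine ⟨fun t => MP_41c3fc_gt.act g (c t), (actL g).hasFDerivAt.comp_hasDerivAt 0 hc,
    by simp only [hc0], ?_⟩
  filter_upwards [hcS] with t ht
  exact (hg.mem_iff _).2 ht

theorem isTan_act_iff {S : Set V} {g : GL4} (hg : Pres S g) {x v : V} :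
    IsTan S (act g x) v ↔ IsTan S x (act g⁻¹ v) := by
  constructor
  · intro h
    have := h.act hg.inv
    rwa [act_inv_act] at this
  · intro h
    have := h.act hg
    rwa [act_act_inv] at this

open Classical in
/-- The tangential part of `e3` along `S`. -/
noncomputable def gradX (S : Set V) (x : V) : V :=
  if h : ∃ Y, IsTan S x Y ∧ ∀ v, IsTan S x v → lor Y v = v 3 then h.choose else 0

theorem gradX_eq {S : Set V} (hS : IsSurf S) {x Y : V} (hx : x ∈ S) (hY : IsTan S x Y)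
    (hY2 : ∀ v, IsTan S x v → lor Y v = v 3) : gradX S x = Y := by
  have hex : ∃ Y, IsTan S x Y ∧ ∀ v, IsTan S x v → lor Y v = v 3 := ⟨Y, hY, hY2⟩
  have h1 : gradX S x = hex.choose := by unfold gradX; rw [dif_pos hex]
  obtain ⟨h2, h3⟩ := hex.choose_spec
  rw [← h1] at h2 h3
  obtain ⟨Ω, ψ, h, a, ha, rfl⟩ := hS.2 x hx
  have hd : IsTan S (ψ a) (gradX S (ψ a) - Y) := by
    obtain ⟨w1, hw1⟩ := (h.isTan_iff ha).1 h2
    obtain ⟨w2, hw2⟩ := (h.isTan_iff ha).1 hY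
    exact (h.isTan_iff ha).2 ⟨w1 - w2, by rw [map_sub, hw1, hw2]⟩
  have hp := h.isPatch hS.1
  have h4 : lor (gradX S (ψ a) - Y) (ψ a) = 0 := by
    obtain ⟨w, hw⟩ := (h.isTan_iff ha).1 hd
    rw [← hw]
    exact hp.lor_fderiv_self ha w
  have h5 : lor (gradX S (ψ a) - Y) (gradX S (ψ a) - Y) = 0 := by
    rw [lor_sub_left, h3 _ hd, hY2 _ hd]; ring
  have := eq_zero_of_lor_self (hp.mem a ha) h4 h5.le
  exact sub_eq_zero.1 this

/-- The vector field `X` along `S`. -/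
noncomputable def fieldX (S : Set V) (x : V) : V := fF (x 3) • gradX S x

theorem gradX_chart {S : Set V} (hS : IsSurf S) {Ω : Set (ℝ × ℝ)} {ψ : ℝ × ℝ → V}
    (h : IsLocalParam S Ω ψ) {a : ℝ × ℝ} (ha : a ∈ Ω) : gradX S (ψ a) = fY ψ a := by
  apply gradX_eq hS (h.mem ha) (h.isTan ha _)
  intro v hv
  obtain ⟨w, hw⟩ := (h.isTan_iff ha).1 hv
  rw [← hw]
  exact (h.isPatch hS.1).lor_fY ha w

theorem fieldX_chart {S : Set V} (hS : IsSurf S) {Ω : Set (ℝ × ℝ)} {ψ : ℝ × ℝ → V}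
    (h : IsLocalParam S Ω ψ) {a : ℝ × ℝ} (ha : a ∈ Ω) :
    fieldX S (ψ a) = fderiv ℝ ψ a (fXi ψ a) := by
  unfold fieldX fXi
  rw [gradX_chart hS h ha, map_smul]
  rfl

theorem gradX_act {S : Set V} (hS : IsSurf S) {g : GL4} (hg : Pres S g)
    (hg3 : ∀ v, act g v 3 = v 3) {x : V} (hx : x ∈ S) :
    gradX S (act g x) = act g (gradX S x) := by
  obtain ⟨Ω, ψ, h, a, ha, rfl⟩ := hS.2 x hx
  have h1 := gradX_chart hS h ha
  have hgx := (hg.mem_iff _).2 hx
  apply gradX_eq hS hgx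
  · rw [h1]; exact (h.isTan ha _).act hg
  · intro v hv
    rw [isTan_act_iff hg] at hv
    obtain ⟨w, hw⟩ := (h.isTan_iff ha).1 hv
    have h2 : v = act g (fderiv ℝ ψ a w) := by rw [hw, act_act_inv]
    rw [h2, hg.lor_eq, h1, hg3]
    exact (h.isPatch hS.1).lor_fY ha w

theorem fieldX_act {S : Set V} (hS : IsSurf S) {g : GL4} (hg : Pres S g)
    (hg3 : ∀ v, act g v 3 = v 3) {x : V} (hx : x ∈ S) :
    fieldX S (act g x) = act g (fieldX S x) := by
  unfold fieldX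
  rw [gradX_act hS hg hg3 hx, hg3, act_smul]

theorem continuousOn_of_charts {E : Type*} [TopologicalSpace E] {S : Set V} (hS : IsSurf S)
    {f : V → E} (hf : ∀ Ω ψ, IsLocalParam S Ω ψ → ContinuousOn (fun a => f (ψ a)) Ω) :
    ContinuousOn f S := by
  intro x hx
  obtain ⟨Ω, ψ, h, a, ha, rfl⟩ := hS.2 x hx
  have hca : ContinuousAt (fun a => f (ψ a)) a := (hf Ω ψ h).continuousAt (h.isOpen.mem_nhds ha)
  intro N hN
  have h1 : (fun a => f (ψ a)) ⁻¹' N ∈ 𝓝 a := hca hN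
  obtain ⟨U, hU, hUo, haU⟩ := mem_nhds_iff.1 (Filter.inter_mem h1 (h.isOpen.mem_nhds ha))
  obtain ⟨O, hO, hOe⟩ := h.openMap U (fun b hb => (hU hb).2) hUo
  have hm : ψ a ∈ S ∩ O := hOe ▸ mem_image_of_mem ψ haU
  rw [mem_map]
  refine Filter.mem_of_superset (inter_mem_nhdsWithin S (hO.mem_nhds hm.2)) ?_
  rw [← hOe]
  rintro y ⟨b, hb, rfl⟩
  exact (hU hb).1

theorem continuousOn_fXi {Ω : Set (ℝ × ℝ)} {ψ : ℝ × ℝ → V} (h : IsPatch Ω ψ) :
    ContinuousOn (fXi ψ) Ω := by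
  have e : ∀ b ∈ Ω, fXi ψ b = (areaDensity ψ b)⁻¹ • (fM1 ψ b, fM2 ψ b) := by
    intro b hb
    rw [← h.area_smul_fXi hb, smul_smul, inv_mul_cancel₀ (h.area_pos hb).ne', one_smul]
  refine ContinuousOn.congr ?_ e
  exact (h.contDiffOn_area.continuousOn.inv₀ fun b hb => (h.area_pos hb).ne').smul
    (h.contDiffOn_fM1.continuousOn.prodMk h.contDiffOn_fM2.continuousOn)

theorem continuousOn_fieldX {S : Set V} (hS : IsSurf S) : ContinuousOn (fieldX S) S := by
  apply continuousOn_of_charts hS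
  intro Ω ψ h
  have hp := h.isPatch hS.1
  have h1 : ContinuousOn (fun a => fderiv ℝ ψ a (fXi ψ a)) Ω :=
    (h.contDiffOn.continuousOn_fderiv_of_isOpen h.isOpen (by norm_num)).clm_apply
      (continuousOn_fXi hp)
  exact h1.congr fun a ha => fieldX_chart hS h ha

end Pool.Agent.MP_41c3fc_gt
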