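import Mathlib
import Pool.Agent.MP_41c3fc_gt.Tangent

set_option autoImplicit false

open MeasureTheory Set Filter Topology
open scoped ENNReal NNReal

namespace Pool.Agent.MP_41c3fc_gt

/-- `f` is `ε`-Lipschitz on `S` for the intrinsic distance. -/
def GLip (S : Set V) (f : V → ℝ) (ε : ℝ) : Prop :=
  ∀ x ∈ S, ∀ y ∈ S, ∀ D : ℝ, 0 ≤ D → intrinsicDist S x y ≤ ENNReal.ofReal D → |f x - f y| ≤ ε * D

theorem GLip.deriv_le {S : Set V} {f : V → ℝ} {ε : ℝ} (hf : GLip S f ε) (hε : 0 ≤ ε)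
    {Ω : Set (ℝ × ℝ)} {ψ : ℝ × ℝ → V} (h : IsLocalParam S Ω ψ) {a : ℝ × ℝ} (ha : a ∈ Ω)
    (hd : DifferentiableAt ℝ (fun b => f (ψ b)) a) (v : ℝ × ℝ) :
    |fderiv ℝ (fun b => f (ψ b)) a v| ≤ ε * rn (fderiv ℝ ψ a v) := by
  have hψ1 : ContDiffOn ℝ 1 ψ Ω := h.contDiffOn.of_le (by norm_num)
  have hcont : ContinuousOn (fun b => rn (fderiv ℝ ψ b v)) Ω :=
    continuous_rn.comp_continuousOn
      ((hψ1.continuousOn_fderiv_of_isOpen h.isOpen le_rfl).clm_apply continuousOn_const)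
  have hca : ContinuousAt (fun b => rn (fderiv ℝ ψ b v)) a :=
    hcont.continuousAt (h.isOpen.mem_nhds ha)
  have hmain : ∀ M, rn (fderiv ℝ ψ a v) < M → |fderiv ℝ (fun b => f (ψ b)) a v| ≤ ε * M := by
    intro M hM
    have hMpos : 0 ≤ M := (rn_nonneg _).trans hM.le
    have hev : ∀ᶠ b in 𝓝 a, rn (fderiv ℝ ψ b v) < M ∧ b ∈ Ω :=
      (hca.eventually_lt continuousAt_const hM).and (h.isOpen.mem_nhds ha)
    obtain ⟨r, hr, hr2⟩ := Metric.eventually_nhds_iff.1 hev
    have hline : HasDerivAt (fun t : ℝ => a + t • v) v 0 := by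
      simpa using ((hasDerivAt_id (0 : ℝ)).smul_const v).const_add a
    have h0 : a + (0 : ℝ) • v = a := by simp
    have hfd : HasFDerivAt (fun b => f (ψ b)) (fderiv ℝ (fun b => f (ψ b)) a)
        (a + (0 : ℝ) • v) := by
      rw [h0]; exact hd.hasFDerivAt
    have hdd : HasDerivAt (fun t : ℝ => f (ψ (a + t • v))) (fderiv ℝ (fun b => f (ψ b)) a v) 0 := by
      have h1 := HasFDerivAt.comp_hasDerivAt (l := fun b => f (ψ b)) (f := fun t : ℝ => a + t • v)
        (0 : ℝ) hfd hline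
      exact h1
    have := hdd.le_of_lip' (C := ε * M) (by positivity) ?_
    · rwa [Real.norm_eq_abs] at this
    have hcl : ContinuousAt (fun t : ℝ => a + t • v) 0 := hline.continuousAt
    have hn : Metric.ball a r ∈ 𝓝 (a + (0 : ℝ) • v) := by rw [h0]; exact Metric.ball_mem_nhds a hr
    filter_upwards [hcl hn] with t ht
    have ht' : a + t • v ∈ Metric.ball a r := ht
    rw [Real.norm_eq_abs, Real.norm_eq_abs, sub_zero, h0]
    have hdist : intrinsicDist S (ψ a) (ψ (a + t • v)) ≤ ENNReal.ofReal (|t| * M) := by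
      apply dist_chart_le h.isOpen hψ1 (fun b hb => h.mem hb) (convex_ball a r)
        (fun b hb => (hr2 hb).2) (Metric.mem_ball_self hr) ht'
      intro x hx
      rw [add_sub_cancel_left, map_smul, rn_smul]
      exact mul_le_mul_of_nonneg_left (hr2 hx).1.le (abs_nonneg t)
    have := hf (ψ a) (h.mem ha) (ψ (a + t • v)) (h.mem (hr2 ht').2) (|t| * M) (by positivity) hdist
    rw [abs_sub_comm] at this
    linarith
  have hlim : Tendsto (fun M => ε * M) (𝓝[>] (rn (fderiv ℝ ψ a v)))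
      (𝓝 (ε * rn (fderiv ℝ ψ a v))) :=
    (Continuous.tendsto (by fun_prop) _).mono_left nhdsWithin_le_nhds
  refine ge_of_tendsto hlim ?_
  filter_upwards [self_mem_nhdsWithin] with M hM
  exact hmain M hM

theorem GLip.continuousOn {S : Set V} (hS : IsSurf S) {f : V → ℝ} {ε : ℝ} (hf : GLip S f ε)
    (hε : 0 ≤ ε) : ContinuousOn f S := by
  intro x hx
  rw [ContinuousWithinAt, Metric.tendsto_nhdsWithin_nhds]
  intro e he
  obtain ⟨η, hη, hη2⟩ := dist_lt_of_near hS hx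
    (ENNReal.ofReal_pos.2 (show 0 < e / (ε + 1) / 2 by positivity))
  refine ⟨η, hη, fun y hy hyx => ?_⟩
  have h1 := hη2 y hy (by rw [← dist_eq_norm]; exact hyx)
  have h2 := hf x hx y hy (e / (ε + 1) / 2) (by positivity) h1.le
  rw [_root_.dist_comm, Real.dist_eq]
  refine lt_of_le_of_lt h2 ?_
  have : ε * (e / (ε + 1) / 2) ≤ e / 2 := by
    rw [← mul_div_assoc, ← mul_div_assoc]
    gcongr
    rw [div_le_iff₀ (by linarith)]
    nlinarith
  linarith

theorem GLip.lipschitzOnWith {S : Set V} {f : V → ℝ} {ε : ℝ} (hf : GLip S f ε) (hε : 0 ≤ ε)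
    {Ω : Set (ℝ × ℝ)} {ψ : ℝ × ℝ → V} (h : IsLocalParam S Ω ψ) {a₀ : ℝ × ℝ} {ρ : ℝ}
    (hρ : Metric.closedBall a₀ ρ ⊆ Ω) :
    ∃ C : ℝ≥0, LipschitzOnWith C (fun b => f (ψ b)) (Metric.ball a₀ ρ) := by
  obtain ⟨C, hC, hC2⟩ := exists_lipschitz_chart h.isOpen (h.contDiffOn.of_le (by norm_num))
    (fun a ha => h.mem ha) hρ
  refine ⟨(ε * C).toNNReal, LipschitzOnWith.of_dist_le_mul ?_⟩
  intro a ha b hb
  have ha' := Metric.ball_subset_closedBall ha
  have hb' := Metric.ball_subset_closedBall hb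
  have h1 := hf _ (h.mem (hρ ha')) _ (h.mem (hρ hb')) (C * ‖b - a‖) (by positivity)
    (hC2 a ha' b hb')
  rw [Real.dist_eq, dist_eq_norm, Real.coe_toNNReal _ (by positivity), norm_sub_rev]
  linarith

/-- Intrinsic distance to an orbit. -/
noncomputable def orbDist (S : Set V) (Γ : Subgroup GL4) (p x : V) : ℝ≥0∞ :=
  ⨅ g : Γ, intrinsicDist S (act (g : GL4) p) x

/-- The invariant cutoff functions. -/
noncomputable def chi (S : Set V) (Γ : Subgroup GL4) (p : V) (R : ℝ) (x : V) : ℝ :=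
  (1 - orbDist S Γ p x / ENNReal.ofReal R).toReal

theorem chi_nonneg (S : Set V) (Γ : Subgroup GL4) (p : V) (R : ℝ) (x : V) : 0 ≤ chi S Γ p R x :=
  ENNReal.toReal_nonneg

theorem chi_le_one (S : Set V) (Γ : Subgroup GL4) (p : V) (R : ℝ) (x : V) : chi S Γ p R x ≤ 1 := by
  unfold chi
  have h : (1 - orbDist S Γ p x / ENNReal.ofReal R) ≤ 1 := tsub_le_self
  have := ENNReal.toReal_mono ENNReal.one_ne_top h
  simpa using this

section

variable {S : Set V} {Γ : Subgroup GL4} (hpres : ∀ g ∈ Γ, Pres S g)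
include hpres

theorem orbDist_act_le (p x : V) {h : GL4} (hh : h ∈ Γ) :
    orbDist S Γ p (act h x) ≤ orbDist S Γ p x := by
  refine le_iInf fun g => ?_
  refine (iInf_le _ (⟨h, hh⟩ * g)).trans ?_
  change intrinsicDist S (act (h * (g : GL4)) p) (act h x) ≤ _
  rw [act_mul, dist_act (hpres h hh)]

theorem orbDist_act (p x : V) {h : GL4} (hh : h ∈ Γ) :
    orbDist S Γ p (act h x) = orbDist S Γ p x := by
  apply le_antisymm (orbDist_act_le hpres p x hh)
  have := orbDist_act_le hpres p (act h x) (Γ.inv_mem hh)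
  rwa [act_inv_act] at this

theorem chi_act (p : V) (R : ℝ) (x : V) {h : GL4} (hh : h ∈ Γ) :
    chi S Γ p R (act h x) = chi S Γ p R x := by
  unfold chi
  rw [orbDist_act hpres p x hh]

theorem exists_of_chi_pos {p : V} {R : ℝ} {x : V} (hR : 0 < R) (h : 0 < chi S Γ p R x) :
    ∃ g ∈ Γ, intrinsicDist S p (act g x) ≤ ENNReal.ofReal R := by
  have h1 : (1 - orbDist S Γ p x / ENNReal.ofReal R) ≠ 0 := by
    intro h0
    unfold chi at h
    rw [h0] at h
    simp at h
  have h2 : orbDist S Γ p x / ENNReal.ofReal R < 1 := by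
    by_contra hcon
    push Not at hcon
    exact h1 (tsub_eq_zero_of_le hcon)
  have hR' : ENNReal.ofReal R ≠ 0 := by simpa using hR
  rw [ENNReal.div_lt_iff (Or.inl hR') (Or.inl ENNReal.ofReal_ne_top), one_mul] at h2
  unfold orbDist at h2
  obtain ⟨g, hg⟩ := iInf_lt_iff.1 h2
  refine ⟨(g : GL4)⁻¹, Γ.inv_mem g.2, ?_⟩
  have := dist_act (hpres _ (Γ.inv_mem g.2)) (act (g : GL4) p) x
  rw [act_inv_act] at this
  rw [this]
  exact hg.le

end

theorem chi_self {S : Set V} {Γ : Subgroup GL4} {p : V} (hp : p ∈ S) (R : ℝ) :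
    chi S Γ p R p = 1 := by
  have h : orbDist S Γ p p = 0 := by
    apply le_antisymm _ zero_le
    refine (iInf_le _ 1).trans ?_
    change intrinsicDist S (act 1 p) p ≤ 0
    rw [act_one, dist_self hp]
  unfold chi
  rw [h]
  simp

theorem chi_mono {S : Set V} {Γ : Subgroup GL4} {p x : V} {R R' : ℝ} (h : R ≤ R') :
    chi S Γ p R x ≤ chi S Γ p R' x := by
  unfold chi
  apply ENNReal.toReal_mono (ne_top_of_le_ne_top ENNReal.one_ne_top tsub_le_self)
  apply tsub_le_tsub_left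
  exact ENNReal.div_le_div_left (ENNReal.ofReal_le_ofReal h) _

theorem chi_lip_aux {S : Set V} {Γ : Subgroup GL4} (p : V) {R : ℝ} (hR : 0 < R) {x y : V} {D : ℝ}
    (hD : 0 ≤ D) (h : intrinsicDist S x y ≤ ENNReal.ofReal D) :
    chi S Γ p R x ≤ chi S Γ p R y + D / R := by
  have h1 : orbDist S Γ p y ≤ orbDist S Γ p x + ENNReal.ofReal D := by
    unfold orbDist
    rw [ENNReal.iInf_add]
    refine le_iInf fun g => (iInf_le _ g).trans ((dist_triangle' _ x _).trans ?_)
    gcongr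
  have hR' : ENNReal.ofReal R ≠ 0 := by simpa using hR
  have h2 : orbDist S Γ p y / ENNReal.ofReal R ≤
      orbDist S Γ p x / ENNReal.ofReal R + ENNReal.ofReal (D / R) := by
    rw [ENNReal.ofReal_div_of_pos hR, ← ENNReal.add_div]
    exact ENNReal.div_le_div_right h1 _
  have h3 : 1 - orbDist S Γ p x / ENNReal.ofReal R ≤
      (1 - orbDist S Γ p y / ENNReal.ofReal R) + ENNReal.ofReal (D / R) := by
    rw [tsub_le_iff_right]
    calc (1 : ℝ≥0∞) ≤ (1 - orbDist S Γ p y / ENNReal.ofReal R) +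
          orbDist S Γ p y / ENNReal.ofReal R := le_tsub_add
      _ ≤ (1 - orbDist S Γ p y / ENNReal.ofReal R) +
          (orbDist S Γ p x / ENNReal.ofReal R + ENNReal.ofReal (D / R)) := by gcongr
      _ = _ := by ring
  have hfin : (1 - orbDist S Γ p y / ENNReal.ofReal R) ≠ ⊤ :=
    ne_top_of_le_ne_top ENNReal.one_ne_top tsub_le_self
  have h4 := ENNReal.toReal_mono (ENNReal.add_ne_top.2 ⟨hfin, ENNReal.ofReal_ne_top⟩) h3
  rw [ENNReal.toReal_add hfin ENNReal.ofReal_ne_top, ENNReal.toReal_ofReal (by positivity)] at h4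
  exact h4

theorem chi_glip {S : Set V} {Γ : Subgroup GL4} (p : V) {R : ℝ} (hR : 0 < R) :
    GLip S (chi S Γ p R) (1 / R) := by
  intro x _ y _ D hD h
  have h1 := chi_lip_aux (Γ := Γ) p hR hD h
  have h2 := chi_lip_aux (Γ := Γ) p hR hD (x := y) (y := x) (by rwa [dist_comm'])
  have : 1 / R * D = D / R := by ring
  rw [this, abs_le]
  constructor <;> linarith

end Pool.Agent.MP_41c3fc_gt
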