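import Mathlib
import Pool.Agent.MP_41c3fc_gt.Action
import Pool.Agent.MP_41c3fc_gt.Field

set_option autoImplicit false

open MeasureTheory Set Filter Topology
open scoped ENNReal NNReal Pointwise

namespace Pool.Agent.MP_41c3fc_gt

/-- The totally geodesic plane `x 3 = 0`. -/
def plane : Set V := {x | x ∈ H3 ∧ x 3 = 0}

/-- Graph parametrisation of the plane. -/
noncomputable def gr (s : ℝ × ℝ) : V := ![√(1 + (s.1 ^ 2 + s.2 ^ 2)), s.1, s.2, 0]

theorem gr_mem (s : ℝ × ℝ) : gr s ∈ plane := by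
  have h : 0 < 1 + (s.1 ^ 2 + s.2 ^ 2) := by positivity
  refine ⟨⟨?_, ?_⟩, ?_⟩
  · simp only [lor, gr]
    simp only [Matrix.cons_val_zero, Matrix.cons_val_one, Matrix.cons_val]
    rw [Real.mul_self_sqrt h.le]
    ring
  · simp only [gr, Matrix.cons_val_zero]
    exact Real.sqrt_pos.2 h
  · simp [gr]

theorem eq_gr {x : V} (hx : x ∈ plane) : x = gr (x 1, x 2) := by
  have h := H3_sq hx.1
  rw [hx.2] at h
  ext i
  fin_cases i
  · change x 0 = √(1 + (x 1 ^ 2 + x 2 ^ 2))
    rw [show 1 + (x 1 ^ 2 + x 2 ^ 2) = x 0 ^ 2 by linarith]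
    exact (Real.sqrt_sq hx.1.2.le).symm
  · rfl
  · rfl
  · exact hx.2

/-- The projection of a surface contained in the plane is open. -/
theorem isOpen_proj {S : Set V} (hS : IsSurf S) (h0 : ∀ x ∈ S, x 3 = 0) :
    IsOpen {s : ℝ × ℝ | gr s ∈ S} := by
  rw [isOpen_iff_mem_nhds]
  intro s hs
  obtain ⟨Ω, ψ, h, a, ha, has⟩ := hS.2 (gr s) hs
  have hp := h.isPatch hS.1
  set P : V →L[ℝ] ℝ × ℝ := (ContinuousLinearMap.proj (R := ℝ) (φ := fun _ : Fin 4 => ℝ) 1).prod
    (ContinuousLinearMap.proj (R := ℝ) (φ := fun _ : Fin 4 => ℝ) 2) with hP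
  have hPa : ∀ x, P x = (x 1, x 2) := fun x => rfl
  have hcd : ContDiffAt ℝ 1 ψ a :=
    (h.contDiffOn.of_le (by norm_num)).contDiffAt (h.isOpen.mem_nhds ha)
  have hstr : HasStrictFDerivAt (fun b => P (ψ b)) (P.comp (fderiv ℝ ψ a)) a :=
    P.hasStrictFDerivAt.comp a (hcd.hasStrictFDerivAt (by norm_num))
  have hinj : Function.Injective (P.comp (fderiv ℝ ψ a)) := by
    rw [injective_iff_map_eq_zero]
    intro w hw
    have hw' : P (fderiv ℝ ψ a w) = 0 := hw
    rw [hPa, Prod.mk_eq_zero] at hw'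
    have h3 : fderiv ℝ ψ a w 3 = 0 := by
      rw [← IsPatch.fderiv_coord (hp.diff ha) 3 w]
      have : fderiv ℝ (fun b => ψ b 3) a = fderiv ℝ (fun _ => (0 : ℝ)) a :=
        hp.fderiv_congr ha (fun b hb => h0 _ (h.mem hb))
      rw [this]; simp
    have hl : lor (fderiv ℝ ψ a w) (ψ a) = 0 := by
      have e : fderiv ℝ ψ a w = w.1 • d1 ψ a + w.2 • d2 ψ a := by
        have : w = w.1 • (1, 0) + w.2 • (0, 1) := by ext <;> simp
        conv_lhs => rw [this]
        rw [map_add, map_smul, map_smul]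
        rfl
      rw [e]; exact hp.lor_span ha _ _
    have h00 : fderiv ℝ ψ a w 0 = 0 := by
      unfold lor at hl
      rw [hw'.1, hw'.2, h3] at hl
      have : fderiv ℝ ψ a w 0 * ψ a 0 = 0 := by linarith
      rcases mul_eq_zero.1 this with h' | h'
      · exact h'
      · exact absurd h' (hp.mem a ha).2.ne'
    have hz : fderiv ℝ ψ a w = 0 := by
      ext i
      fin_cases i
      · exact h00
      · exact hw'.1
      · exact hw'.2
      · exact h3
    exact h.immersion a ha (hz.trans (map_zero _).symm)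
  have hsurj : LinearMap.range (P.comp (fderiv ℝ ψ a) : ℝ × ℝ →ₗ[ℝ] ℝ × ℝ) = ⊤ :=
    LinearMap.range_eq_top.2 (LinearMap.injective_iff_surjective.1 hinj)
  have hmap := hstr.map_nhds_eq_of_surj hsurj
  have hs' : P (ψ a) = s := by rw [has, hPa]; rfl
  rw [hs'] at hmap
  rw [← hmap, mem_map]
  filter_upwards [h.isOpen.mem_nhds ha] with b hb
  have hb2 : ψ b ∈ plane := ⟨hS.1 (h.mem hb), h0 _ (h.mem hb)⟩
  change gr (P (ψ b)) ∈ S
  rw [hPa, ← eq_gr hb2]
  exact h.mem hb

theorem contDiff_gr : ContDiff ℝ 1 gr := by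
  rw [contDiff_pi]
  intro i
  fin_cases i
  · change ContDiff ℝ 1 fun s : ℝ × ℝ => √(1 + (s.1 ^ 2 + s.2 ^ 2))
    apply ContDiff.sqrt (by fun_prop)
    intro s; positivity
  · change ContDiff ℝ 1 fun s : ℝ × ℝ => s.1
    fun_prop
  · change ContDiff ℝ 1 fun s : ℝ × ℝ => s.2
    fun_prop
  · change ContDiff ℝ 1 fun _ : ℝ × ℝ => (0 : ℝ)
    fun_prop

/-- A horizontal tangent vector of the plane is shorter than its projection. -/
theorem rn_le_of_plane {y : V} (h3 : y 3 = 0) : rn y ≤ √(y 1 ^ 2 + y 2 ^ 2) := by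
  unfold rn
  apply Real.sqrt_le_sqrt
  unfold lor
  rw [h3]
  nlinarith [sq_nonneg (y 0)]

/-- Distance bound along a segment. -/
theorem dist_segment_le {S : Set V} {p v : ℝ × ℝ}
    (hseg : ∀ t ∈ Icc (0 : ℝ) 1, gr (p + t • v) ∈ S) :
    intrinsicDist S (gr p) (gr (p + v)) ≤ ENNReal.ofReal √(v.1 ^ 2 + v.2 ^ 2) := by
  set c : ℝ → V := fun t => gr (p + t • v) with hc
  have hcd : ContDiff ℝ 1 c := contDiff_gr.comp (by fun_prop)
  have harc : IsArc S c (gr p) (gr (p + v)) :=
    ⟨hcd, hseg, by simp [hc], by simp [hc]⟩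
  refine (dist_le_of_arc harc).trans (ENNReal.ofReal_le_ofReal ?_)
  rw [arcLength_eq]
  have hsp : ∀ t, speed c t ≤ √(v.1 ^ 2 + v.2 ^ 2) := by
    intro t
    have hd : HasDerivAt c (deriv c t) t :=
      (hcd.differentiable (by norm_num)).differentiableAt.hasDerivAt
    have hi := hasDerivAt_pi.1 hd
    have e1 : deriv c t 1 = v.1 := by
      have h1 : HasDerivAt (fun t : ℝ => p.1 + t * v.1) v.1 t := by
        simpa using ((hasDerivAt_id t).mul_const v.1).const_add p.1
      exact (hi 1).unique h1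
    have e2 : deriv c t 2 = v.2 := by
      have h1 : HasDerivAt (fun t : ℝ => p.2 + t * v.2) v.2 t := by
        simpa using ((hasDerivAt_id t).mul_const v.2).const_add p.2
      exact (hi 2).unique h1
    have e3 : deriv c t 3 = 0 := (hi 3).unique (hasDerivAt_const t (0 : ℝ))
    have := rn_le_of_plane e3
    rw [e1, e2] at this
    exact this
  calc ∫ t in (0 : ℝ)..1, speed c t ≤ ∫ _ in (0 : ℝ)..1, √(v.1 ^ 2 + v.2 ^ 2) := by
        apply intervalIntegral.integral_mono_on zero_le_one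
          ((continuous_speed hcd).intervalIntegrable _ _)
          (continuous_const.intervalIntegrable _ _)
        intro t _
        exact hsp t
    _ = √(v.1 ^ 2 + v.2 ^ 2) := by simp

theorem continuous_gr : Continuous gr := contDiff_gr.continuous

/-- A nonempty complete surface contained in the plane is the plane. -/
theorem eq_plane {S : Set V} (hS : IsSurf S) (hne : S.Nonempty) (hc : IsCompleteSurface S)
    (h0 : ∀ x ∈ S, x 3 = 0) : S = plane := by
  have hsub : S ⊆ plane := fun x hx => ⟨hS.1 hx, h0 x hx⟩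
  apply subset_antisymm hsub
  intro y hy
  by_contra hyS
  obtain ⟨x, hx⟩ := hne
  have hopen := isOpen_proj hS h0
  set p : ℝ × ℝ := (x 1, x 2) with hp
  set q : ℝ × ℝ := (y 1, y 2) with hq
  have hxp : gr p = x := (eq_gr (hsub hx)).symm
  have hyq : gr q = y := (eq_gr hy).symm
  -- first exit time
  set A : Set ℝ := {t | t ∈ Icc (0 : ℝ) 1 ∧ gr (p + t • (q - p)) ∉ S} with hA
  have hAcl : IsClosed A := by
    have : A = Icc (0 : ℝ) 1 ∩ (fun t : ℝ => p + t • (q - p)) ⁻¹' {s | gr s ∈ S}ᶜ := rfl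
    rw [this]
    exact isClosed_Icc.inter (hopen.isClosed_compl.preimage (by fun_prop))
  have h1A : (1 : ℝ) ∈ A := by
    refine ⟨⟨zero_le_one, le_rfl⟩, ?_⟩
    rw [one_smul, add_sub_cancel, hyq]
    exact hyS
  have hbdd : BddBelow A := ⟨0, fun t ht => ht.1.1⟩
  set τ := sInf A with hτ
  have hτA : τ ∈ A := hAcl.csInf_mem ⟨1, h1A⟩ hbdd
  have hτ0 : 0 < τ := by
    rcases hτA.1.1.eq_or_lt with h | h
    · exfalso
      apply hτA.2
      rw [← h, zero_smul, add_zero, hxp]
      exact hx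
    · exact h
  have hin : ∀ t, 0 ≤ t → t < τ → gr (p + t • (q - p)) ∈ S := by
    intro t ht0 ht
    by_contra hcon
    have : t ∈ A := ⟨⟨ht0, ht.le.trans hτA.1.2⟩, hcon⟩
    exact absurd (csInf_le hbdd this) (not_le.2 ht)
  set M := √((q - p).1 ^ 2 + (q - p).2 ^ 2) with hM
  have hdist : ∀ s t, 0 ≤ s → s ≤ t → t < τ →
      intrinsicDist S (gr (p + s • (q - p))) (gr (p + t • (q - p))) ≤
        ENNReal.ofReal ((t - s) * M) := by
    intro s t hs hst ht
    have e1 : p + t • (q - p) = (p + s • (q - p)) + (t - s) • (q - p) := by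
      rw [sub_smul]; abel
    rw [e1]
    refine (dist_segment_le ?_).trans (ENNReal.ofReal_le_ofReal ?_)
    · intro r hr
      have e2 : p + s • (q - p) + r • (t - s) • (q - p) =
          p + (s + r * (t - s)) • (q - p) := by
        rw [add_smul, smul_smul]; abel
      rw [e2]
      apply hin
      · have := mul_nonneg hr.1 (sub_nonneg.2 hst); linarith
      · have : r * (t - s) ≤ 1 * (t - s) := mul_le_mul_of_nonneg_right hr.2 (sub_nonneg.2 hst)
        linarith
    · apply le_of_eq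
      have e3 : ((t - s) • (q - p)).1 ^ 2 + ((t - s) • (q - p)).2 ^ 2 =
          (t - s) ^ 2 * ((q - p).1 ^ 2 + (q - p).2 ^ 2) := by
        simp only [Prod.smul_fst, Prod.smul_snd, smul_eq_mul]; ring
      rw [e3, Real.sqrt_mul (sq_nonneg _), Real.sqrt_sq (sub_nonneg.2 hst)]
  -- the sequence
  set T : ℕ → ℝ := fun k => τ * (1 - 1 / ((k : ℝ) + 1)) with hT
  have hTlim : Tendsto T atTop (𝓝 τ) := by
    have h1 : Tendsto (fun k : ℕ => 1 / ((k : ℝ) + 1)) atTop (𝓝 0) :=
      tendsto_one_div_add_atTop_nhds_zero_nat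
    have h2 := (tendsto_const_nhds (x := τ)).mul ((tendsto_const_nhds (x := (1 : ℝ))).sub h1)
    rw [sub_zero, mul_one] at h2
    exact h2
  have hT0 : ∀ k, 0 ≤ T k := by
    intro k
    have : 1 / ((k : ℝ) + 1) ≤ 1 := by
      rw [div_le_one (by positivity)]; linarith [Nat.cast_nonneg (α := ℝ) k]
    exact mul_nonneg hτ0.le (by linarith)
  have hT1 : ∀ k, T k < τ := by
    intro k
    have : 0 < 1 / ((k : ℝ) + 1) := by positivity
    have h2 : τ * (1 - 1 / ((k : ℝ) + 1)) < τ * 1 := mul_lt_mul_of_pos_left (by linarith) hτ0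
    rw [mul_one] at h2
    exact h2
  obtain ⟨P, hP, hlim⟩ := hc (fun k => gr (p + T k • (q - p))) (fun k => hin _ (hT0 k) (hT1 k)) (by
    intro ε hε
    obtain ⟨e, he0, heε⟩ : ∃ e : ℝ, 0 < e ∧ ENNReal.ofReal e < ε := by
      obtain ⟨q, hq0, hq⟩ := ENNReal.lt_iff_exists_nnreal_btwn.1 hε
      refine ⟨q, by exact_mod_cast hq0, ?_⟩
      rwa [ENNReal.ofReal_coe_nnreal]
    have hM0 : 0 ≤ M := Real.sqrt_nonneg _
    have hr : 0 < e / (M + 1) := by positivity
    obtain ⟨N, hN⟩ := Metric.tendsto_atTop.1 hTlim (e / (M + 1)) hr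
    refine ⟨N, ?_⟩
    have hclose : ∀ n, N ≤ n → τ - T n < e / (M + 1) := by
      intro n hn
      have := hN n hn
      rw [Real.dist_eq, abs_sub_comm, abs_of_pos (by linarith [hT1 n])] at this
      exact this
    have hkey : ∀ m n, N ≤ m → N ≤ n → T m ≤ T n →
        intrinsicDist S (gr (p + T m • (q - p))) (gr (p + T n • (q - p))) < ε := by
      intro m n hm _ hmn
      refine lt_of_le_of_lt (hdist _ _ (hT0 m) hmn (hT1 n)) (lt_of_le_of_lt
        (ENNReal.ofReal_le_ofReal ?_) heε)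
      have h1 := hclose m hm
      have h2 := hT1 n
      calc (T n - T m) * M ≤ (e / (M + 1)) * M :=
            mul_le_mul_of_nonneg_right (by linarith) hM0
        _ ≤ e := by
          rw [div_mul_eq_mul_div, div_le_iff₀ (by linarith)]
          nlinarith
    intro m n hm hn
    rcases le_total (T m) (T n) with h | h
    · exact hkey m n hm hn h
    · rw [dist_comm']; exact hkey n m hn hm h)
  have hlim2 : Tendsto (fun k => gr (p + T k • (q - p))) atTop (𝓝 (gr (p + τ • (q - p)))) :=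
    (continuous_gr.tendsto _).comp ((tendsto_const_nhds).add (hTlim.smul_const (q - p)))
  have := tendsto_nhds_unique hlim hlim2
  apply hτA.2
  rw [← this]
  exact hP

end Pool.Agent.MP_41c3fc_gt
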