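import Mathlib
import Pool.Agent.MP_41c3fc_gt.Field

set_option autoImplicit false

open MeasureTheory Set Filter Topology
open scoped ENNReal NNReal

namespace Pool.Agent.MP_41c3fc_gt

section Extension

variable {Ω K : Set (ℝ × ℝ)} {f : ℝ × ℝ → ℝ}

theorem indicator_eventuallyEq_zero (hK : IsClosed K) (hs : ∀ b ∈ Ω, b ∉ K → f b = 0) {b : ℝ × ℝ}
    (hb : b ∉ K) : Ω.indicator f =ᶠ[𝓝 b] fun _ => 0 := by
  filter_upwards [hK.isOpen_compl.mem_nhds hb] with c hc
  by_cases hcΩ : c ∈ Ω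
  · rw [indicator_of_mem hcΩ, hs c hcΩ hc]
  · rw [indicator_of_notMem hcΩ]

theorem indicator_eventuallyEq_self (hΩ : IsOpen Ω) {b : ℝ × ℝ}
    (hb : b ∈ Ω) : Ω.indicator f =ᶠ[𝓝 b] f := by
  filter_upwards [hΩ.mem_nhds hb] with c hc
  rw [indicator_of_mem hc]

theorem continuous_indicator_ext (hΩ : IsOpen Ω) (hK : IsClosed K) (hKΩ : K ⊆ Ω)
    (hf : ContinuousOn f Ω) (hs : ∀ b ∈ Ω, b ∉ K → f b = 0) : Continuous (Ω.indicator f) := by
  rw [continuous_iff_continuousAt]
  intro b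
  by_cases hb : b ∈ K
  · exact (hf.continuousAt (hΩ.mem_nhds (hKΩ hb))).congr
      (indicator_eventuallyEq_self hΩ (hKΩ hb)).symm
  · exact continuousAt_const.congr (indicator_eventuallyEq_zero hK hs hb).symm

theorem contDiff_indicator_ext (hΩ : IsOpen Ω) (hK : IsClosed K) (hKΩ : K ⊆ Ω)
    (hf : ContDiffOn ℝ 1 f Ω) (hs : ∀ b ∈ Ω, b ∉ K → f b = 0) : ContDiff ℝ 1 (Ω.indicator f) := by
  rw [contDiff_iff_contDiffAt]
  intro b
  by_cases hb : b ∈ K
  · exact (hf.contDiffAt (hΩ.mem_nhds (hKΩ hb))).congr_of_eventuallyEq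
      (indicator_eventuallyEq_self hΩ (hKΩ hb))
  · exact contDiffAt_const.congr_of_eventuallyEq (indicator_eventuallyEq_zero hK hs hb)

theorem hasCompactSupport_indicator_ext (hK : IsCompact K)
    (hs : ∀ b ∈ Ω, b ∉ K → f b = 0) : HasCompactSupport (Ω.indicator f) := by
  refine HasCompactSupport.of_support_subset_isCompact hK ?_
  intro b hb
  by_contra hbK
  apply hb
  by_cases hbΩ : b ∈ Ω
  · rw [indicator_of_mem hbΩ, hs b hbΩ hbK]
  · rw [indicator_of_notMem hbΩ]

theorem fderiv_zero_of_supp (hΩ : IsOpen Ω) (hK : IsClosed K) (hs : ∀ b ∈ Ω, b ∉ K → f b = 0)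
    {b : ℝ × ℝ} (hb : b ∈ Ω) (hbK : b ∉ K) : fderiv ℝ f b = 0 := by
  have : f =ᶠ[𝓝 b] fun _ => 0 := by
    filter_upwards [hK.isOpen_compl.mem_nhds hbK, hΩ.mem_nhds hb] with c hc hc2
    exact hs c hc2 hc
  rw [this.fderiv_eq]
  simp

end Extension

theorem chart_stokes {Ω : Set (ℝ × ℝ)} {ψ : ℝ × ℝ → V} (h : IsPatch Ω ψ) (hm : IsMin Ω ψ)
    {a₀ : ℝ × ℝ} {ρ : ℝ} (hρ : 0 < ρ) (hball : Metric.closedBall a₀ (2 * ρ) ⊆ Ω)
    {k : ℝ × ℝ → ℝ} (hk : ContDiffOn ℝ 1 k Ω) (hk0 : ∀ b ∈ Ω, 0 ≤ k b)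
    (hks : ∀ b ∈ Ω, b ∉ Metric.closedBall a₀ ρ → k b = 0)
    {c : ℝ × ℝ → ℝ} {C : ℝ≥0} (hcLip : LipschitzOnWith C c (Metric.ball a₀ (2 * ρ)))
    (hc0 : ∀ b ∈ Metric.ball a₀ (2 * ρ), 0 ≤ c b) {ε : ℝ}
    (hcd : ∀ b ∈ Metric.ball a₀ (2 * ρ), DifferentiableAt ℝ c b → ∀ v, |fderiv ℝ c b v| ≤
      ε * √(lor (fderiv ℝ ψ b v) (fderiv ℝ ψ b v))) (hε : 0 ≤ ε) :
    Integrable (Ω.indicator fun b =>
      c b * (k b * ell (ψ b 3) + fderiv ℝ k b (fXi ψ b)) * areaDensity ψ b) ∧
    ∫ b, Ω.indicator (fun b =>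
      c b * (k b * ell (ψ b 3) + fderiv ℝ k b (fXi ψ b)) * areaDensity ψ b) b ≤
      ε * ∫ b, Ω.indicator (fun b => k b * areaDensity ψ b) b := by
  classical
  set K := Metric.closedBall a₀ ρ with hKdef
  have hKc : IsCompact K := isCompact_closedBall _ _
  have hKcl : IsClosed K := hKc.isClosed
  have hKb : K ⊆ Metric.ball a₀ (2 * ρ) := Metric.closedBall_subset_ball (by linarith)
  have hKΩ : K ⊆ Ω := fun b hb => hball (Metric.ball_subset_closedBall (hKb hb))
  obtain ⟨f, hf, hfc⟩ := hcLip.extend_real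
  have hΩ := h.isOpen
  -- test functions
  have hg1s : ∀ b ∈ Ω, b ∉ K → k b * fM1 ψ b = 0 := fun b hb hbK => by rw [hks b hb hbK, zero_mul]
  have hg2s : ∀ b ∈ Ω, b ∉ K → k b * fM2 ψ b = 0 := fun b hb hbK => by rw [hks b hb hbK, zero_mul]
  have hg1 : ContDiff ℝ 1 (Ω.indicator fun b => k b * fM1 ψ b) :=
    contDiff_indicator_ext hΩ hKcl hKΩ (hk.mul h.contDiffOn_fM1) hg1s
  have hg2 : ContDiff ℝ 1 (Ω.indicator fun b => k b * fM2 ψ b) :=
    contDiff_indicator_ext hΩ hKcl hKΩ (hk.mul h.contDiffOn_fM2) hg2s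
  have hg1c := hasCompactSupport_indicator_ext hKc hg1s
  have hg2c := hasCompactSupport_indicator_ext hKc hg2s
  set g1 := Ω.indicator fun b => k b * fM1 ψ b with hg1def
  set g2 := Ω.indicator fun b => k b * fM2 ψ b with hg2def
  obtain ⟨D1, hL1⟩ := ContDiff.lipschitzWith_of_hasCompactSupport hg1c hg1 (by norm_num)
  obtain ⟨D2, hL2⟩ := ContDiff.lipschitzWith_of_hasCompactSupport hg2c hg2 (by norm_num)
  have p1 := LipschitzWith.integral_lineDeriv_mul_eq (μ := (volume : Measure (ℝ × ℝ)))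
    hf hL1 hg1c (1, 0)
  have p2 := LipschitzWith.integral_lineDeriv_mul_eq (μ := (volume : Measure (ℝ × ℝ)))
    hf hL2 hg2c (0, 1)
  have q1 : ∀ x, lineDeriv ℝ g1 x (-(1, 0)) * f x = - (f x * fderiv ℝ g1 x (1, 0)) := by
    intro x
    rw [(hg1.differentiable (by norm_num)).differentiableAt.lineDeriv_eq_fderiv, map_neg]
    ring
  have q2 : ∀ x, lineDeriv ℝ g2 x (-(0, 1)) * f x = - (f x * fderiv ℝ g2 x (0, 1)) := by
    intro x
    rw [(hg2.differentiable (by norm_num)).differentiableAt.lineDeriv_eq_fderiv, map_neg]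
    ring
  simp only [q1, q2, integral_neg] at p1 p2
  -- integrability
  have i1 : Integrable (fun x => f x * fderiv ℝ g1 x (1, 0)) := by
    apply Continuous.integrable_of_hasCompactSupport
    · exact hf.continuous.mul ((hg1.continuous_fderiv (by norm_num)).clm_apply continuous_const)
    · exact HasCompactSupport.mul_left (hg1c.fderiv_apply (𝕜 := ℝ) (1, 0))
  have i2 : Integrable (fun x => f x * fderiv ℝ g2 x (0, 1)) := by
    apply Continuous.integrable_of_hasCompactSupport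
    · exact hf.continuous.mul ((hg2.continuous_fderiv (by norm_num)).clm_apply continuous_const)
    · exact HasCompactSupport.mul_left (hg2c.fderiv_apply (𝕜 := ℝ) (0, 1))
  have j1 : Integrable (fun x => lineDeriv ℝ f x (1, 0) * g1 x) := by
    have := (hf.locallyIntegrable_lineDeriv (μ := (volume : Measure (ℝ × ℝ)))
      (1, 0)).integrable_smul_left_of_hasCompactSupport hg1.continuous hg1c
    refine this.congr (Eventually.of_forall fun x => ?_)
    simp only [smul_eq_mul]; ring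
  have j2 : Integrable (fun x => lineDeriv ℝ f x (0, 1) * g2 x) := by
    have := (hf.locallyIntegrable_lineDeriv (μ := (volume : Measure (ℝ × ℝ)))
      (0, 1)).integrable_smul_left_of_hasCompactSupport hg2.continuous hg2c
    refine this.congr (Eventually.of_forall fun x => ?_)
    simp only [smul_eq_mul]; ring
  have hkWs : ∀ b ∈ Ω, b ∉ K → k b * areaDensity ψ b = 0 :=
    fun b hb hbK => by rw [hks b hb hbK, zero_mul]
  have j3 : Integrable (Ω.indicator fun b => k b * areaDensity ψ b) := by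
    apply Continuous.integrable_of_hasCompactSupport
    · exact continuous_indicator_ext hΩ hKcl hKΩ
        (hk.continuousOn.mul h.contDiffOn_area.continuousOn) hkWs
    · exact hasCompactSupport_indicator_ext hKc hkWs
  -- the integrand, with `f` in place of `c`
  have hXi : ContinuousOn (fXi ψ) Ω := by
    have e : ∀ b ∈ Ω, fXi ψ b = (areaDensity ψ b)⁻¹ • (fM1 ψ b, fM2 ψ b) := by
      intro b hb
      rw [← h.area_smul_fXi hb, smul_smul, inv_mul_cancel₀ (h.area_pos hb).ne', one_smul]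
    refine ContinuousOn.congr ?_ e
    exact (h.contDiffOn_area.continuousOn.inv₀ fun b hb => (h.area_pos hb).ne').smul
      (h.contDiffOn_fM1.continuousOn.prodMk h.contDiffOn_fM2.continuousOn)
  have hfd : ContinuousOn (fderiv ℝ k) Ω := hk.continuousOn_fderiv_of_isOpen hΩ (by norm_num)
  have hIs : ∀ b ∈ Ω, b ∉ K →
      f b * (k b * ell (ψ b 3) + fderiv ℝ k b (fXi ψ b)) * areaDensity ψ b = 0 := by
    intro b hb hbK
    rw [hks b hb hbK, fderiv_zero_of_supp hΩ hKcl hks hb hbK]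
    simp
  have hψc : ContinuousOn (fun b => ψ b 3) Ω :=
    (IsPatch.contDiffOn_coord h.contDiffOn 3).continuousOn
  have hIc : ContinuousOn (fun b =>
      f b * (k b * ell (ψ b 3) + fderiv ℝ k b (fXi ψ b)) * areaDensity ψ b) Ω :=
    (hf.continuous.continuousOn.mul ((hk.continuousOn.mul
      (continuous_ell.comp_continuousOn hψc)).add (hfd.clm_apply hXi))).mul
      h.contDiffOn_area.continuousOn
  have hIeq : (Ω.indicator fun b =>
      c b * (k b * ell (ψ b 3) + fderiv ℝ k b (fXi ψ b)) * areaDensity ψ b) =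
      Ω.indicator fun b =>
      f b * (k b * ell (ψ b 3) + fderiv ℝ k b (fXi ψ b)) * areaDensity ψ b := by
    funext b
    by_cases hb : b ∈ Ω
    · rw [indicator_of_mem hb, indicator_of_mem hb]
      by_cases hbK : b ∈ K
      · rw [hfc (hKb hbK)]
      · rw [hks b hb hbK, fderiv_zero_of_supp hΩ hKcl hks hb hbK]
        simp
    · rw [indicator_of_notMem hb, indicator_of_notMem hb]
  have hIint : Integrable (Ω.indicator fun b =>
      f b * (k b * ell (ψ b 3) + fderiv ℝ k b (fXi ψ b)) * areaDensity ψ b) := by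
    apply Continuous.integrable_of_hasCompactSupport
    · exact continuous_indicator_ext hΩ hKcl hKΩ hIc hIs
    · exact hasCompactSupport_indicator_ext hKc hIs
  refine ⟨hIeq ▸ hIint, ?_⟩
  rw [hIeq]
  -- first inequality
  have s1 : ∫ b, Ω.indicator (fun b =>
      f b * (k b * ell (ψ b 3) + fderiv ℝ k b (fXi ψ b)) * areaDensity ψ b) b ≤
      ∫ b, (f b * fderiv ℝ g1 b (1, 0) + f b * fderiv ℝ g2 b (0, 1)) := by
    apply integral_mono hIint (i1.add i2)
    intro b
    change Ω.indicator _ b ≤ f b * fderiv ℝ g1 b (1, 0) + f b * fderiv ℝ g2 b (0, 1)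
    by_cases hbK : b ∈ K
    · have hb := hKΩ hbK
      rw [indicator_of_mem hb]
      have e1 : fderiv ℝ g1 b = fderiv ℝ (fun b => k b * fM1 ψ b) b :=
        (indicator_eventuallyEq_self hΩ hb).fderiv_eq
      have e2 : fderiv ℝ g2 b = fderiv ℝ (fun b => k b * fM2 ψ b) b :=
        (indicator_eventuallyEq_self hΩ hb).fderiv_eq
      have hkd : DifferentiableAt ℝ k b :=
        (hk.differentiableOn (by norm_num)).differentiableAt (hΩ.mem_nhds hb)
      have h1d : DifferentiableAt ℝ (fM1 ψ) b :=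
        (h.contDiffOn_fM1.differentiableOn (by norm_num)).differentiableAt (hΩ.mem_nhds hb)
      have h2d : DifferentiableAt ℝ (fM2 ψ) b :=
        (h.contDiffOn_fM2.differentiableOn (by norm_num)).differentiableAt (hΩ.mem_nhds hb)
      rw [e1, e2, fderiv_fun_mul hkd h1d, fderiv_fun_mul hkd h2d]
      simp only [add_apply, smul_apply, smul_eq_mul]
      have hdiv := h.div_ge hm hb
      have hWX := h.area_smul_fXi hb
      have hlin : areaDensity ψ b * fderiv ℝ k b (fXi ψ b) =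
          fM1 ψ b * fderiv ℝ k b (1, 0) + fM2 ψ b * fderiv ℝ k b (0, 1) := by
        have e3 : areaDensity ψ b * fderiv ℝ k b (fXi ψ b) =
            fderiv ℝ k b (areaDensity ψ b • fXi ψ b) := by rw [map_smul]; rfl
        rw [e3, hWX]
        have e4 : ((fM1 ψ b, fM2 ψ b) : ℝ × ℝ) = fM1 ψ b • (1, 0) + fM2 ψ b • (0, 1) := by
          ext <;> simp
        rw [e4, map_add, map_smul, map_smul]
        simp only [smul_eq_mul]
      have hfb : 0 ≤ f b := by rw [← hfc (hKb hbK)]; exact hc0 b (hKb hbK)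
      have hkb := hk0 b hb
      have m1 : f b * k b * (areaDensity ψ b * ell (ψ b 3)) ≤
          f b * k b * (fderiv ℝ (fM1 ψ) b (1, 0) + fderiv ℝ (fM2 ψ) b (0, 1)) :=
        mul_le_mul_of_nonneg_left hdiv (mul_nonneg hfb hkb)
      have e5 : f b * (k b * ell (ψ b 3) + fderiv ℝ k b (fXi ψ b)) * areaDensity ψ b =
          f b * k b * (areaDensity ψ b * ell (ψ b 3)) +
          f b * (areaDensity ψ b * fderiv ℝ k b (fXi ψ b)) := by ring
      rw [e5, hlin]
      nlinarith [m1]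
    · have z1 : fderiv ℝ g1 b = 0 := by
        rw [(indicator_eventuallyEq_zero hKcl hg1s hbK).fderiv_eq]; simp
      have z2 : fderiv ℝ g2 b = 0 := by
        rw [(indicator_eventuallyEq_zero hKcl hg2s hbK).fderiv_eq]; simp
      rw [z1, z2]
      by_cases hb : b ∈ Ω
      · rw [indicator_of_mem hb, hIs b hb hbK]; simp
      · rw [indicator_of_notMem hb]; simp
  -- second inequality
  have s2 : -(∫ b, (lineDeriv ℝ f b (1, 0) * g1 b + lineDeriv ℝ f b (0, 1) * g2 b)) ≤
      ε * ∫ b, Ω.indicator (fun b => k b * areaDensity ψ b) b := by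
    rw [← integral_neg, ← integral_const_mul]
    apply integral_mono_ae (j1.add j2).neg (j3.const_mul ε)
    filter_upwards [hf.ae_differentiableAt (μ := (volume : Measure (ℝ × ℝ)))] with b hdb
    change -(lineDeriv ℝ f b (1, 0) * g1 b + lineDeriv ℝ f b (0, 1) * g2 b) ≤
      ε * Ω.indicator (fun b => k b * areaDensity ψ b) b
    by_cases hbK : b ∈ K
    · have hb := hKΩ hbK
      have hfceq : f =ᶠ[𝓝 b] c := by
        filter_upwards [Metric.isOpen_ball.mem_nhds (hKb hbK)] with x hx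
        exact (hfc hx).symm
      have hcd' : DifferentiableAt ℝ c b := hdb.congr_of_eventuallyEq hfceq.symm
      have hbound := hcd b (hKb hbK) hcd' (fXi ψ b)
      rw [← hfceq.fderiv_eq] at hbound
      rw [hdb.lineDeriv_eq_fderiv, hdb.lineDeriv_eq_fderiv, indicator_of_mem hb, hg1def, hg2def,
        indicator_of_mem hb, indicator_of_mem hb]
      have hWX := h.area_smul_fXi hb
      have hlin : areaDensity ψ b * fderiv ℝ f b (fXi ψ b) =
          fM1 ψ b * fderiv ℝ f b (1, 0) + fM2 ψ b * fderiv ℝ f b (0, 1) := by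
        have e3 : areaDensity ψ b * fderiv ℝ f b (fXi ψ b) =
            fderiv ℝ f b (areaDensity ψ b • fXi ψ b) := by rw [map_smul]; rfl
        rw [e3, hWX]
        have e4 : ((fM1 ψ b, fM2 ψ b) : ℝ × ℝ) = fM1 ψ b • (1, 0) + fM2 ψ b • (0, 1) := by
          ext <;> simp
        rw [e4, map_add, map_smul, map_smul]
        simp only [smul_eq_mul]
      have hle1 : √(lor (fderiv ℝ ψ b (fXi ψ b)) (fderiv ℝ ψ b (fXi ψ b))) ≤ 1 := by
        rw [← Real.sqrt_one]
        exact Real.sqrt_le_sqrt (h.lor_X_le hb)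
      have hb2 : |fderiv ℝ f b (fXi ψ b)| ≤ ε := by
        refine hbound.trans ?_
        calc ε * _ ≤ ε * 1 := mul_le_mul_of_nonneg_left hle1 hε
          _ = ε := mul_one ε
      have hb3 : -ε ≤ fderiv ℝ f b (fXi ψ b) := (abs_le.1 hb2).1
      have hkb := hk0 b hb
      have hW := h.area_pos hb
      have e6 : -(fderiv ℝ f b (1, 0) * (k b * fM1 ψ b) + fderiv ℝ f b (0, 1) * (k b * fM2 ψ b)) =
          (k b * areaDensity ψ b) * (-fderiv ℝ f b (fXi ψ b)) := by
        linear_combination k b * hlin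
      rw [e6]
      have : (k b * areaDensity ψ b) * (-fderiv ℝ f b (fXi ψ b)) ≤ (k b * areaDensity ψ b) * ε :=
        mul_le_mul_of_nonneg_left (by linarith) (mul_nonneg hkb hW.le)
      linarith
    · have z1 : g1 b = 0 := (indicator_eventuallyEq_zero hKcl hg1s hbK).self_of_nhds
      have z2 : g2 b = 0 := (indicator_eventuallyEq_zero hKcl hg2s hbK).self_of_nhds
      have z3 : Ω.indicator (fun b => k b * areaDensity ψ b) b = 0 :=
        (indicator_eventuallyEq_zero hKcl hkWs hbK).self_of_nhds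
      rw [z1, z2, z3]; simp
  calc _ ≤ ∫ b, (f b * fderiv ℝ g1 b (1, 0) + f b * fderiv ℝ g2 b (0, 1)) := s1
    _ = (∫ b, f b * fderiv ℝ g1 b (1, 0)) + ∫ b, f b * fderiv ℝ g2 b (0, 1) := integral_add i1 i2
    _ = -(∫ b, lineDeriv ℝ f b (1, 0) * g1 b) - ∫ b, lineDeriv ℝ f b (0, 1) * g2 b := by
      rw [p1, p2]; ring
    _ = -(∫ b, (lineDeriv ℝ f b (1, 0) * g1 b + lineDeriv ℝ f b (0, 1) * g2 b)) := by
      rw [integral_add j1 j2]; ring
    _ ≤ _ := s2

end Pool.Agent.MP_41c3fc_gt
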