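import Mathlib
import Pool.Agent.MP_41c3fc_gt.Bump

set_option autoImplicit false

open MeasureTheory Set Filter Topology
open scoped ENNReal NNReal Pointwise

namespace Pool.Agent.MP_41c3fc_gt

theorem smul_eq_act {Γ : Subgroup GL4} (g : Γ) (x : V) : g • x = act (g : GL4) x := rfl

theorem act_free {Γ : Subgroup GL4} (hΓ : IsDiscreteTorsionFree Γ) {g : GL4} (hg : g ∈ Γ) {x : V}
    (hx : x ∈ H3) (h : act g x = x) : g = 1 := by
  apply hΓ.torsionFree g hg
  by_contra hcon
  have hinj := injective_pow_iff_not_isOfFinOrder.2 hcon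
  have hfin := hΓ.discrete {x} (by simpa using hx) isCompact_singleton
  have hpow : ∀ n : ℕ, act (g ^ n) x = x := by
    intro n
    induction n with
    | zero => simp [act_one]
    | succ n ih => rw [pow_succ, act_mul, h, ih]
  have hsub : range (fun n : ℕ => g ^ n) ⊆ {g : GL4 | g ∈ Γ ∧ ∃ x' ∈ ({x} : Set V),
      act g x' ∈ ({x} : Set V)} := by
    rintro _ ⟨n, rfl⟩
    exact ⟨Γ.pow_mem hg n, x, rfl, by simpa using hpow n⟩
  exact (infinite_range_of_injective hinj) (hfin.subset hsub)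

/-- the base point -/
def e0 : V := ![1, 0, 0, 0]

theorem e0_mem : e0 ∈ H3 := by
  constructor
  · simp [lor, e0]
  · simp [e0]

theorem countable_of_discrete {Γ : Subgroup GL4} (hΓ : IsDiscreteTorsionFree Γ) :
    Countable Γ := by
  have hcov : (Γ : Set GL4) ⊆ ⋃ n : ℕ, {g : GL4 | g ∈ Γ ∧ ∃ x ∈ {x | x ∈ H3 ∧ -lor x e0 ≤ n},
      act g x ∈ {x | x ∈ H3 ∧ -lor x e0 ≤ n}} := by
    intro g hg
    obtain ⟨n, hn⟩ := exists_nat_ge (max (-lor e0 e0) (-lor (act g e0) e0))
    refine mem_iUnion.2 ⟨n, hg, e0, ⟨e0_mem, (le_max_left _ _).trans hn⟩,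
      (hΓ.isom g hg).2 _ e0_mem, (le_max_right _ _).trans hn⟩
  have : (Γ : Set GL4).Countable := by
    refine (countable_iUnion fun n => ?_).mono hcov
    exact (hΓ.discrete _ (fun x hx => hx.1) (isCompact_lorBall e0 e0_mem n)).countable
  exact this.to_subtype

theorem isFundamentalDomain {Γ : Subgroup GL4} (hΓ : IsDiscreteTorsionFree Γ) {X D : Set V}
    (hX : X ⊆ H3) (hinv : IsInvariantSet Γ X) (hD : IsFundamentalSet Γ X D) {μ : Measure V}
    (hμ : μ Xᶜ = 0) :
    IsFundamentalDomain Γ D μ := by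
  refine ⟨hD.1.nullMeasurableSet, ?_, ?_⟩
  · have h1 : ∀ᵐ x ∂μ, x ∈ X := by rw [ae_iff]; exact hμ
    filter_upwards [h1] with x hx
    obtain ⟨y, ⟨hy, g, hg, hgy⟩, _⟩ := hD.2.2 x hx
    exact ⟨⟨g, hg⟩, by change act g x ∈ D; rw [hgy]; exact hy⟩
  · intro g g' hgg'
    apply Disjoint.aedisjoint
    rw [Set.disjoint_left]
    rintro x ⟨y, hy, hyx⟩ ⟨y', hy', hyx'⟩
    change act (g : GL4) y = x at hyx
    change act (g' : GL4) y' = x at hyx'
    apply hgg'
    have hyX := hD.2.1 hy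
    have hxX : x ∈ X := by rw [← hyx]; exact hinv g g.2 y hyX
    obtain ⟨z, hz, huniq⟩ := hD.2.2 x hxX
    have e1 : y = z := huniq y ⟨hy, (g : GL4)⁻¹, Γ.inv_mem g.2, by rw [← hyx, act_inv_act]⟩
    have e2 : y' = z := huniq y' ⟨hy', (g' : GL4)⁻¹, Γ.inv_mem g'.2, by rw [← hyx', act_inv_act]⟩
    have e3 : act ((g' : GL4)⁻¹ * g) y = y := by
      rw [act_mul, hyx, ← hyx', act_inv_act, e2, e1]
    have e4 := act_free hΓ (Γ.mul_mem (Γ.inv_mem g'.2) g.2) (hX hyX) e3
    have e5 : (g : GL4) = g' := by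
      have := congrArg (fun t => (g' : GL4) * t) e4
      simpa [mul_assoc] using this
    exact Subtype.ext e5

theorem smulInvariant {Γ : Subgroup GL4} {μ : Measure V} (hμ : ∀ g ∈ Γ, μ.map (act g) = μ) :
    SMulInvariantMeasure Γ V μ := by
  constructor
  intro g s hs
  change μ (act (g : GL4) ⁻¹' s) = μ s
  rw [← Measure.map_apply (measurable_act _) hs, hμ g g.2]

theorem measurableConstSMul (Γ : Subgroup GL4) :
    MeasurableConstSMul Γ V := by
  constructor
  intro g
  exact measurable_act (g : GL4)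

/-- Unfolding of integrals. -/
theorem unfold_integral {Γ : Subgroup GL4} (hΓ : IsDiscreteTorsionFree Γ) {X D : Set V}
    (hX : X ⊆ H3) (hinv : IsInvariantSet Γ X) (hD : IsFundamentalSet Γ X D) {μ : Measure V}
    (hμ : μ Xᶜ = 0) (hμi : ∀ g ∈ Γ, μ.map (act g) = μ) {G : V → ℝ} (hG : Integrable G μ) :
    Integrable (fun x => ∑' g : Γ, G (act (g : GL4) x)) (μ.restrict D) ∧
    ∫ x, G x ∂μ = ∫ x in D, (∑' g : Γ, G (act (g : GL4) x)) ∂μ := by
  have := countable_of_discrete hΓ
  have hfd : IsFundamentalDomain Γ D μ := isFundamentalDomain hΓ hX hinv hD hμ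
  have : SMulInvariantMeasure Γ V μ := smulInvariant hμi
  have : MeasurableConstSMul Γ V := measurableConstSMul Γ
  have hmeas : ∀ g : Γ, AEStronglyMeasurable (fun x => G (act (g : GL4) x)) (μ.restrict D) := by
    intro g
    have h1 : AEStronglyMeasurable G (μ.map (act (g : GL4))) := by
      rw [hμi g g.2]; exact hG.1
    exact (h1.comp_measurable (measurable_act (g : GL4))).restrict
  have hsum : ∑' g : Γ, ∫⁻ x in D, ‖G (act (g : GL4) x)‖ₑ ∂μ = ∫⁻ x, ‖G x‖ₑ ∂μ :=
    (hfd.lintegral_eq_tsum'' (fun x => ‖G x‖ₑ)).symm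
  have hne : ∑' g : Γ, ∫⁻ x in D, ‖G (act (g : GL4) x)‖ₑ ∂μ ≠ ∞ := by
    rw [hsum]; exact hG.2.ne
  constructor
  · refine ⟨?_, ?_⟩
    · have hae : ∀ᵐ x ∂(μ.restrict D), Summable fun g : Γ => G (act (g : GL4) x) := by
        have h1 : ∫⁻ x in D, ∑' g : Γ, ‖G (act (g : GL4) x)‖ₑ ∂μ ≠ ∞ := by
          rw [lintegral_tsum fun g => (hmeas g).enorm]
          exact hne
        have h2 := ae_lt_top' (AEMeasurable.tsum fun g => (hmeas g).enorm) h1
        filter_upwards [h2] with x hx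
        have h3 : Summable fun g : Γ => ‖G (act (g : GL4) x)‖₊ := by
          rw [← ENNReal.tsum_coe_ne_top_iff_summable]
          exact hx.ne
        exact Summable.of_nnnorm h3
      have hsm := aestronglyMeasurable_of_tendsto_ae (u := (atTop : Filter (Finset Γ)))
        (f := fun (F : Finset Γ) x => ∑ g ∈ F, G (act (g : GL4) x))
        (g := fun x => ∑' g : Γ, G (act (g : GL4) x)) (μ := μ.restrict D)
      refine hsm ?_ ?_
      · intro F
        exact Finset.aestronglyMeasurable_fun_sum F fun g _ => hmeas g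
      · filter_upwards [hae] with x hx
        exact hx.hasSum
    · have hlt : ∫⁻ x in D, ∑' g : Γ, ‖G (act (g : GL4) x)‖ₑ ∂μ < ⊤ := by
        rw [lintegral_tsum fun g => (hmeas g).enorm]
        exact hne.lt_top
      exact lt_of_le_of_lt (lintegral_mono fun x => enorm_tsum_le_tsum_enorm) hlt
  · rw [integral_tsum hmeas hne]
    exact hfd.integral_eq_tsum'' G hG

/-- The area measure as a pushforward. -/
theorem IsAreaMeasure.restrict_eq_map {S : Set V} {μ : Measure V} (hμ : IsAreaMeasure S μ)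
    {Ω : Set (ℝ × ℝ)} {ψ ψ' : ℝ × ℝ → V} (h : IsLocalParam S Ω ψ) (hψ' : Measurable ψ')
    (heq : ∀ a ∈ Ω, ψ' a = ψ a) :
    μ.restrict (ψ '' Ω) = Measure.map ψ' ((volume.restrict Ω).withDensity
      fun a => ENNReal.ofReal (areaDensity ψ a)) := by
  ext B hB
  rw [Measure.restrict_apply hB, hμ.restrict_chart h hB, Measure.map_apply hψ' hB,
    withDensity_apply _ (hψ' hB), Measure.restrict_restrict (hψ' hB)]
  congr 2
  ext a
  constructor
  · rintro ⟨h1, h2⟩
    exact ⟨by change ψ' a ∈ B; rw [heq a h1]; exact h2, h1⟩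
  · rintro ⟨h1, h2⟩
    exact ⟨h2, by change ψ a ∈ B; rw [← heq a h2]; exact h1⟩

/-- Integration in a chart. -/
theorem IsAreaMeasure.integral_chart {S : Set V} (hS : IsSurf S) {μ : Measure V}
    (hμ : IsAreaMeasure S μ) {Ω : Set (ℝ × ℝ)} {ψ : ℝ × ℝ → V} (h : IsLocalParam S Ω ψ)
    {G : V → ℝ} (hG : ContinuousOn G S) (hsupp : ∀ x ∈ S, x ∉ ψ '' Ω → G x = 0)
    (hint : Integrable (Ω.indicator fun a => G (ψ a) * areaDensity ψ a)) :
    Integrable G μ ∧ ∫ x, G x ∂μ = ∫ a, Ω.indicator (fun a => G (ψ a) * areaDensity ψ a) a := by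
  classical
  have hΩm := h.isOpen.measurableSet
  have hUm : MeasurableSet (ψ '' Ω) := h.measurableSet_image subset_rfl hΩm
  have hp := h.isPatch hS.1
  -- G equals its indicator a.e.
  have hae : G =ᵐ[μ] (ψ '' Ω).indicator G := by
    have h1 : ∀ᵐ x ∂μ, x ∈ S := by rw [ae_iff]; exact hμ.1
    filter_upwards [h1] with x hx
    by_cases hxU : x ∈ ψ '' Ω
    · rw [indicator_of_mem hxU]
    · rw [indicator_of_notMem hxU, hsupp x hx hxU]
  have hGm : AEStronglyMeasurable G μ := by
    rw [← hμ.restrict]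
    exact hG.aestronglyMeasurable hS.measurableSet
  set ψ' : ℝ × ℝ → V := Ω.piecewise ψ (fun _ => 0) with hψ'
  have hψ'm : Measurable ψ' :=
    h.contDiffOn.continuousOn.measurable_piecewise continuousOn_const hΩm
  have hψ'e : ∀ a ∈ Ω, ψ' a = ψ a := fun a ha => piecewise_eq_of_mem _ _ _ ha
  have hmap := hμ.restrict_eq_map h hψ'm hψ'e
  have hGm' : AEStronglyMeasurable G (μ.restrict (ψ '' Ω)) := hGm.restrict
  rw [hmap] at hGm'
  have hWm : AEMeasurable (fun a => ENNReal.ofReal (areaDensity ψ a)) (volume.restrict Ω) :=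
    (hp.contDiffOn_area.continuousOn.aemeasurable hΩm).ennreal_ofReal
  have hWt : ∀ᵐ a ∂(volume.restrict Ω), ENNReal.ofReal (areaDensity ψ a) < ∞ :=
    Eventually.of_forall fun _ => ENNReal.ofReal_lt_top
  have hcongr : (fun a => (ENNReal.ofReal (areaDensity ψ a)).toReal • G (ψ' a)) =ᵐ[volume.restrict Ω]
      fun a => G (ψ a) * areaDensity ψ a := by
    filter_upwards [ae_restrict_mem hΩm] with a ha
    rw [ENNReal.toReal_ofReal (hp.area_pos ha).le, hψ'e a ha, smul_eq_mul, mul_comm]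
  constructor
  · rw [integrable_congr hae, integrable_indicator_iff hUm, IntegrableOn, hmap,
      integrable_map_measure hGm' hψ'm.aemeasurable,
      integrable_withDensity_iff_integrable_smul₀' hWm hWt]
    change Integrable (fun a => (ENNReal.ofReal (areaDensity ψ a)).toReal • G (ψ' a)) _
    rw [integrable_congr hcongr]
    rw [integrable_indicator_iff hΩm] at hint
    exact hint
  · rw [integral_congr_ae hae, integral_indicator hUm, hmap,
      integral_map hψ'm.aemeasurable hGm', integral_withDensity_eq_integral_toReal_smul₀ hWm hWt,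
      integral_congr_ae hcongr, integral_indicator hΩm]

end Pool.Agent.MP_41c3fc_gt
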