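import Mathlib
import Pool.Agent.MP_41c3fc_gt.Unfold
import Pool.Agent.MP_41c3fc_gt.Cutoff
import Pool.Agent.MP_41c3fc_gt.Stokes

set_option autoImplicit false

open MeasureTheory Set Filter Topology
open scoped ENNReal NNReal Pointwise

namespace Pool.Agent.MP_41c3fc_gt

/-- The integrand of the main identity. -/
noncomputable def bigG (S : Set V) (f κ : V → ℝ) (x : V) : ℝ :=
  f x * (κ x * ell (x 3) + fderiv ℝ κ x (fieldX S x))

theorem contDiffOn_of_cone {κ : V → ℝ} (hκ : ∀ x ∈ cone, ContDiffAt ℝ 1 κ x) :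
    ContDiffOn ℝ 1 κ cone := fun x hx => (hκ x hx).contDiffWithinAt

theorem continuousOn_bigG {S : Set V} (hS : IsSurf S) {f κ : V → ℝ} (hf : ContinuousOn f S)
    (hκ : ∀ x ∈ cone, ContDiffAt ℝ 1 κ x) : ContinuousOn (bigG S f κ) S := by
  have hsub : S ⊆ cone := hS.1.trans H3_subset_cone
  have h1 := contDiffOn_of_cone hκ
  have h2 : ContinuousOn (fderiv ℝ κ) cone := h1.continuousOn_fderiv_of_isOpen isOpen_cone le_rfl
  unfold bigG
  refine hf.mul (((h1.continuousOn.mono hsub).mul ?_).add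
    ((h2.mono hsub).clm_apply (continuousOn_fieldX hS)))
  exact (continuous_ell.comp (continuous_apply 3)).continuousOn

theorem single_estimate {S : Set V} (hS : IsSurf S) {μ : Measure V} (hμ : IsAreaMeasure S μ)
    {Ω : Set (ℝ × ℝ)} {ψ : ℝ × ℝ → V} (h : IsLocalParam S Ω ψ) (hm : IsMin Ω ψ)
    {a₀ : ℝ × ℝ} {ρ : ℝ} (hρ : 0 < ρ) (hball : Metric.closedBall a₀ (2 * ρ) ⊆ Ω)
    {f : V → ℝ} {ε : ℝ} (hε : 0 ≤ ε) (hf : GLip S f ε) (hf0 : ∀ x, 0 ≤ f x)
    {κ : V → ℝ} (hκ : ∀ x ∈ cone, ContDiffAt ℝ 1 κ x) (hκ0 : ∀ x, 0 ≤ κ x)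
    (hsupp : ∀ x ∈ S, κ x ≠ 0 → ∃ b ∈ Metric.ball a₀ ρ, ψ b = x) :
    Integrable (bigG S f κ) μ ∧ Integrable κ μ ∧ ∫ x, bigG S f κ x ∂μ ≤ ε * ∫ x, κ x ∂μ := by
  have hp := h.isPatch hS.1
  have hSc : S ⊆ cone := hS.1.trans H3_subset_cone
  have hΩc : ∀ b ∈ Ω, ψ b ∈ cone := fun b hb => hSc (h.mem hb)
  have hballρ : Metric.ball a₀ ρ ⊆ Ω :=
    (Metric.ball_subset_closedBall.trans (Metric.closedBall_subset_closedBall (by linarith))).trans
      hball
  have hk : ContDiffOn ℝ 1 (fun b => κ (ψ b)) Ω := by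
    intro b hb
    have h1 : ContDiffAt ℝ 1 ψ b :=
      (h.contDiffOn.of_le (by norm_num)).contDiffAt (h.isOpen.mem_nhds hb)
    exact ((hκ _ (hΩc b hb)).comp b h1).contDiffWithinAt
  have hks : ∀ b ∈ Ω, b ∉ Metric.closedBall a₀ ρ → κ (ψ b) = 0 := by
    intro b hb hbn
    by_contra hne
    obtain ⟨b', hb', he⟩ := hsupp _ (h.mem hb) hne
    have : b' = b := h.injOn (hballρ hb') hb he
    rw [this] at hb'
    exact hbn (Metric.ball_subset_closedBall hb')
  obtain ⟨C, hC⟩ := hf.lipschitzOnWith hε h hball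
  have hst := chart_stokes hp hm hρ hball (k := fun b => κ (ψ b)) hk (fun b _ => hκ0 _) hks
    (c := fun b => f (ψ b)) hC (fun b _ => hf0 _) (ε := ε)
    (fun b hb hd v => hf.deriv_le hε h (hball (Metric.ball_subset_closedBall hb)) hd v) hε
  have hder : ∀ b ∈ Ω, fderiv ℝ (fun b => κ (ψ b)) b (fXi ψ b) =
      fderiv ℝ κ (ψ b) (fieldX S (ψ b)) := by
    intro b hb
    have h1 : HasFDerivAt κ (fderiv ℝ κ (ψ b)) (ψ b) :=
      ((hκ _ (hΩc b hb)).differentiableAt (by norm_num)).hasFDerivAt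
    have h2 := (h1.comp b (h.diff hb).hasFDerivAt).fderiv
    have h3 : fderiv ℝ (fun b => κ (ψ b)) b = _ := h2
    rw [h3, fieldX_chart hS h hb]
    rfl
  have heq : (Ω.indicator fun b => f (ψ b) * (κ (ψ b) * ell (ψ b 3) +
      fderiv ℝ (fun b => κ (ψ b)) b (fXi ψ b)) * areaDensity ψ b) =
      Ω.indicator fun b => bigG S f κ (ψ b) * areaDensity ψ b := by
    funext b
    by_cases hb : b ∈ Ω
    · rw [indicator_of_mem hb, indicator_of_mem hb, hder b hb]
      rfl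
    · rw [indicator_of_notMem hb, indicator_of_notMem hb]
  rw [heq] at hst
  have hcf := hf.continuousOn hS hε
  have hfd0 : ∀ x, κ x = 0 → fderiv ℝ κ x = 0 := by
    intro x hx
    apply IsLocalMin.fderiv_eq_zero
    refine Eventually.of_forall fun y => ?_
    rw [hx]; exact hκ0 y
  have hGs : ∀ x ∈ S, x ∉ ψ '' Ω → κ x = 0 := by
    intro x hx hxn
    by_contra hne
    obtain ⟨b, hb, rfl⟩ := hsupp x hx hne
    exact hxn (mem_image_of_mem _ (hballρ hb))
  have hG := hμ.integral_chart hS h (continuousOn_bigG hS hcf hκ) (fun x hx hxn => by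
    unfold bigG
    rw [hGs x hx hxn, hfd0 x (hGs x hx hxn)]; simp) hst.1
  have hkc : ContinuousOn κ S := (contDiffOn_of_cone hκ).continuousOn.mono hSc
  have hkWs : ∀ b ∈ Ω, b ∉ Metric.closedBall a₀ ρ → κ (ψ b) * areaDensity ψ b = 0 :=
    fun b hb hbK => by rw [hks b hb hbK, zero_mul]
  have hKΩ : Metric.closedBall a₀ ρ ⊆ Ω :=
    (Metric.closedBall_subset_closedBall (by linarith)).trans hball
  have hkint : Integrable (Ω.indicator fun b => κ (ψ b) * areaDensity ψ b) := by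
    apply Continuous.integrable_of_hasCompactSupport
    · exact continuous_indicator_ext h.isOpen Metric.isClosed_closedBall hKΩ
        (hk.continuousOn.mul hp.contDiffOn_area.continuousOn) hkWs
    · exact hasCompactSupport_indicator_ext (isCompact_closedBall _ _) hkWs
  have hK := hμ.integral_chart hS h hkc hGs hkint
  refine ⟨hG.1, hK.1, ?_⟩
  rw [hG.2, hK.2]
  exact hst.2

theorem exists_local {S : Set V} (hS : IsMinimalSurface S) {p : V} (hp : p ∈ S) :
    ∃ (Ω : Set (ℝ × ℝ)) (ψ : ℝ × ℝ → V) (a₀ : ℝ × ℝ) (ρ δ : ℝ), IsLocalParam S Ω ψ ∧ IsMin Ω ψ ∧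
      0 < ρ ∧ Metric.closedBall a₀ (2 * ρ) ⊆ Ω ∧ 0 < δ ∧
      ∀ x ∈ S, -lor x p < 1 + δ → ∃ b ∈ Metric.ball a₀ ρ, ψ b = x := by
  obtain ⟨Ω, ψ, h, ⟨a, ha, hap⟩, hm⟩ := hS.2 p hp
  obtain ⟨ρ, hρ, hball⟩ := Metric.nhds_basis_closedBall.mem_iff.1 (h.isOpen.mem_nhds ha)
  have hρ2 : 0 < ρ / 2 := by positivity
  have hball2 : Metric.closedBall a (2 * (ρ / 2)) ⊆ Ω := by
    rw [mul_div_cancel₀ _ (two_ne_zero)]; exact hball
  obtain ⟨η, hη, hη2⟩ := h.exists_open (U := Metric.ball a (ρ / 2))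
    ((Metric.ball_subset_closedBall.trans (Metric.closedBall_subset_closedBall
      (by linarith))).trans hball) Metric.isOpen_ball (Metric.mem_ball_self hρ2)
  obtain ⟨δ, hδ, hδ2⟩ := near_of_lor (hS.1 hp) hη
  refine ⟨Ω, ψ, a, ρ / 2, δ, h, hm, hρ2, hball2, hδ, ?_⟩
  intro x hx hxδ
  apply hη2 x hx
  rw [hap]
  exact hδ2 x (hS.1 hx) hxδ

theorem key_estimate {Γ : Subgroup GL4} (hΓ : IsDiscreteTorsionFree Γ)
    (h3 : ∀ g ∈ Γ, ∀ v, act g v 3 = v 3) {S : Set V} (hinv : IsInvariantSet Γ S)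
    (hS : IsMinimalSurface S) (hc : IsCompleteSurface S) {μ : Measure V} (hμ : IsAreaMeasure S μ)
    {D : Set V} (hD : IsFundamentalSet Γ S D) (hμD : μ D < ⊤) {p : V} (hp : p ∈ S) {R : ℝ}
    (hR : 0 < R) :
    Integrable (fun x => chi S Γ p R x * ell (x 3)) (μ.restrict D) ∧
    ∫ x in D, chi S Γ p R x * ell (x 3) ∂μ ≤ 1 / R * (μ D).toReal := by
  classical
  have hSurf := hS.isSurf
  have hSc : S ⊆ cone := hS.1.trans H3_subset_cone
  have hpres : ∀ g ∈ Γ, Pres S g := fun g hg => pres_of_invariant hΓ.isom hinv hg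
  -- the compact set
  set K := {x | x ∈ S ∧ intrinsicDist S p x ≤ ENNReal.ofReal R} with hK
  have hKc : IsCompact K := isCompact_ball hSurf hc hp R
  have hloc : ∀ q : V, ∃ (Ω : Set (ℝ × ℝ)) (ψ : ℝ × ℝ → V) (a₀ : ℝ × ℝ) (ρ δ : ℝ), q ∈ S →
      (IsLocalParam S Ω ψ ∧ IsMin Ω ψ ∧ 0 < ρ ∧ Metric.closedBall a₀ (2 * ρ) ⊆ Ω ∧ 0 < δ ∧
      ∀ x ∈ S, -lor x q < 1 + δ → ∃ b ∈ Metric.ball a₀ ρ, ψ b = x) := by
    intro q
    by_cases hq : q ∈ S
    · obtain ⟨Ω, ψ, a₀, ρ, δ, hh⟩ := exists_local hS hq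
      exact ⟨Ω, ψ, a₀, ρ, δ, fun _ => hh⟩
    · exact ⟨∅, fun _ => 0, 0, 0, 0, fun h => absurd h hq⟩
  choose Ω ψ a₀ ρ δ hloc using hloc
  obtain ⟨t, htK, hcov⟩ := hKc.elim_nhds_subcover (fun q => {x | -lor x q < 1 + δ q / 2}) (by
    intro q hq
    have hδ := (hloc q hq.1).2.2.2.2.1
    apply IsOpen.mem_nhds (isOpen_lt (continuous_lor_left q).neg continuous_const)
    change -lor q q < 1 + δ q / 2
    rw [(hS.1 hq.1).1]
    linarith)
  have htS : ∀ q ∈ t, q ∈ S := fun q hq => (htK q hq).1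
  set b : V → ℝ := fun x => ∑ q ∈ t, bump q (δ q) x with hb
  have hb0 : ∀ x, 0 ≤ b x := fun x => Finset.sum_nonneg fun q _ => bump_nonneg _ _ _
  have hgood : GoodFn Γ b := goodFn_sum t fun q hq =>
    goodFn_bump hΓ (hS.1 (htS q hq)) (hloc q (htS q hq)).2.2.2.2.1
  set κ : V → ℝ := fun x => b x / den Γ b x with hκ
  have hκgood : GoodFn Γ κ := hgood.div_den hb0 hΓ hgood
  set κq : V → V → ℝ := fun q x => bump q (δ q) x / den Γ b x with hκq
  have hκqgood : ∀ q ∈ t, GoodFn Γ (κq q) := fun q hq => hgood.div_den hb0 hΓ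
    (goodFn_bump hΓ (hS.1 (htS q hq)) (hloc q (htS q hq)).2.2.2.2.1)
  have hκsum : κ = fun x => ∑ q ∈ t, κq q x := by
    funext x
    rw [hκ, hκq]
    simp only
    rw [← Finset.sum_div]
  -- h > 1 where the cutoff is positive
  have hbig : ∀ x ∈ S, 0 < chi S Γ p R x → 1 < hsum Γ b x := by
    intro x hx hpos
    obtain ⟨g, hg, hgd⟩ := exists_of_chi_pos hpres hR hpos
    have hgx : act g x ∈ S := hinv g hg x hx
    obtain ⟨q, hq, hxq⟩ := mem_iUnion₂.1 (hcov (show act g x ∈ K from ⟨hgx, hgd⟩))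
    have hδ := (hloc q (htS q hq)).2.2.2.2.1
    have h1 : bump q (δ q) (act g x) = 3 := by
      apply bump_eq_three hδ (hS.1 hgx)
      have hxq' : -lor (act g x) q < 1 + δ q / 2 := hxq
      exact hxq'.le
    have h2 : (3 : ℝ) ≤ b (act g x) := by
      rw [← h1]
      exact Finset.single_le_sum (f := fun q => bump q (δ q) (act g x))
        (fun q _ => bump_nonneg _ _ _) hq
    have h4 := hgood.le_hsum hb0 (hSc hx) ⟨g, hg⟩
    have h5 : b (act g x) ≤ hsum Γ b x := h4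
    linarith
  set f := chi S Γ p R with hf
  have hfL : GLip S f (1 / R) := chi_glip p hR
  have hε : 0 ≤ 1 / R := by positivity
  have hest : ∀ q ∈ t, Integrable (bigG S f (κq q)) μ ∧ Integrable (κq q) μ ∧
      ∫ x, bigG S f (κq q) x ∂μ ≤ 1 / R * ∫ x, κq q x ∂μ := by
    intro q hq
    obtain ⟨l1, l2, l3, l4, l5, l6⟩ := hloc q (htS q hq)
    apply single_estimate hSurf hμ l1 l2 l3 l4 hε hfL (fun x => chi_nonneg _ _ _ _ _)
      (hκqgood q hq).smooth
    · intro x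
      exact div_nonneg (bump_nonneg _ _ _) (den_pos hb0 x).le
    · intro x hx hne
      apply l6 x hx
      apply lt_of_bump_ne_zero l5 (hS.1 hx)
      intro h0
      apply hne
      rw [hκq]; simp only; rw [h0, zero_div]
  have hae : ∀ᵐ x ∂μ, x ∈ S := by rw [ae_iff]; exact hμ.1
  -- sum over the finite family
  have hGsum : bigG S f κ =ᵐ[μ] fun x => ∑ q ∈ t, bigG S f (κq q) x := by
    filter_upwards [hae] with x hx
    unfold bigG
    rw [← Finset.mul_sum, Finset.sum_add_distrib, ← Finset.sum_mul]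
    have h1 : fderiv ℝ κ x = ∑ q ∈ t, fderiv ℝ (κq q) x := by
      rw [hκsum, fderiv_fun_sum fun q hq =>
        ((hκqgood q hq).smooth x (hSc hx)).differentiableAt (by norm_num)]
    rw [h1, sum_apply]
    congr 3
    rw [hκsum]
  have hGint : Integrable (bigG S f κ) μ := by
    rw [integrable_congr hGsum]
    exact integrable_finsetSum t fun q hq => (hest q hq).1
  have hκint : Integrable κ μ := by
    rw [hκsum]
    exact integrable_finsetSum t fun q hq => (hest q hq).2.1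
  have hmain : ∫ x, bigG S f κ x ∂μ ≤ 1 / R * ∫ x, κ x ∂μ := by
    rw [integral_congr_ae hGsum, integral_finsetSum t fun q hq => (hest q hq).1, hκsum,
      integral_finsetSum t fun q hq => (hest q hq).2.1, Finset.mul_sum]
    exact Finset.sum_le_sum fun q hq => (hest q hq).2.2
  -- unfolding
  have hμi : ∀ g ∈ Γ, μ.map (act g) = μ := fun g hg => hμ.map_act hSurf (hpres g hg)
  obtain ⟨u1, u2⟩ := unfold_integral hΓ hS.1 hinv hD hμ.1 hμi hGint
  obtain ⟨v1, v2⟩ := unfold_integral hΓ hS.1 hinv hD hμ.1 hμi hκint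
  have hDae : ∀ᵐ x ∂(μ.restrict D), x ∈ S := by
    filter_upwards [ae_restrict_mem hD.1] with x hx
    exact hD.2.1 hx
  have hpt : (fun x => ∑' g : Γ, bigG S f κ (act (g : GL4) x)) =ᵐ[μ.restrict D]
      fun x => f x * ell (x 3) := by
    filter_upwards [hDae] with x hx
    have hxc := hSc hx
    have e1 : ∀ g : Γ, bigG S f κ (act (g : GL4) x) = f x * (κ (act (g : GL4) x) * ell (x 3) +
        fderiv ℝ κ (act (g : GL4) x) (act (g : GL4) (fieldX S x))) := by
      intro g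
      unfold bigG
      rw [fieldX_act hSurf (hpres g g.2) (h3 g g.2) hx, h3 g g.2]
      congr 1
      exact chi_act hpres p R x g.2
    have s1 : HasSum (fun g : Γ => κ (act (g : GL4) x)) (hsum Γ κ x) := (hκgood.summable hxc).hasSum
    have s2 := hκgood.hasSum_fderiv hΓ hxc (fieldX S x)
    have s3 := ((s1.mul_right (ell (x 3))).add s2).mul_left (f x)
    have s4 : ∑' g : Γ, bigG S f κ (act (g : GL4) x) = f x * (hsum Γ κ x * ell (x 3) +
        fderiv ℝ (hsum Γ κ) x (fieldX S x)) := by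
      rw [← s3.tsum_eq]
      exact tsum_congr e1
    rw [s4]
    rcases (chi_nonneg S Γ p R x).eq_or_lt with h0 | h0
    · have : f x = 0 := h0.symm
      rw [this]; ring
    · have h1 := hbig x hx h0
      have e2 : hsum Γ κ x = 1 := hsum_self_eq_one h1.le
      have e3 : fderiv ℝ (hsum Γ κ) x = 0 := fderiv_hsum_self hgood hΓ hxc h1
      rw [e2, e3]; simp
  rw [integrable_congr hpt] at u1
  rw [integral_congr_ae hpt] at u2
  refine ⟨u1, ?_⟩
  rw [← u2]
  refine hmain.trans ?_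
  apply mul_le_mul_of_nonneg_left _ hε
  rw [v2]
  have hfin : IsFiniteMeasure (μ.restrict D) := ⟨by rw [Measure.restrict_apply_univ]; exact hμD⟩
  have h1 : ∫ x in D, (∑' g : Γ, κ (act (g : GL4) x)) ∂μ ≤ ∫ x in D, (1 : ℝ) ∂μ := by
    apply integral_mono v1 (integrable_const _)
    intro x
    exact hsum_self_le_one hb0 x
  refine h1.trans (le_of_eq ?_)
  simp [Measure.real]

/-- A complete minimal surface of finite area is contained in the invariant plane. -/
theorem vanish {Γ : Subgroup GL4} (hΓ : IsDiscreteTorsionFree Γ)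
    (h3 : ∀ g ∈ Γ, ∀ v, act g v 3 = v 3) {S : Set V} (hS : IsFiniteAreaMinimal Γ S) :
    ∀ x ∈ S, x 3 = 0 := by
  obtain ⟨hne, hinv, hmin, hc, μ, hμ, D, hD, hμD⟩ := hS
  have hSurf := hmin.isSurf
  have hpres : ∀ g ∈ Γ, Pres S g := fun g hg => pres_of_invariant hΓ.isom hinv hg
  intro p hp
  by_contra hp3
  have hle : ∀ R : ℝ, 1 ≤ R → ∫ x in D, chi S Γ p 1 x * ell (x 3) ∂μ ≤ 1 / R * (μ D).toReal := by
    intro R hR
    obtain ⟨i1, e1⟩ := key_estimate hΓ h3 hinv hmin hc hμ hD hμD hp (show 0 < R by linarith)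
    obtain ⟨i2, _⟩ := key_estimate hΓ h3 hinv hmin hc hμ hD hμD hp one_pos
    refine le_trans (integral_mono i2 i1 fun x => ?_) e1
    exact mul_le_mul_of_nonneg_right (chi_mono hR) (ell_nonneg _)
  have hle0 : ∫ x in D, chi S Γ p 1 x * ell (x 3) ∂μ ≤ 0 := by
    have hlim : Tendsto (fun R : ℝ => 1 / R * (μ D).toReal) atTop (𝓝 (0 * (μ D).toReal)) := by
      have h1 : Tendsto (fun R : ℝ => 1 / R) atTop (𝓝 0) := by
        simpa only [one_div] using tendsto_inv_atTop_zero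
      exact h1.mul_const _
    rw [zero_mul] at hlim
    refine ge_of_tendsto hlim ?_
    filter_upwards [eventually_ge_atTop 1] with R hR
    exact hle R hR
  have hnn : ∀ x, 0 ≤ chi S Γ p 1 x * ell (x 3) :=
    fun x => mul_nonneg (chi_nonneg _ _ _ _ _) (ell_nonneg _)
  have h0 : ∫ x in D, chi S Γ p 1 x * ell (x 3) ∂μ = 0 :=
    le_antisymm hle0 (integral_nonneg hnn)
  obtain ⟨i2, _⟩ := key_estimate hΓ h3 hinv hmin hc hμ hD hμD hp one_pos
  rw [integral_eq_zero_iff_of_nonneg hnn i2] at h0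
  -- the open set where the function is positive
  set N := {x | x ∈ S ∧ chi S Γ p 1 x * ell (x 3) ≠ 0} with hN
  have hcont : ContinuousOn (fun x => chi S Γ p 1 x * ell (x 3)) S :=
    ((chi_glip p one_pos).continuousOn hSurf (by norm_num)).mul
      (continuous_ell.comp (continuous_apply 3)).continuousOn
  obtain ⟨O, hO, hOe⟩ := continuousOn_iff'.1 hcont {0}ᶜ isOpen_compl_singleton
  have hNO : N = S ∩ O := by
    ext x
    constructor
    · rintro ⟨h1, h2⟩
      have : x ∈ (fun x => chi S Γ p 1 x * ell (x 3)) ⁻¹' {0}ᶜ ∩ S := ⟨h2, h1⟩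
      rw [hOe] at this
      exact ⟨h1, this.1⟩
    · rintro ⟨h1, h2⟩
      have : x ∈ O ∩ S := ⟨h2, h1⟩
      rw [← hOe] at this
      exact ⟨h1, this.1⟩
  have hpN : p ∈ N := by
    refine ⟨hp, ?_⟩
    rw [chi_self hp, one_mul]
    exact (ell_pos hp3).ne'
  have hpos : 0 < μ N := by
    rw [hNO]
    rw [hNO] at hpN
    exact hμ.pos_of_open hSurf hO hp hpN.2
  have := countable_of_discrete hΓ
  have hfd : IsFundamentalDomain Γ D μ := isFundamentalDomain hΓ hmin.1 hinv hD hμ.1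
  have : SMulInvariantMeasure Γ V μ :=
    smulInvariant fun g hg => hμ.map_act hSurf (hpres g hg)
  have : MeasurableConstSMul Γ V := measurableConstSMul Γ
  have hNinv : ∀ g : Γ, ∀ x ∈ N, act (g : GL4) x ∈ N := by
    rintro g x ⟨h1, h2⟩
    refine ⟨hinv g g.2 x h1, ?_⟩
    rw [chi_act hpres p 1 x g.2, h3 g g.2]
    exact h2
  have hzero : μ N = 0 := by
    apply hfd.measure_zero_of_invariant N
    · intro g
      ext x
      constructor
      · rintro ⟨y, hy, rfl⟩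
        exact hNinv g y hy
      · intro hx
        refine ⟨act ((g⁻¹ : Γ) : GL4) x, hNinv g⁻¹ x hx, ?_⟩
        change act (g : GL4) (act ((g : GL4)⁻¹) x) = x
        rw [act_act_inv]
    · have h1 : ∀ᵐ x ∂(μ.restrict D), x ∉ N := by
        filter_upwards [h0] with x hx
        rintro ⟨_, h2⟩
        exact h2 hx
      rw [ae_iff] at h1
      simp only [not_not] at h1
      have h2 : {a | a ∈ N} = N := rfl
      rw [h2, Measure.restrict_apply₀'] at h1
      · exact h1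
      · exact hD.1.nullMeasurableSet
  exact hpos.ne' hzero

end Pool.Agent.MP_41c3fc_gt
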