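import Mathlib
import Pool.Agent.MP_41c3fc_gt.Action

set_option autoImplicit false

open Set Filter Topology

namespace Pool.Agent.MP_41c3fc_gt

/-- The isometry of `ℍ³` induced by the action of a `2 × 2` matrix on the symmetric matrices
`(x₀ + x₁, x₂; x₂, x₀ - x₁)`, the coordinate `x₃` being fixed. -/
noncomputable def Phi (A : Matrix (Fin 2) (Fin 2) ℝ) : Matrix (Fin 4) (Fin 4) ℝ :=
  !![(A 0 0 ^ 2 + A 0 1 ^ 2 + A 1 0 ^ 2 + A 1 1 ^ 2) / 2,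
      (A 0 0 ^ 2 + A 1 0 ^ 2 - A 0 1 ^ 2 - A 1 1 ^ 2) / 2, A 0 0 * A 0 1 + A 1 0 * A 1 1, 0;
    (A 0 0 ^ 2 + A 0 1 ^ 2 - A 1 0 ^ 2 - A 1 1 ^ 2) / 2,
      (A 0 0 ^ 2 - A 1 0 ^ 2 - A 0 1 ^ 2 + A 1 1 ^ 2) / 2, A 0 0 * A 0 1 - A 1 0 * A 1 1, 0;
    A 0 0 * A 1 0 + A 0 1 * A 1 1, A 0 0 * A 1 0 - A 0 1 * A 1 1,
      A 0 0 * A 1 1 + A 0 1 * A 1 0, 0;
    0, 0, 0, 1]

theorem Phi_one : Phi 1 = 1 := by
  ext i j
  fin_cases i <;> fin_cases j <;> norm_num [Phi, Matrix.one_apply]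

theorem Phi_mul (A B : Matrix (Fin 2) (Fin 2) ℝ) : Phi (A * B) = Phi A * Phi B := by
  ext i j
  fin_cases i <;> fin_cases j <;>
    simp [Phi, Matrix.mul_apply, Fin.sum_univ_four, Fin.sum_univ_two] <;> ring

/-- `Phi` applied to a vector. -/
theorem Phi_mulVec (A : Matrix (Fin 2) (Fin 2) ℝ) (x : V) : (Phi A).mulVec x =
    ![(A 0 0 ^ 2 + A 0 1 ^ 2 + A 1 0 ^ 2 + A 1 1 ^ 2) / 2 * x 0 +
      (A 0 0 ^ 2 + A 1 0 ^ 2 - A 0 1 ^ 2 - A 1 1 ^ 2) / 2 * x 1 +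
      (A 0 0 * A 0 1 + A 1 0 * A 1 1) * x 2,
      (A 0 0 ^ 2 + A 0 1 ^ 2 - A 1 0 ^ 2 - A 1 1 ^ 2) / 2 * x 0 +
      (A 0 0 ^ 2 - A 1 0 ^ 2 - A 0 1 ^ 2 + A 1 1 ^ 2) / 2 * x 1 +
      (A 0 0 * A 0 1 - A 1 0 * A 1 1) * x 2,
      (A 0 0 * A 1 0 + A 0 1 * A 1 1) * x 0 + (A 0 0 * A 1 0 - A 0 1 * A 1 1) * x 1 +
      (A 0 0 * A 1 1 + A 0 1 * A 1 0) * x 2, x 3] := by
  ext i
  fin_cases i <;>
    simp [Phi, Matrix.mulVec, dotProduct, Fin.sum_univ_four]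

theorem Phi_lor (A : Matrix (Fin 2) (Fin 2) ℝ) (hA : A 0 0 * A 1 1 - A 0 1 * A 1 0 = 1) (x y : V) :
    lor ((Phi A).mulVec x) ((Phi A).mulVec y) = lor x y := by
  have h : lor ((Phi A).mulVec x) ((Phi A).mulVec y) =
      (A 0 0 * A 1 1 - A 0 1 * A 1 0) ^ 2 * (-(x 0 * y 0) + x 1 * y 1 + x 2 * y 2) + x 3 * y 3 := by
    rw [Phi_mulVec, Phi_mulVec]
    simp only [lor, Matrix.cons_val_zero, Matrix.cons_val_one, Matrix.cons_val]
    ring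
  rw [h, hA]
  unfold lor
  ring

theorem Phi_pos (A : Matrix (Fin 2) (Fin 2) ℝ) (hA : A 0 0 * A 1 1 - A 0 1 * A 1 0 = 1) {x : V}
    (hx : x ∈ H3) : 0 < (Phi A).mulVec x 0 := by
  have h0 := hx.2
  have hsq := H3_sq hx
  have hp : 0 < x 0 + x 1 := by nlinarith [sq_nonneg (x 2), sq_nonneg (x 3)]
  have hq : ∀ u v : ℝ, 0 ≤ u ^ 2 * (x 0 + x 1) + 2 * u * v * x 2 + v ^ 2 * (x 0 - x 1) := by
    intro u v
    have h1 : 0 ≤ (x 0 + x 1) * (u ^ 2 * (x 0 + x 1) + 2 * u * v * x 2 + v ^ 2 * (x 0 - x 1)) := by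
      have : (x 0 + x 1) * (u ^ 2 * (x 0 + x 1) + 2 * u * v * x 2 + v ^ 2 * (x 0 - x 1)) =
          (u * (x 0 + x 1) + v * x 2) ^ 2 + v ^ 2 * (1 + x 3 ^ 2) := by
        linear_combination v ^ 2 * hsq
      rw [this]; positivity
    exact nonneg_of_mul_nonneg_right h1 hp
  have hnn : 0 ≤ (Phi A).mulVec x 0 := by
    rw [Phi_mulVec]
    simp only [Matrix.cons_val_zero]
    have h1 := hq (A 0 0) (A 0 1)
    have h2 := hq (A 1 0) (A 1 1)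
    nlinarith
  have hlor := Phi_lor A hA x x
  rw [hx.1] at hlor
  have hne : (Phi A).mulVec x 0 ≠ 0 := by
    intro h
    unfold lor at hlor
    rw [h] at hlor
    nlinarith [sq_nonneg ((Phi A).mulVec x 1), sq_nonneg ((Phi A).mulVec x 2),
      sq_nonneg ((Phi A).mulVec x 3)]
  exact lt_of_le_of_ne hnn hne.symm

theorem isIsom_of_Phi {g : GL4} {A : Matrix (Fin 2) (Fin 2) ℝ}
    (hA : A 0 0 * A 1 1 - A 0 1 * A 1 0 = 1) (hg : (g : Matrix (Fin 4) (Fin 4) ℝ) = Phi A) :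
    IsIsom g := by
  refine ⟨?_, ?_⟩
  · intro x y
    unfold act
    rw [hg]
    exact Phi_lor A hA x y
  · intro x hx
    unfold act
    rw [hg]
    refine ⟨?_, Phi_pos A hA hx⟩
    rw [Phi_lor A hA]
    exact hx.1

/-- Square root of three. -/
noncomputable def s3 : ℝ := √3

theorem s3_sq : s3 ^ 2 = 3 := Real.sq_sqrt (by norm_num)

theorem s3_pos : 0 < s3 := Real.sqrt_pos.2 (by norm_num)

/-- Integral elements of the quaternion algebra. -/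
noncomputable def M2 (x y z w : ℤ) : Matrix (Fin 2) (Fin 2) ℝ :=
  !![(x : ℝ) + y * s3, z + w * s3; -z + w * s3, x - y * s3]

theorem M2_mul (x y z w x' y' z' w' : ℤ) : M2 x y z w * M2 x' y' z' w' =
    M2 (x * x' + 3 * y * y' - z * z' + 3 * w * w') (x * y' + y * x' + z * w' - w * z')
      (x * z' + 3 * y * w' + z * x' - 3 * w * y') (x * w' + y * z' + w * x' - z * y') := by
  have h := s3_sq
  ext i j
  fin_cases i <;> fin_cases j
  · simp [M2, Matrix.mul_apply, Fin.sum_univ_two]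
    linear_combination ((y : ℝ) * y' + w * w') * h
  · simp [M2, Matrix.mul_apply, Fin.sum_univ_two]
    linear_combination ((y : ℝ) * w' - w * y') * h
  · simp [M2, Matrix.mul_apply, Fin.sum_univ_two]
    linear_combination ((w : ℝ) * y' - y * w') * h
  · simp [M2, Matrix.mul_apply, Fin.sum_univ_two]
    linear_combination ((w : ℝ) * w' + y * y') * h

theorem M2_one : M2 1 0 0 0 = 1 := by
  ext i j
  fin_cases i <;> fin_cases j <;> simp [M2]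

theorem M2_det {x y z w : ℤ} (h : x ^ 2 - 3 * y ^ 2 + z ^ 2 - 3 * w ^ 2 = 1) :
    M2 x y z w 0 0 * M2 x y z w 1 1 - M2 x y z w 0 1 * M2 x y z w 1 0 = 1 := by
  have h3 := s3_sq
  have h' : (x : ℝ) ^ 2 - 3 * y ^ 2 + z ^ 2 - 3 * w ^ 2 = 1 := by exact_mod_cast h
  simp [M2]
  linear_combination h' - ((y : ℝ) ^ 2 + w ^ 2) * h3

/-- The group of units of norm one of the quaternion order. -/
def O1 : Subgroup GL4 where
  carrier := {g | ∃ x y z w : ℤ, x ^ 2 - 3 * y ^ 2 + z ^ 2 - 3 * w ^ 2 = 1 ∧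
    (g : Matrix (Fin 4) (Fin 4) ℝ) = Phi (M2 x y z w)}
  one_mem' := ⟨1, 0, 0, 0, by norm_num, by rw [M2_one, Phi_one]; rfl⟩
  mul_mem' := by
    rintro g g' ⟨x, y, z, w, h, hg⟩ ⟨x', y', z', w', h', hg'⟩
    refine ⟨_, _, _, _, ?_, by rw [Units.val_mul, hg, hg', ← Phi_mul, M2_mul]⟩
    linear_combination h' + h * (x' ^ 2 - 3 * y' ^ 2 + z' ^ 2 - 3 * w' ^ 2)
  inv_mem' := by
    rintro g ⟨x, y, z, w, h, hg⟩
    refine ⟨x, -y, -z, -w, by linear_combination h, ?_⟩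
    apply Units.inv_eq_of_mul_eq_one_right
    rw [hg, ← Phi_mul, M2_mul]
    have e1 : x * x + 3 * y * -y - z * -z + 3 * w * -w = 1 := by linear_combination h
    have e2 : x * -y + y * x + z * -w - w * -z = 0 := by ring
    have e3 : x * -z + 3 * y * -w + z * x - 3 * w * -y = 0 := by ring
    have e4 : x * -w + y * -z + w * x - z * -y = 0 := by ring
    rw [e1, e2, e3, e4, M2_one, Phi_one]

theorem O1_isom {g : GL4} (hg : g ∈ O1) : IsIsom g := by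
  obtain ⟨x, y, z, w, h, hg⟩ := hg
  exact isIsom_of_Phi (M2_det h) hg

theorem O1_pres {g : GL4} (hg : g ∈ O1) : Pres H3 g := pres_H3 (O1_isom hg) (O1_isom (O1.inv_mem hg))

theorem O1_fix {g : GL4} (hg : g ∈ O1) (v : V) : act g v 3 = v 3 := by
  obtain ⟨x, y, z, w, h, hg⟩ := hg
  unfold act
  rw [hg, Phi_mulVec]
  rfl

/-- The entry measuring the displacement of the base point. -/
theorem Phi_M2_00 (x y z w : ℤ) : Phi (M2 x y z w) 0 0 = x ^ 2 + 3 * y ^ 2 + z ^ 2 + 3 * w ^ 2 := by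
  have h := s3_sq
  simp [Phi, M2]
  linear_combination ((y : ℝ) ^ 2 + w ^ 2) * h

end Pool.Agent.MP_41c3fc_gt
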