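import Mathlib
import Pool.Agent.MP_41c3fc_gt.Phi
import Pool.Agent.MP_41c3fc_gt.Unfold

set_option autoImplicit false

open Set Filter Topology

namespace Pool.Agent.MP_41c3fc_gt

/-- First generator. -/
noncomputable def gA : GL4 where
  val := Phi (M2 2 1 0 0)
  inv := Phi (M2 2 (-1) 0 0)
  val_inv := by rw [← Phi_mul, M2_mul]; norm_num; rw [M2_one, Phi_one]
  inv_val := by rw [← Phi_mul, M2_mul]; norm_num; rw [M2_one, Phi_one]

/-- Second generator. -/
noncomputable def gB : GL4 where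
  val := Phi (M2 2 0 0 1)
  inv := Phi (M2 2 0 0 (-1))
  val_inv := by rw [← Phi_mul, M2_mul]; norm_num; rw [M2_one, Phi_one]
  inv_val := by rw [← Phi_mul, M2_mul]; norm_num; rw [M2_one, Phi_one]

theorem gA_mem : gA ∈ O1 := ⟨2, 1, 0, 0, by norm_num, rfl⟩

theorem gB_mem : gB ∈ O1 := ⟨2, 0, 0, 1, by norm_num, rfl⟩

theorem act_gA (x : V) : act gA x = ![7 * x 0 + 4 * s3 * x 1, 4 * s3 * x 0 + 7 * x 1, x 2, x 3] := by
  have h := s3_sq
  change (Phi (M2 2 1 0 0)).mulVec x = _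
  rw [Phi_mulVec]
  ext i
  fin_cases i
  · simp [M2]
    linear_combination (x 0) * h
  · simp [M2]
    linear_combination (x 1) * h
  · simp [M2]
    linear_combination (-(x 2)) * h
  · simp

theorem act_gA_inv (x : V) :
    act gA⁻¹ x = ![7 * x 0 - 4 * s3 * x 1, -(4 * s3 * x 0) + 7 * x 1, x 2, x 3] := by
  have h := s3_sq
  change (Phi (M2 2 (-1) 0 0)).mulVec x = _
  rw [Phi_mulVec]
  ext i
  fin_cases i
  · simp [M2]
    linear_combination (x 0) * h
  · simp [M2]
    linear_combination (x 1) * h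
  · simp [M2]
    linear_combination (-(x 2)) * h
  · simp

theorem act_gB (x : V) : act gB x = ![7 * x 0 + 4 * s3 * x 2, x 1, 4 * s3 * x 0 + 7 * x 2, x 3] := by
  have h := s3_sq
  change (Phi (M2 2 0 0 1)).mulVec x = _
  rw [Phi_mulVec]
  ext i
  fin_cases i
  · simp [M2]
    linear_combination (x 0) * h
  · simp [M2]
    linear_combination (-(x 1)) * h
  · simp [M2]
    linear_combination (x 2) * h
  · simp

theorem act_gB_inv (x : V) :
    act gB⁻¹ x = ![7 * x 0 - 4 * s3 * x 2, x 1, -(4 * s3 * x 0) + 7 * x 2, x 3] := by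
  have h := s3_sq
  change (Phi (M2 2 0 0 (-1))).mulVec x = _
  rw [Phi_mulVec]
  ext i
  fin_cases i
  · simp [M2]
    linear_combination (x 0) * h
  · simp [M2]
    linear_combination (-(x 1)) * h
  · simp [M2]
    linear_combination (x 2) * h
  · simp

/-! ### Ping-pong -/

/-- Points of `ℍ³`. -/
def HPt : Type := {x : V // x ∈ H3}

noncomputable instance : MulAction O1 HPt where
  smul g x := ⟨act (g : GL4) x.1, (O1_isom g.2).2 _ x.2⟩
  one_smul x := Subtype.ext (act_one x.1)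
  mul_smul g h x := Subtype.ext (act_mul _ _ _)

theorem smul_val (g : O1) (x : HPt) : (g • x).1 = act (g : GL4) x.1 := rfl

/-- The two generators. -/
noncomputable def gens : Fin 2 → O1 := ![⟨gA, gA_mem⟩, ⟨gB, gB_mem⟩]

/-- The coordinate in the direction of which a generator moves. -/
def co : Fin 2 → Fin 4 := ![1, 2]

/-- The attracting half-spaces. -/
def setX (i : Fin 2) : Set HPt := {x | s3 * x.1 0 ≤ 2 * x.1 (co i)}

/-- The repelling half-spaces. -/
def setY (i : Fin 2) : Set HPt := {x | 2 * x.1 (co i) < -(s3 * x.1 0)}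

theorem gens_act_co (i : Fin 2) (x : V) :
    act (gens i : GL4) x (co i) = 4 * s3 * x 0 + 7 * x (co i) ∧
    act (gens i : GL4) x 0 = 7 * x 0 + 4 * s3 * x (co i) := by
  fin_cases i
  · change act gA x 1 = _ ∧ act gA x 0 = _
    rw [act_gA]
    exact ⟨rfl, rfl⟩
  · change act gB x 2 = _ ∧ act gB x 0 = _
    rw [act_gB]
    exact ⟨rfl, rfl⟩

theorem gens_inv_act_co (i : Fin 2) (x : V) :
    act ((gens i)⁻¹ : O1) x (co i) = -(4 * s3 * x 0) + 7 * x (co i) ∧
    act ((gens i)⁻¹ : O1) x 0 = 7 * x 0 - 4 * s3 * x (co i) := by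
  fin_cases i
  · change act gA⁻¹ x 1 = _ ∧ act gA⁻¹ x 0 = _
    rw [act_gA_inv]
    exact ⟨rfl, rfl⟩
  · change act gB⁻¹ x 2 = _ ∧ act gB⁻¹ x 0 = _
    rw [act_gB_inv]
    exact ⟨rfl, rfl⟩

theorem pp_false {x : V} (hx : x ∈ H3) {i j : Fin 2} (hij : i ≠ j)
    (h1 : 3 * x 0 ^ 2 ≤ 4 * x (co i) ^ 2) (h2 : 3 * x 0 ^ 2 ≤ 4 * x (co j) ^ 2) : False := by
  have h := H3_sq hx
  have hsum : x (co i) ^ 2 + x (co j) ^ 2 = x 1 ^ 2 + x 2 ^ 2 := by
    fin_cases i <;> fin_cases j
    · exact absurd rfl hij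
    · rfl
    · change x 2 ^ 2 + x 1 ^ 2 = _; ring
    · exact absurd rfl hij
  nlinarith [sq_nonneg (x 3), sq_nonneg (x 0)]

theorem sq_of_X {i : Fin 2} {x : HPt} (h : x ∈ setX i) : 3 * x.1 0 ^ 2 ≤ 4 * x.1 (co i) ^ 2 := by
  have h' : s3 * x.1 0 ≤ 2 * x.1 (co i) := h
  have h0 : 0 ≤ s3 * x.1 0 := mul_nonneg s3_pos.le x.2.2.le
  have h1 : (s3 * x.1 0) ^ 2 ≤ (2 * x.1 (co i)) ^ 2 := pow_le_pow_left₀ h0 h' 2
  have h3 := s3_sq
  nlinarith

theorem sq_of_Y {i : Fin 2} {x : HPt} (h : x ∈ setY i) : 3 * x.1 0 ^ 2 ≤ 4 * x.1 (co i) ^ 2 := by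
  have h' : 2 * x.1 (co i) < -(s3 * x.1 0) := h
  have h0 : 0 ≤ s3 * x.1 0 := mul_nonneg s3_pos.le x.2.2.le
  have h1 : (s3 * x.1 0) ^ 2 ≤ (-(2 * x.1 (co i))) ^ 2 := pow_le_pow_left₀ h0 (by linarith) 2
  have h3 := s3_sq
  nlinarith

theorem lift_injective : Function.Injective (FreeGroup.lift gens) := by
  apply FreeGroup.injective_lift_of_ping_pong gens setX setY
  · intro i
    have hm : (![2, if i = 0 then s3 else 0, if i = 0 then 0 else s3, 0] : V) ∈ H3 := by
      have h := s3_sq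
      constructor
      · simp only [lor, Matrix.cons_val_zero, Matrix.cons_val_one, Matrix.cons_val]
        split_ifs <;> nlinarith
      · simp
    refine ⟨⟨_, hm⟩, ?_⟩
    change s3 * _ ≤ 2 * _
    fin_cases i
    · simp [co, mul_comm]
    · simp [co, mul_comm]
  · intro i j hij
    change Disjoint (setX i) (setX j)
    rw [Set.disjoint_left]
    intro x h1 h2
    exact pp_false x.2 hij (sq_of_X h1) (sq_of_X h2)
  · intro i j hij
    change Disjoint (setY i) (setY j)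
    rw [Set.disjoint_left]
    intro x h1 h2
    exact pp_false x.2 hij (sq_of_Y h1) (sq_of_Y h2)
  · intro i j
    rw [Set.disjoint_left]
    intro x h1 h2
    by_cases hij : i = j
    · subst hij
      have h1' : s3 * x.1 0 ≤ 2 * x.1 (co i) := h1
      have h2' : 2 * x.1 (co i) < -(s3 * x.1 0) := h2
      have h0 : 0 < s3 * x.1 0 := mul_pos s3_pos x.2.2
      linarith
    · exact pp_false x.2 hij (sq_of_X h1) (sq_of_Y h2)
  · rintro i _ ⟨x, hx, rfl⟩
    have hx' : -(s3 * x.1 0) ≤ 2 * x.1 (co i) := not_lt.1 hx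
    change s3 * act (gens i : GL4) x.1 0 ≤ 2 * act (gens i : GL4) x.1 (co i)
    rw [(gens_act_co i x.1).1, (gens_act_co i x.1).2]
    have h3 := s3_sq
    have e : 2 * (4 * s3 * x.1 0 + 7 * x.1 (co i)) - s3 * (7 * x.1 0 + 4 * s3 * x.1 (co i)) =
        s3 * x.1 0 + 2 * x.1 (co i) := by linear_combination (-4 * x.1 (co i)) * h3
    linarith
  · rintro i _ ⟨x, hx, rfl⟩
    have hx' : 2 * x.1 (co i) < s3 * x.1 0 := not_le.1 hx
    change 2 * act ((gens i)⁻¹ : O1) x.1 (co i) < -(s3 * act ((gens i)⁻¹ : O1) x.1 0)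
    rw [(gens_inv_act_co i x.1).1, (gens_inv_act_co i x.1).2]
    have h3 := s3_sq
    have e : 2 * (-(4 * s3 * x.1 0) + 7 * x.1 (co i)) +
        s3 * (7 * x.1 0 - 4 * s3 * x.1 (co i)) = -(s3 * x.1 0) + 2 * x.1 (co i) := by
      linear_combination (-4 * x.1 (co i)) * h3
    linarith

/-- The embedding of the free group. -/
noncomputable def theta : FreeGroup (Fin 2) →* GL4 := O1.subtype.comp (FreeGroup.lift gens)

theorem theta_injective : Function.Injective theta :=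
  Subtype.val_injective.comp lift_injective

theorem theta_mem_O1 (w : FreeGroup (Fin 2)) : theta w ∈ O1 := (FreeGroup.lift gens w).2

theorem theta_of_zero : theta (FreeGroup.of 0) = gA := by simp [theta, gens]

theorem theta_of_one : theta (FreeGroup.of 1) = gB := by simp [theta, gens]

/-- Exponent sum of the second generator. -/
def expo : FreeGroup (Fin 2) →* Multiplicative ℤ := FreeGroup.lift ![1, Multiplicative.ofAdd 1]

/-- The group of the example. -/
noncomputable def Gam : Subgroup GL4 := expo.ker.map theta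

theorem Gam_le : Gam ≤ theta.range := by
  rintro _ ⟨w, _, rfl⟩
  exact ⟨w, rfl⟩

theorem range_le_O1 : theta.range ≤ O1 := by
  rintro _ ⟨w, rfl⟩
  exact theta_mem_O1 w

theorem torsion_range {g : GL4} (hg : g ∈ theta.range) (h : IsOfFinOrder g) : g = 1 := by
  obtain ⟨w, rfl⟩ := hg
  rw [theta_injective.isOfFinOrder_iff] at h
  obtain ⟨n, hn, hw⟩ := isOfFinOrder_iff_pow_eq_one.1 h
  have h1 : w = 1 := by
    have hinj := pow_left_injective (M := FreeGroup (Fin 2)) hn.ne'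
    apply hinj
    simp only [hw, one_pow]
  rw [h1, map_one]

theorem Phi_neg_one : Phi (M2 (-1) 0 0 0) = 1 := by
  ext i j
  fin_cases i <;> fin_cases j <;> norm_num [Phi, M2]

theorem sq_eq_one_imp {g : GL4} (hg : g ∈ theta.range) (h : g * g = 1) : g = 1 := by
  apply torsion_range hg
  rw [isOfFinOrder_iff_pow_eq_one]
  exact ⟨2, by norm_num, by rw [sq, h]⟩

/-- Infinite descent. -/
theorem descent : ∀ n : ℕ, ∀ y z w : ℤ, z.natAbs = n → z ^ 2 = 3 * (y ^ 2 + w ^ 2) → z = 0 := by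
  intro n
  induction n using Nat.strong_induction_on with
  | _ n ih =>
    intro y z w hn h
    by_contra hz
    have hz3 : (3 : ℤ) ∣ z := by
      have : (3 : ℤ) ∣ z ^ 2 := ⟨_, h⟩
      exact Int.prime_three.dvd_of_dvd_pow this
    obtain ⟨z', rfl⟩ := hz3
    have h1 : y ^ 2 + w ^ 2 = 3 * z' ^ 2 := by nlinarith
    have hmod : ∀ t : ℤ, t % 3 = 0 ∨ t % 3 = 1 ∨ t % 3 = 2 := fun t => by omega
    have hsq : ∀ t : ℤ, (t % 3 = 0 ∧ t ^ 2 % 3 = 0) ∨ (t % 3 ≠ 0 ∧ t ^ 2 % 3 = 1) := by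
      intro t
      rcases hmod t with h | h | h
      · left; exact ⟨h, by rw [sq, Int.mul_emod, h]; rfl⟩
      · right; exact ⟨by omega, by rw [sq, Int.mul_emod, h]; rfl⟩
      · right; exact ⟨by omega, by rw [sq, Int.mul_emod, h]; rfl⟩
    have hy : y % 3 = 0 ∧ w % 3 = 0 := by
      rcases hsq y with ⟨a, b⟩ | ⟨a, b⟩ <;> rcases hsq w with ⟨c, d⟩ | ⟨c, d⟩ <;> omega
    obtain ⟨y', rfl⟩ : (3 : ℤ) ∣ y := Int.dvd_of_emod_eq_zero hy.1
    obtain ⟨w', rfl⟩ : (3 : ℤ) ∣ w := Int.dvd_of_emod_eq_zero hy.2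
    have h2 : z' ^ 2 = 3 * (y' ^ 2 + w' ^ 2) := by nlinarith
    have hz' : z' ≠ 0 := by rintro rfl; exact hz rfl
    have hlt : z'.natAbs < n := by
      rw [← hn, Int.natAbs_mul]
      have : 0 < z'.natAbs := Int.natAbs_pos.2 hz'
      change z'.natAbs < 3 * z'.natAbs
      omega
    exact hz' (ih _ hlt y' z' w' rfl h2)

theorem eq_one_of_val {g : GL4} (h : (g : Matrix (Fin 4) (Fin 4) ℝ) = 1) : g = 1 := Units.ext h

/-- Non-trivial elements are hyperbolic. -/
theorem four_le_sq {g : GL4} (hg : g ∈ theta.range) (hne : g ≠ 1) {x y z w : ℤ}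
    (h : x ^ 2 - 3 * y ^ 2 + z ^ 2 - 3 * w ^ 2 = 1)
    (hv : (g : Matrix (Fin 4) (Fin 4) ℝ) = Phi (M2 x y z w)) : 4 ≤ x ^ 2 := by
  by_contra hcon
  have hx : x = 0 ∨ x = 1 ∨ x = -1 := by
    have h1 : x ^ 2 < 4 := not_le.1 hcon
    have h2 : x < 2 := by nlinarith
    have h3 : -2 < x := by nlinarith
    omega
  have hunit : x = 1 ∨ x = -1 → False := by
    intro hx
    have hx2 : x ^ 2 = 1 := by rcases hx with rfl | rfl <;> norm_num
    have hz := descent _ y z w rfl (by linarith)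
    subst hz
    have hyw : y ^ 2 + w ^ 2 = 0 := by nlinarith
    have hy : y = 0 := by nlinarith [sq_nonneg y, sq_nonneg w]
    have hw : w = 0 := by nlinarith [sq_nonneg y, sq_nonneg w]
    subst hy hw
    apply hne
    apply eq_one_of_val
    rw [hv]
    rcases hx with rfl | rfl
    · rw [M2_one, Phi_one]
    · exact Phi_neg_one
  rcases hx with rfl | hx
  · apply hne
    apply sq_eq_one_imp hg
    apply eq_one_of_val
    rw [Units.val_mul, hv, ← Phi_mul, M2_mul]
    have e1 : (0 : ℤ) * 0 + 3 * y * y - z * z + 3 * w * w = -1 := by linear_combination -h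
    have e2 : (0 : ℤ) * y + y * 0 + z * w - w * z = 0 := by ring
    have e3 : (0 : ℤ) * z + 3 * y * w + z * 0 - 3 * w * y = 0 := by ring
    have e4 : (0 : ℤ) * w + y * z + w * 0 - z * y = 0 := by ring
    rw [e1, e2, e3, e4]
    exact Phi_neg_one
  · exact hunit hx

theorem act_e0_zero (g : GL4) : act g e0 0 = (g : Matrix (Fin 4) (Fin 4) ℝ) 0 0 := by
  simp [act, e0, Matrix.mulVec, dotProduct, Fin.sum_univ_four]

theorem seven_le {g : GL4} (hg : g ∈ theta.range) (hne : g ≠ 1) : 7 ≤ act g e0 0 := by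
  obtain ⟨x, y, z, w, h, hv⟩ := range_le_O1 hg
  rw [act_e0_zero, hv, Phi_M2_00]
  have hyw : 1 ≤ y ^ 2 + w ^ 2 := by
    by_contra hcon
    have h0 : y ^ 2 + w ^ 2 = 0 := by nlinarith [sq_nonneg y, sq_nonneg w]
    have h4 := four_le_sq hg hne h hv
    nlinarith [sq_nonneg z]
  have hR : (x : ℝ) ^ 2 - 3 * y ^ 2 + z ^ 2 - 3 * w ^ 2 = 1 := by exact_mod_cast h
  have hywR : (1 : ℝ) ≤ (y : ℝ) ^ 2 + w ^ 2 := by exact_mod_cast hyw
  linarith

theorem disp_le {g : GL4} (hg : IsIsom g) {x : V} (hx : x ∈ H3) :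
    act g e0 0 ≤ 2 * act g x 0 * x 0 := by
  have h1 := lor_H3_le (hg.2 x hx) (hg.2 e0 e0_mem)
  rw [hg.1] at h1
  have h2 : -lor x e0 = x 0 := by simp [lor, e0]
  rw [h2, div_le_iff₀ (by have := (hg.2 x hx).2; positivity)] at h1
  linarith

/-- The base ball. -/
def ballU : Set V := {x | x ∈ H3 ∧ x 0 < 3 / 2}

theorem ballU_disj {g : GL4} (hg : g ∈ theta.range) (hne : g ≠ 1) {x : V} (hx : x ∈ ballU) :
    act g x ∉ ballU := by
  intro hgx
  have h1 := seven_le hg hne
  have h2 := disp_le (O1_isom (range_le_O1 hg)) hx.1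
  have h3 := hx.2
  have h4 := hgx.2
  have h5 := hx.1.2
  have h6 := hgx.1.2
  nlinarith

/-- Discreteness. -/
theorem O1_discrete {K : Set V} (hK : K ⊆ H3) (hKc : IsCompact K) :
    {g : GL4 | g ∈ O1 ∧ ∃ x ∈ K, act g x ∈ K}.Finite := by
  obtain ⟨C, hC⟩ := hKc.bddAbove_image (continuous_apply (0 : Fin 4)).continuousOn
  have hC' : ∀ x ∈ K, x 0 ≤ C := fun x hx => hC (mem_image_of_mem _ hx)
  obtain ⟨N, hN⟩ := exists_nat_ge (2 * C * C)
  set box : Set (ℤ × ℤ × ℤ × ℤ) := Icc (-(N : ℤ)) N ×ˢ Icc (-(N : ℤ)) N ×ˢ Icc (-(N : ℤ)) N ×ˢ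
    Icc (-(N : ℤ)) N with hbox
  have hfin : box.Finite := (finite_Icc _ _).prod ((finite_Icc _ _).prod
    ((finite_Icc _ _).prod (finite_Icc _ _)))
  have hfin2 := hfin.image (fun q : ℤ × ℤ × ℤ × ℤ => Phi (M2 q.1 q.2.1 q.2.2.1 q.2.2.2))
  have hfin3 := hfin2.preimage (f := fun g : GL4 => (g : Matrix (Fin 4) (Fin 4) ℝ))
    Units.val_injective.injOn
  refine hfin3.subset ?_
  rintro g ⟨hg, x, hx, hgx⟩
  have hiso := O1_isom hg
  obtain ⟨a, b, c, d, h, hv⟩ := hg
  have h1 := disp_le hiso (hK hx)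
  rw [act_e0_zero, hv, Phi_M2_00] at h1
  have h2 := hC' x hx
  have h3 := hC' _ hgx
  have h4 := (hK hx).2
  have h5 := (hK hgx).2
  have h6 : (a : ℝ) ^ 2 + 3 * b ^ 2 + c ^ 2 + 3 * d ^ 2 ≤ N := by
    refine h1.trans (le_trans ?_ hN)
    have : act g x 0 * x 0 ≤ C * C := mul_le_mul h3 h2 h4.le (h5.le.trans h3)
    nlinarith
  have h7 : a ^ 2 + 3 * b ^ 2 + c ^ 2 + 3 * d ^ 2 ≤ N := by exact_mod_cast h6
  have habs : ∀ t : ℤ, t ^ 2 ≤ N → t ∈ Icc (-(N : ℤ)) N := by
    intro t ht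
    have h8 : |t| ≤ t ^ 2 := by
      rcases eq_or_ne t 0 with rfl | h0
      · simp
      · rw [← sq_abs]
        have : 1 ≤ |t| := Int.one_le_abs h0
        nlinarith
    exact abs_le.1 (h8.trans ht)
  refine ⟨(a, b, c, d), ⟨habs a ?_, habs b ?_, habs c ?_, habs d ?_⟩, hv.symm⟩ <;>
    nlinarith [sq_nonneg a, sq_nonneg b, sq_nonneg c, sq_nonneg d]

theorem Gam_discrete : IsDiscreteTorsionFree Gam where
  isom g hg := O1_isom (range_le_O1 (Gam_le hg))
  discrete K hK hKc := (O1_discrete hK hKc).subset fun _ hg =>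
    ⟨range_le_O1 (Gam_le hg.1), hg.2⟩
  torsionFree g hg h := torsion_range (Gam_le hg) h

/-! ### No parabolic elements -/

/-- The isotropic vector of a vector of the plane. -/
noncomputable def iso (u v : ℝ) : V := ![(u ^ 2 + v ^ 2) / 2, (u ^ 2 - v ^ 2) / 2, u * v, 0]

theorem iso_lor (u v : ℝ) : lor (iso u v) (iso u v) = 0 := by
  simp only [lor, iso, Matrix.cons_val_zero, Matrix.cons_val_one, Matrix.cons_val]
  ring

theorem Phi_iso (A : Matrix (Fin 2) (Fin 2) ℝ) (u v : ℝ) :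
    (Phi A).mulVec (iso u v) = iso (A 0 0 * u + A 0 1 * v) (A 1 0 * u + A 1 1 * v) := by
  rw [Phi_mulVec]
  ext i
  fin_cases i
  · simp [iso]; ring
  · simp [iso]; ring
  · simp [iso]; ring
  · simp [iso]

theorem iso_smul (c u v : ℝ) : iso (c * u) (c * v) = c ^ 2 • iso u v := by
  ext i
  fin_cases i
  · simp [iso]; ring
  · simp [iso]; ring
  · simp [iso]; ring
  · simp [iso]

theorem iso_mem_fixed {g : GL4} {A : Matrix (Fin 2) (Fin 2) ℝ}
    (hg : (g : Matrix (Fin 4) (Fin 4) ℝ) = Phi A) {u v c : ℝ} (hc : c ≠ 0)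
    (huv : 0 < u ^ 2 + v ^ 2) (h1 : A 0 0 * u + A 0 1 * v = c * u)
    (h2 : A 1 0 * u + A 1 1 * v = c * v) : iso u v ∈ fixedIdeal g := by
  refine ⟨iso_lor u v, ?_, c ^ 2, by positivity, ?_⟩
  · simp only [iso, Matrix.cons_val_zero]; linarith
  · unfold act
    rw [hg, Phi_iso, h1, h2, iso_smul]

theorem not_parabolic {g : GL4} (hg : g ∈ theta.range) : ¬ IsParabolic g := by
  rintro ⟨hfix, v, hv, huniq⟩
  by_cases hne : g = 1
  · exact hfix e0 e0_mem (by rw [hne, act_one])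
  obtain ⟨x, y, z, w, h, hval⟩ := range_le_O1 hg
  have h4 := four_le_sq hg hne h hval
  have h4R : (4 : ℝ) ≤ (x : ℝ) ^ 2 := by exact_mod_cast h4
  set A := M2 x y z w with hA
  have hdet : A 0 0 * A 1 1 - A 0 1 * A 1 0 = 1 := M2_det h
  have htr : A 0 0 + A 1 1 = 2 * x := by
    simp [hA, M2]; ring
  -- two fixed rays
  have key : ∃ p q : ℝ × ℝ, iso p.1 p.2 ∈ fixedIdeal g ∧ iso q.1 q.2 ∈ fixedIdeal g ∧
      ∀ c : ℝ, 0 < c → iso p.1 p.2 ≠ c • iso q.1 q.2 := by
    by_cases hb : A 0 1 = 0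
    · have hd : A 0 0 * A 1 1 = 1 := by rw [hb] at hdet; linarith
      have hdne : A 1 1 ≠ 0 := by intro h0; rw [h0] at hd; simp at hd
      have hane : A 0 0 ≠ 0 := by intro h0; rw [h0] at hd; simp at hd
      have hdiff : 0 < (A 0 0 - A 1 1) ^ 2 := by
        have e : (A 0 0 - A 1 1) ^ 2 = (A 0 0 + A 1 1) ^ 2 - 4 * (A 0 0 * A 1 1) := by ring
        rw [e, htr, hd]
        linarith
      refine ⟨(0, 1), (A 0 0 - A 1 1, A 1 0), ?_, ?_, ?_⟩
      · exact iso_mem_fixed hval hdne (by norm_num) (by rw [hb]; ring) (by ring)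
      · refine iso_mem_fixed hval hane ?_ ?_ ?_
        · have := sq_nonneg (A 1 0); linarith
        · simp only; rw [hb]; ring
        · simp only; ring
      · intro c hc heq
        have e0 := congrFun heq 0
        have e1 := congrFun heq 1
        simp only [iso, Pi.smul_apply, smul_eq_mul, Matrix.cons_val_zero,
          Matrix.cons_val_one] at e0 e1
        have : c * (A 0 0 - A 1 1) ^ 2 = 0 := by linarith
        have hpos : 0 < c * (A 0 0 - A 1 1) ^ 2 := mul_pos hc hdiff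
        linarith
    · set r := √((x : ℝ) ^ 2 - 1) with hr
      have hrpos : 0 < r := Real.sqrt_pos.2 (by linarith)
      have hr2 : r ^ 2 = (x : ℝ) ^ 2 - 1 := Real.sq_sqrt (by linarith)
      have hbpos : 0 < A 0 1 ^ 2 := by positivity
      have hprod : (x + r) * (x - r) = 1 := by nlinarith
      have hn1 : (x : ℝ) + r ≠ 0 := by intro h0; rw [h0] at hprod; simp at hprod
      have hn2 : (x : ℝ) - r ≠ 0 := by intro h0; rw [h0] at hprod; simp at hprod
      refine ⟨(A 0 1, x + r - A 0 0), (A 0 1, x - r - A 0 0), ?_, ?_, ?_⟩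
      · refine iso_mem_fixed hval hn1 ?_ ?_ ?_
        · have := sq_nonneg ((x : ℝ) + r - A 0 0); simp only; linarith
        · simp only; ring
        · simp only
          linear_combination -hdet - hr2 + (x + r) * htr
      · refine iso_mem_fixed hval hn2 ?_ ?_ ?_
        · have := sq_nonneg ((x : ℝ) - r - A 0 0); simp only; linarith
        · simp only; ring
        · simp only
          linear_combination -hdet - hr2 + (x - r) * htr
      · intro c hc heq
        have e0 := congrFun heq 0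
        have e1 := congrFun heq 1
        have e2 := congrFun heq 2
        simp only [iso, Pi.smul_apply, smul_eq_mul, Matrix.cons_val_zero,
          Matrix.cons_val_one, Matrix.cons_val] at e0 e1 e2
        have h5 : A 0 1 ^ 2 * (1 - c) = 0 := by linarith
        have h6 : c = 1 := by
          rcases mul_eq_zero.1 h5 with h' | h'
          · exact absurd h' hbpos.ne'
          · linarith
        rw [h6] at e2
        have h7 : A 0 1 * (2 * r) = 0 := by linarith
        rcases mul_eq_zero.1 h7 with h' | h'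
        · exact hb h'
        · linarith
  obtain ⟨p, q, hp, hq, hpq⟩ := key
  obtain ⟨c1, hc1, e1⟩ := huniq _ hp
  obtain ⟨c2, hc2, e2⟩ := huniq _ hq
  apply hpq (c1 / c2) (by positivity)
  rw [e2, smul_smul, div_mul_cancel₀ _ hc2.ne', e1]

end Pool.Agent.MP_41c3fc_gt
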