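import Mathlib
import Pool.Agent.MP_41c3fc_gt.Unfold

set_option autoImplicit false

open MeasureTheory Set Filter Topology
open scoped ENNReal NNReal Pointwise

namespace Pool.Agent.MP_41c3fc_gt

theorem image_act_eq (g : GL4) (A : Set V) : act g '' A = act g⁻¹ ⁻¹' A := by
  ext x
  constructor
  · rintro ⟨y, hy, rfl⟩
    change act g⁻¹ (act g y) ∈ A
    rwa [act_inv_act]
  · intro hx
    exact ⟨act g⁻¹ x, hx, act_act_inv g x⟩

theorem measurableSet_image_act (g : GL4) {A : Set V} (hA : MeasurableSet A) :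
    MeasurableSet (act g '' A) := by
  rw [image_act_eq]; exact measurable_act _ hA

/-- If infinitely many translates of a set of positive measure are pairwise inequivalent, the
quotient has infinite measure. -/
theorem measure_inter_eq_top {F Γ : Subgroup GL4} (hΓ : IsDiscreteTorsionFree Γ) (hΓF : Γ ≤ F)
    {X D U Y : Set V} (hX : X ⊆ H3) (hinv : IsInvariantSet Γ X) (hD : IsFundamentalSet Γ X D)
    {m : Measure V} (hm : m Xᶜ = 0) (hmi : ∀ g ∈ F, m.map (act g) = m) (hU : MeasurableSet U)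
    (hUpos : 0 < m U) (hUdisj : ∀ g ∈ F, g ≠ 1 → ∀ x ∈ U, act g x ∉ U) (b : ℕ → GL4)
    (hbF : ∀ k, b k ∈ F) (hb : ∀ j k, j ≠ k → b k * (b j)⁻¹ ∉ Γ)
    (hY : ∀ k, ∀ x ∈ U, act (b k) x ∈ Y) (hYinv : IsInvariantSet Γ Y) : m (D ∩ Y) = ⊤ := by
  have := countable_of_discrete hΓ
  have hfd : IsFundamentalDomain Γ D m := isFundamentalDomain hΓ hX hinv hD hm
  have : SMulInvariantMeasure Γ V m := smulInvariant fun g hg => hmi g (hΓF hg)
  have : MeasurableConstSMul Γ V := measurableConstSMul Γ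
  set B : ℕ → Set V := fun k => act (b k) '' U with hB
  have hBm : ∀ k, MeasurableSet (B k) := fun k => measurableSet_image_act _ hU
  have hBmeas : ∀ k, m (B k) = m U := by
    intro k
    rw [hB]
    simp only
    rw [image_act_eq, ← Measure.map_apply (measurable_act _) hU, hmi _ (F.inv_mem (hbF k))]
  set C : ℕ × Γ → Set V := fun q => q.2 • B q.1 ∩ D with hC
  have hgB : ∀ (g : Γ) (k : ℕ), g • B k = act (g : GL4) '' B k := fun g k => rfl
  have hCm : ∀ q, MeasurableSet (C q) := by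
    intro q
    apply MeasurableSet.inter _ hD.1
    rw [hgB]
    exact measurableSet_image_act _ (hBm _)
  have hdisj : Pairwise (Function.onFun Disjoint C) := by
    rintro ⟨k, g⟩ ⟨j, g'⟩ hne
    change Disjoint (C (k, g)) (C (j, g'))
    rw [Set.disjoint_left]
    rintro x ⟨hx1, _⟩ ⟨hx2, _⟩
    obtain ⟨_, ⟨u, hu, rfl⟩, hux⟩ := hx1
    obtain ⟨_, ⟨u', hu', rfl⟩, hux'⟩ := hx2
    change act (g : GL4) (act (b k) u) = x at hux
    change act (g' : GL4) (act (b j) u') = x at hux'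
    set h : GL4 := (b j)⁻¹ * (g' : GL4)⁻¹ * g * b k with hh
    have e1 : act h u = u' := by
      rw [hh, act_mul, act_mul, act_mul, hux, ← hux', act_inv_act, act_inv_act]
    have hhF : h ∈ F := F.mul_mem (F.mul_mem (F.mul_mem (F.inv_mem (hbF j))
      (F.inv_mem (hΓF g'.2))) (hΓF g.2)) (hbF k)
    have h1 : h = 1 := by
      by_contra hcon
      exact hUdisj h hhF hcon u hu (e1 ▸ hu')
    have e2 : (g : GL4) * b k = g' * b j := by
      have h2 : (g' : GL4) * (b j * ((b j)⁻¹ * (g' : GL4)⁻¹ * g * b k)) = g' * (b j * 1) := by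
        rw [← hh, h1]
      simpa [mul_assoc] using h2
    have e3 : b k * (b j)⁻¹ = (g : GL4)⁻¹ * g' := by
      have h3 : (g : GL4)⁻¹ * (g * b k) * (b j)⁻¹ = (g : GL4)⁻¹ * (g' * b j) * (b j)⁻¹ := by
        rw [e2]
      simpa [mul_assoc] using h3
    by_cases hjk : j = k
    · subst hjk
      have e4 : (g : GL4) = g' := mul_right_cancel e2
      exact hne (by rw [Subtype.ext e4])
    · exact hb j k hjk (e3 ▸ Γ.mul_mem (Γ.inv_mem g.2) g'.2)
  have hsum : m (⋃ q, C q) = ⊤ := by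
    rw [measure_iUnion hdisj hCm]
    have h1 : ∑' q : ℕ × Γ, m (C q) = ∑' k : ℕ, ∑' g : Γ, m (g • B k ∩ D) :=
      ENNReal.tsum_prod (f := fun k g => m (g • B k ∩ D))
    rw [h1]
    have h2 : ∀ k, ∑' g : Γ, m (g • B k ∩ D) = m U := by
      intro k
      rw [← hfd.measure_eq_tsum, hBmeas]
    simp only [h2]
    exact ENNReal.tsum_const_eq_top_of_ne_zero hUpos.ne'
  rw [eq_top_iff, ← hsum]
  apply measure_mono
  intro x hx
  obtain ⟨⟨k, g⟩, hx1, hx2⟩ := mem_iUnion.1 hx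
  obtain ⟨_, ⟨u, hu, rfl⟩, hux⟩ := hx1
  exact ⟨hx2, hux ▸ hYinv g g.2 _ (hY k u hu)⟩

end Pool.Agent.MP_41c3fc_gt
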