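import Mathlib
import Pool.Agent.MP_41c3fc_gt.Group
import Pool.Agent.MP_41c3fc_gt.Infinite

set_option autoImplicit false

open MeasureTheory Set Filter Topology
open scoped ENNReal NNReal

namespace Pool.Agent.MP_41c3fc_gt

/-- Time coordinate of the graph. -/
noncomputable def wt (p : Fin 3 → ℝ) : ℝ := √(1 + (p 0 ^ 2 + p 1 ^ 2 + p 2 ^ 2))

theorem wt_pos (p : Fin 3 → ℝ) : 0 < wt p := Real.sqrt_pos.2 (by positivity)

theorem wt_sq (p : Fin 3 → ℝ) : wt p ^ 2 = 1 + (p 0 ^ 2 + p 1 ^ 2 + p 2 ^ 2) :=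
  Real.sq_sqrt (by positivity)

theorem abs_lt_wt (p : Fin 3 → ℝ) (j : Fin 3) : |p j| < wt p := by
  apply abs_lt_of_sq_lt_sq _ (wt_pos p).le
  rw [wt_sq]
  fin_cases j
  · change p 0 ^ 2 < _; nlinarith [sq_nonneg (p 1), sq_nonneg (p 2)]
  · change p 1 ^ 2 < _; nlinarith [sq_nonneg (p 0), sq_nonneg (p 2)]
  · change p 2 ^ 2 < _; nlinarith [sq_nonneg (p 1), sq_nonneg (p 0)]

/-- The boosts, in the graph coordinates. -/
noncomputable def boost (j : Fin 3) (C Sh : ℝ) (p : Fin 3 → ℝ) : Fin 3 → ℝ :=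
  p + ((C - 1) * p j + Sh * wt p) • Pi.single j 1

theorem boost_apply_self (j : Fin 3) (C Sh : ℝ) (p : Fin 3 → ℝ) :
    boost j C Sh p j = C * p j + Sh * wt p := by
  simp [boost]; ring

theorem boost_apply_ne {i j : Fin 3} (h : i ≠ j) (C Sh : ℝ) (p : Fin 3 → ℝ) :
    boost j C Sh p i = p i := by
  simp [boost, h]

theorem sum_sq_boost (j : Fin 3) (C Sh : ℝ) (p : Fin 3 → ℝ) :
    boost j C Sh p 0 ^ 2 + boost j C Sh p 1 ^ 2 + boost j C Sh p 2 ^ 2 =
      (p 0 ^ 2 + p 1 ^ 2 + p 2 ^ 2) - p j ^ 2 + (C * p j + Sh * wt p) ^ 2 := by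
  fin_cases j
  · change boost 0 C Sh p 0 ^ 2 + boost 0 C Sh p 1 ^ 2 + boost 0 C Sh p 2 ^ 2 =
      (p 0 ^ 2 + p 1 ^ 2 + p 2 ^ 2) - p 0 ^ 2 + (C * p 0 + Sh * wt p) ^ 2
    rw [boost_apply_self, boost_apply_ne (by decide), boost_apply_ne (by decide)]; ring
  · change boost 1 C Sh p 0 ^ 2 + boost 1 C Sh p 1 ^ 2 + boost 1 C Sh p 2 ^ 2 =
      (p 0 ^ 2 + p 1 ^ 2 + p 2 ^ 2) - p 1 ^ 2 + (C * p 1 + Sh * wt p) ^ 2
    rw [boost_apply_self, boost_apply_ne (by decide), boost_apply_ne (by decide)]; ring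
  · change boost 2 C Sh p 0 ^ 2 + boost 2 C Sh p 1 ^ 2 + boost 2 C Sh p 2 ^ 2 =
      (p 0 ^ 2 + p 1 ^ 2 + p 2 ^ 2) - p 2 ^ 2 + (C * p 2 + Sh * wt p) ^ 2
    rw [boost_apply_self, boost_apply_ne (by decide), boost_apply_ne (by decide)]; ring

theorem cosh_pos_aux {C Sh : ℝ} (h : C ^ 2 - Sh ^ 2 = 1) (hC : 0 < C) (p : Fin 3 → ℝ) (j : Fin 3) :
    0 < C * wt p + Sh * p j := by
  have h1 := abs_lt_wt p j
  have h2 : |Sh| < C := by
    apply abs_lt_of_sq_lt_sq _ hC.le
    linarith
  have h3 : |Sh * p j| ≤ |Sh| * wt p := by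
    rw [abs_mul]; exact mul_le_mul_of_nonneg_left h1.le (abs_nonneg _)
  have h4 : |Sh| * wt p < C * wt p := mul_lt_mul_of_pos_right h2 (wt_pos p)
  have h5 := neg_abs_le (Sh * p j)
  linarith

theorem wt_boost {C Sh : ℝ} (h : C ^ 2 - Sh ^ 2 = 1) (hC : 0 < C) (j : Fin 3) (p : Fin 3 → ℝ) :
    wt (boost j C Sh p) = C * wt p + Sh * p j := by
  have h1 := cosh_pos_aux h hC p j
  unfold wt
  rw [sum_sq_boost, Real.sqrt_eq_iff_mul_self_eq_of_pos]
  · change (C * wt p + Sh * p j) * (C * wt p + Sh * p j) = _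
    have h2 := wt_sq p
    linear_combination (wt p ^ 2 - p j ^ 2) * h + h2
  · exact h1

theorem boost_boost {C Sh : ℝ} (h : C ^ 2 - Sh ^ 2 = 1) (hC : 0 < C) (j : Fin 3)
    (p : Fin 3 → ℝ) : boost j C (-Sh) (boost j C Sh p) = p := by
  ext i
  by_cases hij : i = j
  · subst hij
    rw [boost_apply_self, boost_apply_self, wt_boost h hC]
    linear_combination (p i) * h
  · rw [boost_apply_ne hij, boost_apply_ne hij]

theorem boost_injective {C Sh : ℝ} (h : C ^ 2 - Sh ^ 2 = 1) (hC : 0 < C) (j : Fin 3) :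
    Function.Injective (boost j C Sh) :=
  Function.LeftInverse.injective (boost_boost h hC j)

theorem boost_surjective {C Sh : ℝ} (h : C ^ 2 - Sh ^ 2 = 1) (hC : 0 < C) (j : Fin 3) :
    Function.Surjective (boost j C Sh) := by
  intro p
  refine ⟨boost j C (-Sh) p, ?_⟩
  have h' : C ^ 2 - (-Sh) ^ 2 = 1 := by rw [neg_sq]; exact h
  have := boost_boost h' hC j p
  rwa [neg_neg] at this

/-- Derivative of the time coordinate. -/
noncomputable def dwt (p : Fin 3 → ℝ) : (Fin 3 → ℝ) →L[ℝ] ℝ :=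
  (1 / wt p) • (p 0 • ContinuousLinearMap.proj (R := ℝ) (φ := fun _ : Fin 3 => ℝ) 0 +
    p 1 • ContinuousLinearMap.proj (R := ℝ) (φ := fun _ : Fin 3 => ℝ) 1 +
    p 2 • ContinuousLinearMap.proj (R := ℝ) (φ := fun _ : Fin 3 => ℝ) 2)

theorem hasFDerivAt_wt (p : Fin 3 → ℝ) : HasFDerivAt wt (dwt p) p := by
  have hi : ∀ i : Fin 3, HasFDerivAt (fun p : Fin 3 → ℝ => p i)
      (ContinuousLinearMap.proj (R := ℝ) (φ := fun _ : Fin 3 => ℝ) i) p := fun i =>
    (ContinuousLinearMap.proj (R := ℝ) (φ := fun _ : Fin 3 => ℝ) i).hasFDerivAt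
  have h1 := ((((hi 0).pow 2).add ((hi 1).pow 2)).add ((hi 2).pow 2)).const_add 1
  have hne : (1 + (p 0 ^ 2 + p 1 ^ 2 + p 2 ^ 2)) ≠ 0 := by positivity
  have h2 := h1.sqrt hne
  refine h2.congr_fderiv ?_
  ext v
  simp only [dwt, wt, smul_apply, add_apply, smul_eq_mul, ContinuousLinearMap.proj_apply,
    Pi.add_apply]
  field_simp
  ring

theorem measurable_wt : Measurable wt := by
  unfold wt
  fun_prop

theorem hasFDerivAt_boost (j : Fin 3) (C Sh : ℝ) (p : Fin 3 → ℝ) :
    HasFDerivAt (boost j C Sh) (ContinuousLinearMap.id ℝ (Fin 3 → ℝ) +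
      ((C - 1) • ContinuousLinearMap.proj (R := ℝ) (φ := fun _ : Fin 3 => ℝ) j +
        Sh • dwt p).smulRight (Pi.single j 1)) p := by
  have hj : HasFDerivAt (fun p : Fin 3 → ℝ => p j)
      (ContinuousLinearMap.proj (R := ℝ) (φ := fun _ : Fin 3 => ℝ) j) p :=
    (ContinuousLinearMap.proj (R := ℝ) (φ := fun _ : Fin 3 => ℝ) j).hasFDerivAt
  have h1 := (hj.const_mul (C - 1)).add ((hasFDerivAt_wt p).const_mul Sh)
  exact (hasFDerivAt_id p).add (h1.smul_const (Pi.single j 1))

theorem det_boost (j : Fin 3) (C Sh : ℝ) (p : Fin 3 → ℝ) :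
    (ContinuousLinearMap.id ℝ (Fin 3 → ℝ) +
      ((C - 1) • ContinuousLinearMap.proj (R := ℝ) (φ := fun _ : Fin 3 => ℝ) j +
        Sh • dwt p).smulRight (Pi.single j 1)).det = (C * wt p + Sh * p j) / wt p := by
  set L : (Fin 3 → ℝ) →L[ℝ] ℝ :=
    (C - 1) • ContinuousLinearMap.proj (R := ℝ) (φ := fun _ : Fin 3 => ℝ) j + Sh • dwt p with hL
  have h1 : ((ContinuousLinearMap.id ℝ (Fin 3 → ℝ) + L.smulRight (Pi.single j 1) :
      (Fin 3 → ℝ) →L[ℝ] (Fin 3 → ℝ)) : (Fin 3 → ℝ) →ₗ[ℝ] (Fin 3 → ℝ)) =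
      LinearMap.transvection (L : (Fin 3 → ℝ) →ₗ[ℝ] ℝ) (Pi.single j 1) := by
    ext v
    simp [LinearMap.transvection]
  unfold ContinuousLinearMap.det
  rw [h1, LinearMap.transvection.det]
  have h2 : L (Pi.single j 1) = (C - 1) + Sh * (p j / wt p) := by
    rw [hL]
    simp only [add_apply, smul_apply, ContinuousLinearMap.proj_apply, Pi.single_eq_same,
      smul_eq_mul, mul_one, dwt]
    congr 2
    fin_cases j
    · simp; ring
    · simp; ring
    · simp; ring
  change 1 + L (Pi.single j 1) = _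
  rw [h2]
  have := (wt_pos p).ne'
  field_simp
  ring

/-- The volume measure in the graph coordinates. -/
noncomputable def nuH : Measure (Fin 3 → ℝ) :=
  (volume : Measure (Fin 3 → ℝ)).withDensity fun p => ENNReal.ofReal (1 / wt p)

theorem volH3_eq : volH3 = Measure.map graphH3 nuH := rfl

theorem measurable_boost (j : Fin 3) (C Sh : ℝ) : Measurable (boost j C Sh) := by
  have h := measurable_wt
  unfold boost
  fun_prop

theorem map_boost {C Sh : ℝ} (h : C ^ 2 - Sh ^ 2 = 1) (hC : 0 < C) (j : Fin 3) :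
    Measure.map (boost j C Sh) nuH = nuH := by
  ext B hB
  have hBm := measurable_boost j C Sh hB
  rw [Measure.map_apply (measurable_boost j C Sh) hB]
  unfold nuH
  rw [withDensity_apply _ hBm, withDensity_apply _ hB]
  conv_rhs => rw [← image_preimage_eq B (boost_surjective h hC j)]
  rw [lintegral_image_eq_lintegral_abs_det_fderiv_mul volume hBm
    (fun p _ => (hasFDerivAt_boost j C Sh p).hasFDerivWithinAt) (boost_injective h hC j).injOn]
  apply setLIntegral_congr_fun hBm
  intro p _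
  simp only
  rw [det_boost, wt_boost h hC, ← ENNReal.ofReal_mul (abs_nonneg _)]
  congr 1
  have h1 := cosh_pos_aux h hC p j
  have h2 := wt_pos p
  rw [abs_of_pos (div_pos h1 h2), div_mul_div_comm, mul_one,
    div_eq_div_iff h2.ne' (mul_pos h2 h1).ne']
  ring

theorem measurable_graphH3 : Measurable graphH3 := by
  rw [measurable_pi_iff]
  intro i
  fin_cases i
  · exact measurable_wt
  · exact measurable_pi_apply 0
  · exact measurable_pi_apply 1
  · exact measurable_pi_apply 2

theorem graphH3_mem (p : Fin 3 → ℝ) : graphH3 p ∈ H3 := by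
  have h := wt_sq p
  constructor
  · change lor ![wt p, p 0, p 1, p 2] ![wt p, p 0, p 1, p 2] = -1
    simp only [lor, Matrix.cons_val_zero, Matrix.cons_val_one, Matrix.cons_val]
    linarith
  · exact wt_pos p

theorem s3_hyp : (7 : ℝ) ^ 2 - (4 * s3) ^ 2 = 1 := by
  have := s3_sq
  nlinarith

theorem act_gA_graph (p : Fin 3 → ℝ) : act gA (graphH3 p) = graphH3 (boost 0 7 (4 * s3) p) := by
  rw [act_gA]
  have h1 := wt_boost s3_hyp (by norm_num) 0 p
  ext i
  fin_cases i
  · exact h1.symm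
  · change 4 * s3 * wt p + 7 * p 0 = boost 0 7 (4 * s3) p 0
    rw [boost_apply_self]; ring
  · exact (boost_apply_ne (by decide) 7 (4 * s3) p).symm
  · exact (boost_apply_ne (by decide) 7 (4 * s3) p).symm

theorem act_gB_graph (p : Fin 3 → ℝ) : act gB (graphH3 p) = graphH3 (boost 1 7 (4 * s3) p) := by
  rw [act_gB]
  have h1 := wt_boost s3_hyp (by norm_num) 1 p
  ext i
  fin_cases i
  · exact h1.symm
  · exact (boost_apply_ne (by decide) 7 (4 * s3) p).symm
  · change 4 * s3 * wt p + 7 * p 1 = boost 1 7 (4 * s3) p 1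
    rw [boost_apply_self]; ring
  · exact (boost_apply_ne (by decide) 7 (4 * s3) p).symm

theorem vol_gen {g : GL4} {j : Fin 3}
    (h : ∀ p, act g (graphH3 p) = graphH3 (boost j 7 (4 * s3) p)) :
    volH3.map (act g) = volH3 := by
  rw [volH3_eq, Measure.map_map (measurable_act g) measurable_graphH3]
  have h1 : act g ∘ graphH3 = graphH3 ∘ boost j 7 (4 * s3) := by
    funext p; exact h p
  rw [h1, ← Measure.map_map measurable_graphH3 (measurable_boost _ _ _),
    map_boost s3_hyp (by norm_num)]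

/-- The stabiliser of a measure. -/
def stabM (m : Measure V) : Subgroup GL4 where
  carrier := {g | m.map (act g) = m}
  one_mem' := by
    change m.map (act 1) = m
    have : act 1 = id := by funext x; exact act_one x
    rw [this, Measure.map_id]
  mul_mem' := by
    intro g h hg hh
    change m.map (act (g * h)) = m
    have : act (g * h) = act g ∘ act h := by funext x; exact act_mul g h x
    rw [this, ← Measure.map_map (measurable_act g) (measurable_act h), hh, hg]
  inv_mem' := by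
    intro g hg
    change m.map (act g⁻¹) = m
    have hg' : m.map (act g) = m := hg
    conv_lhs => rw [← hg']
    rw [Measure.map_map (measurable_act _) (measurable_act g)]
    have : act g⁻¹ ∘ act g = id := by funext x; exact act_inv_act g x
    rw [this, Measure.map_id]

theorem vol_inv {g : GL4} (hg : g ∈ theta.range) : volH3.map (act g) = volH3 := by
  obtain ⟨w, rfl⟩ := hg
  change theta w ∈ stabM volH3
  induction w using FreeGroup.induction_on with
  | C1 => rw [map_one]; exact (stabM volH3).one_mem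
  | of i =>
    fin_cases i
    · change theta (FreeGroup.of 0) ∈ _
      rw [theta_of_zero]
      exact vol_gen act_gA_graph
    · change theta (FreeGroup.of 1) ∈ _
      rw [theta_of_one]
      exact vol_gen act_gB_graph
  | inv_of i hi => rw [map_inv]; exact (stabM volH3).inv_mem hi
  | mul x y hx hy => rw [map_mul]; exact (stabM volH3).mul_mem hx hy

theorem measurableSet_ballU : MeasurableSet ballU :=
  isClosed_H3.measurableSet.inter
    (isOpen_lt (continuous_apply 0) continuous_const).measurableSet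

theorem volH3_compl : volH3 H3ᶜ = 0 := by
  rw [volH3_eq, Measure.map_apply measurable_graphH3 isClosed_H3.measurableSet.compl]
  have : graphH3 ⁻¹' H3ᶜ = ∅ := by
    ext p
    simp only [mem_preimage, mem_compl_iff, mem_empty_iff_false, iff_false, not_not]
    exact graphH3_mem p
  rw [this, measure_empty]

theorem volH3_ballU_pos : 0 < volH3 ballU := by
  rw [volH3_eq, Measure.map_apply measurable_graphH3 measurableSet_ballU]
  have hset : graphH3 ⁻¹' ballU = {p | wt p < 3 / 2} := by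
    ext p
    constructor
    · intro h; exact h.2
    · intro h; exact ⟨graphH3_mem p, h⟩
  rw [hset]
  have hcont : Continuous wt := by unfold wt; fun_prop
  have hopen : IsOpen {p | wt p < 3 / 2} := isOpen_lt hcont continuous_const
  unfold nuH
  rw [withDensity_apply _ hopen.measurableSet, pos_iff_ne_zero]
  intro h0
  have hmeas : Measurable fun p => ENNReal.ofReal (1 / wt p) :=
    (measurable_const.div measurable_wt).ennreal_ofReal
  rw [lintegral_eq_zero_iff hmeas] at h0
  have h2 : ∀ᵐ p ∂(volume.restrict {p | wt p < 3 / 2}), False := by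
    filter_upwards [h0] with p hp
    have := wt_pos p
    simp only [Pi.zero_apply, ENNReal.ofReal_eq_zero] at hp
    have h3 : 0 < 1 / wt p := by positivity
    linarith
  rw [ae_iff] at h2
  simp only [not_false_eq_true, Measure.restrict_apply_univ, ofPred_true] at h2
  have hne : ({p | wt p < 3 / 2} : Set (Fin 3 → ℝ)).Nonempty := ⟨0, by
    change wt 0 < 3 / 2
    simp [wt]
    norm_num⟩
  exact (hopen.measure_pos volume hne).ne' h2

end Pool.Agent.MP_41c3fc_gt
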