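import Mathlib
import Pool.Agent.MP_41c3fc_gt.Volume
import Pool.Agent.MP_41c3fc_gt.Plane
import Pool.Agent.MP_41c3fc_gt.Vanish

set_option autoImplicit false

open MeasureTheory Set Filter Topology
open scoped ENNReal NNReal

namespace Pool.Agent.MP_41c3fc_gt

/-! ### The limit set -/

theorem act_pow_eigen {g : GL4} {ν : V} {c : ℝ} (h : act g ν = c • ν) (n : ℕ) :
    act (g ^ n) ν = c ^ n • ν := by
  induction n with
  | zero => simp [act_one]
  | succ n ih => rw [pow_succ, act_mul, h, act_smul, ih, smul_smul, pow_succ, mul_comm]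

theorem limit_aux {Γ : Subgroup GL4} {g b : GL4} {ν ν' : V} {c d : ℝ} (hc : act g ν = c • ν)
    (hd : act g ν' = d • ν') (hcd : c * d = 1) (hd0 : 0 < d) (hd1 : d < 1)
    (he : e0 = (1 / 2 : ℝ) • ν + (1 / 2 : ℝ) • ν') (hν : ν ≠ 0) (hb : act b e0 ∈ H3)
    (hmem : ∀ n : ℕ, b * g ^ n * b⁻¹ ∈ Γ) : act b ν ∈ limitVectors Γ := by
  refine ⟨?_, act b e0, hb, fun n => b * g ^ n * b⁻¹, fun n => 2 * d ^ n, hmem,
    fun n => by positivity, ?_, ?_⟩
  · intro h0
    apply hν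
    apply act_injective b
    rw [h0]
    exact ((actL b).map_zero).symm
  · have := (tendsto_pow_atTop_nhds_zero_of_lt_one hd0.le hd1).const_mul 2
    simpa using this
  · have h1 : ∀ n : ℕ, (2 * d ^ n) • act (b * g ^ n * b⁻¹) (act b e0) =
        act b (ν + (d ^ 2) ^ n • ν') := by
      intro n
      rw [act_mul, act_mul, act_inv_act, ← act_smul]
      congr 1
      rw [he, act_add, act_smul, act_smul, act_pow_eigen hc, act_pow_eigen hd, smul_add,
        smul_smul, smul_smul, smul_smul, smul_smul]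
      have e1 : 2 * d ^ n * (1 / 2) * c ^ n = 1 := by
        have : (c * d) ^ n = 1 := by rw [hcd, one_pow]
        rw [mul_pow] at this
        linear_combination this
      have e2 : 2 * d ^ n * (1 / 2) * d ^ n = (d ^ 2) ^ n := by
        rw [← pow_mul, mul_comm 2 n, pow_mul]; ring
      rw [e1, e2, one_smul]
    simp only [h1]
    have h2 : Tendsto (fun n : ℕ => ν + (d ^ 2) ^ n • ν') atTop (𝓝 (ν + (0 : ℝ) • ν')) := by
      apply tendsto_const_nhds.add
      exact (tendsto_pow_atTop_nhds_zero_of_lt_one (by positivity) (by nlinarith)).smul_const ν'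
    rw [zero_smul, add_zero] at h2
    exact ((continuous_act b).tendsto ν).comp h2

/-- The two isotropic directions of the axis of the first generator. -/
def nu1 : V := ![1, 1, 0, 0]
@[inherit_doc nu1] def nu2 : V := ![1, -1, 0, 0]

theorem act_gA_nu1 : act gA nu1 = (7 + 4 * s3) • nu1 := by
  rw [act_gA]
  ext i
  fin_cases i
  · simp [nu1]
  · simp [nu1]; ring
  · simp [nu1]
  · simp [nu1]

theorem act_gA_nu2 : act gA nu2 = (7 - 4 * s3) • nu2 := by
  rw [act_gA]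
  ext i
  fin_cases i
  · simp [nu2]; ring
  · simp [nu2]; ring
  · simp [nu2]
  · simp [nu2]

theorem act_gA_inv_nu1 : act gA⁻¹ nu1 = (7 - 4 * s3) • nu1 := by
  rw [act_gA_inv]
  ext i
  fin_cases i
  · simp [nu1]
  · simp [nu1]; ring
  · simp [nu1]
  · simp [nu1]

theorem act_gA_inv_nu2 : act gA⁻¹ nu2 = (7 + 4 * s3) • nu2 := by
  rw [act_gA_inv]
  ext i
  fin_cases i
  · simp [nu2]
  · simp [nu2]
  · simp [nu2]
  · simp [nu2]

theorem e0_eq : e0 = (1 / 2 : ℝ) • nu1 + (1 / 2 : ℝ) • nu2 := by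
  ext i
  fin_cases i
  · change (1 : ℝ) = 1 / 2 * 1 + 1 / 2 * 1; norm_num
  · change (0 : ℝ) = 1 / 2 * 1 + 1 / 2 * (-1); norm_num
  · change (0 : ℝ) = 1 / 2 * 0 + 1 / 2 * 0; norm_num
  · change (0 : ℝ) = 1 / 2 * 0 + 1 / 2 * 0; norm_num

theorem nu1_ne : nu1 ≠ 0 := by
  intro h
  have := congrFun h 0
  simp [nu1] at this

theorem nu2_ne : nu2 ≠ 0 := by
  intro h
  have := congrFun h 0
  simp [nu2] at this

theorem lam_facts : (7 + 4 * s3) * (7 - 4 * s3) = 1 ∧ 0 < 7 - 4 * s3 ∧ 7 - 4 * s3 < 1 := by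
  have h := s3_sq
  have h0 := s3_pos
  have h1 : (7 + 4 * s3) * (7 - 4 * s3) = 1 := by nlinarith
  have h2 : 0 < 7 - 4 * s3 := by
    by_contra hcon
    have : (7 + 4 * s3) * (7 - 4 * s3) ≤ 0 :=
      mul_nonpos_of_nonneg_of_nonpos (by positivity) (not_lt.1 hcon)
    linarith
  refine ⟨h1, h2, ?_⟩
  nlinarith

/-- The translates of the base point. -/
noncomputable def bk (k : ℕ) : GL4 := gB ^ k

theorem bk_mem (k : ℕ) : bk k ∈ theta.range :=
  ⟨FreeGroup.of 1 ^ k, by rw [map_pow, theta_of_one]; rfl⟩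

theorem expo_of_zero : expo (FreeGroup.of 0) = 1 := by simp [expo]

theorem expo_of_one : expo (FreeGroup.of 1) = Multiplicative.ofAdd 1 := by simp [expo]

theorem conj_mem (k n : ℕ) : bk k * gA ^ n * (bk k)⁻¹ ∈ Gam := by
  refine ⟨FreeGroup.of 1 ^ k * FreeGroup.of 0 ^ n * (FreeGroup.of 1 ^ k)⁻¹, ?_, ?_⟩
  · change expo _ = 1
    rw [map_mul, map_mul, map_inv, map_pow, map_pow, expo_of_zero, one_pow, mul_one,
      mul_inv_cancel]
  · rw [map_mul, map_mul, map_inv, map_pow, map_pow, theta_of_zero, theta_of_one]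
    rfl

theorem conj_inv_mem (k n : ℕ) : bk k * gA⁻¹ ^ n * (bk k)⁻¹ ∈ Gam := by
  have h := Gam.inv_mem (conj_mem k n)
  have e : (bk k * gA ^ n * (bk k)⁻¹)⁻¹ = bk k * gA⁻¹ ^ n * (bk k)⁻¹ := by
    rw [inv_pow]; group
  rwa [e] at h

theorem not_mem_Gam {j k : ℕ} (hjk : j ≠ k) : bk k * (bk j)⁻¹ ∉ Gam := by
  rintro ⟨w, hw, he⟩
  have h1 : theta (FreeGroup.of 1 ^ k * (FreeGroup.of 1 ^ j)⁻¹) = bk k * (bk j)⁻¹ := by
    rw [map_mul, map_inv, map_pow, map_pow, theta_of_one]; rfl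
  rw [← h1] at he
  have h2 := theta_injective he
  have h3 : expo w = 1 := hw
  rw [h2, map_mul, map_inv, map_pow, map_pow, expo_of_one, ← ofAdd_nsmul, ← ofAdd_nsmul,
    ← ofAdd_neg, ← ofAdd_add, ofAdd_eq_one] at h3
  simp at h3
  omega

theorem bk_e0_mem (k : ℕ) : act (bk k) e0 ∈ limitHull Gam := by
  have hH : act (bk k) e0 ∈ H3 := (O1_isom (range_le_O1 (bk_mem k))).2 _ e0_mem
  refine ⟨hH, ?_⟩
  obtain ⟨l1, l2, l3⟩ := lam_facts
  have h1 : act (bk k) nu1 ∈ limitVectors Gam :=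
    limit_aux act_gA_nu1 act_gA_nu2 l1 l2 l3 e0_eq nu1_ne hH (conj_mem k)
  have h2 : act (bk k) nu2 ∈ limitVectors Gam :=
    limit_aux act_gA_inv_nu2 act_gA_inv_nu1 l1 l2 l3 (by rw [e0_eq]; abel) nu2_ne hH
      (conj_inv_mem k)
  have h3 : act (bk k) e0 = (1 / 2 : ℝ) • act (bk k) nu1 + (1 / 2 : ℝ) • act (bk k) nu2 := by
    rw [e0_eq, act_add, act_smul, act_smul]
  rw [h3]
  exact (convex_convexHull ℝ _) (subset_convexHull ℝ _ h1) (subset_convexHull ℝ _ h2)
    (by norm_num) (by norm_num) (by norm_num)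

theorem cosh_one_ge : (3 : ℝ) / 2 ≤ Real.cosh 1 := by
  rw [Real.cosh_eq]
  have h1 := Real.exp_one_gt_d9
  have h2 := Real.add_one_le_exp (-1 : ℝ)
  have h3 : Real.exp (-1) = 1 / Real.exp 1 := by rw [Real.exp_neg]; simp
  have h4 := Real.exp_one_lt_d9
  have h5 : 1 / 3 < 1 / Real.exp 1 := by
    apply one_div_lt_one_div_of_lt (Real.exp_pos 1)
    linarith
  rw [h3]
  linarith

theorem ballU_sub_hull (k : ℕ) {x : V} (hx : x ∈ ballU) : act (bk k) x ∈ hullNbhd Gam := by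
  have hiso := O1_isom (range_le_O1 (bk_mem k))
  refine ⟨hiso.2 x hx.1, act (bk k) e0, bk_e0_mem k, ?_⟩
  rw [hiso.1]
  have h2 : -lor x e0 = x 0 := by simp [lor, e0]
  rw [h2]
  exact hx.2.le.trans cosh_one_ge

theorem limitVectors_inv {Γ : Subgroup GL4} {g : GL4} (hg : g ∈ Γ) {v : V}
    (hv : v ∈ limitVectors Γ) : act g v ∈ limitVectors Γ := by
  obtain ⟨hne, x, hx, h, c, hh, hc, hc0, hlim⟩ := hv
  refine ⟨?_, x, hx, fun k => g * h k, c, fun k => Γ.mul_mem hg (hh k), hc, hc0, ?_⟩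
  · intro h0
    apply hne
    apply act_injective g
    rw [h0]
    exact ((actL g).map_zero).symm
  · have := ((continuous_act g).tendsto v).comp hlim
    refine this.congr fun k => ?_
    simp only [Function.comp_apply]
    rw [act_smul, act_mul]

theorem hullNbhd_inv {Γ : Subgroup GL4} (hΓ : ∀ g ∈ Γ, IsIsom g) :
    IsInvariantSet Γ (hullNbhd Γ) := by
  rintro g hg x ⟨hx, y, ⟨hy, hyc⟩, hxy⟩
  refine ⟨(hΓ g hg).2 x hx, act g y, ⟨(hΓ g hg).2 y hy, ?_⟩, by rw [(hΓ g hg).1]; exact hxy⟩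
  have h1 : act g '' convexHull ℝ (limitVectors Γ) = convexHull ℝ (act g '' limitVectors Γ) :=
    (actL g).toLinearMap.image_convexHull _
  have h2 : act g y ∈ act g '' convexHull ℝ (limitVectors Γ) := mem_image_of_mem _ hyc
  rw [h1] at h2
  refine convexHull_mono ?_ h2
  rintro _ ⟨v, hv, rfl⟩
  exact limitVectors_inv hg hv

theorem Gam_not_finite : ¬ GeometricallyFinite Gam := by
  rintro ⟨D, hD, hlt⟩
  have hinv : IsInvariantSet Gam H3 := fun g hg x hx => (Gam_discrete.isom g hg).2 x hx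
  have := measure_inter_eq_top (F := theta.range) Gam_discrete Gam_le subset_rfl hinv hD
    volH3_compl (fun g hg => vol_inv hg) measurableSet_ballU volH3_ballU_pos
    (fun g hg hne x hx => ballU_disj hg hne hx) bk bk_mem (fun j k hjk => not_mem_Gam hjk)
    (fun k x hx => ballU_sub_hull k hx) (hullNbhd_inv Gam_discrete.isom)
  exact hlt.ne this

theorem pres_plane {g : GL4} (hg : g ∈ O1) : Pres plane g where
  lor_eq := (O1_isom hg).1
  mem_iff x := by
    constructor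
    · rintro ⟨h1, h2⟩
      exact ⟨((O1_pres hg).mem_iff x).1 h1, by rwa [O1_fix hg] at h2⟩
    · rintro ⟨h1, h2⟩
      exact ⟨((O1_pres hg).mem_iff x).2 h1, by rwa [O1_fix hg]⟩

theorem Gam_no_surface (S : Set V) : ¬ IsFiniteAreaMinimal Gam S := by
  intro hS
  have h0 := vanish Gam_discrete (fun g hg v => O1_fix (range_le_O1 (Gam_le hg)) v) hS
  have hSurf := hS.minimal.isSurf
  have hpl : S = plane := eq_plane hSurf hS.nonempty hS.complete h0
  obtain ⟨μ, hμ, D, hD, hlt⟩ := hS.finiteArea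
  have hmi : ∀ g ∈ theta.range, μ.map (act g) = μ := fun g hg =>
    hμ.map_act hSurf (hpl ▸ pres_plane (range_le_O1 hg))
  have he0 : e0 ∈ S := by
    rw [hpl]; exact ⟨e0_mem, by simp [e0]⟩
  have hO : IsOpen {x : V | x 0 < 3 / 2} := isOpen_lt (continuous_apply 0) continuous_const
  have hpos : 0 < μ (S ∩ {x : V | x 0 < 3 / 2}) :=
    hμ.pos_of_open hSurf hO he0 (by change e0 0 < 3 / 2; simp [e0]; norm_num)
  have hsub : ∀ x ∈ S ∩ {x : V | x 0 < 3 / 2}, x ∈ ballU := fun x hx =>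
    ⟨hSurf.1 hx.1, hx.2⟩
  have := measure_inter_eq_top (F := theta.range) (Y := univ) Gam_discrete Gam_le hSurf.1
    hS.invariant hD hμ.1 hmi (hSurf.measurableSet.inter hO.measurableSet) hpos
    (fun g hg hne x hx hgx => ballU_disj hg hne (hsub x hx) (hsub _ hgx)) bk bk_mem
    (fun j k hjk => not_mem_Gam hjk) (fun _ _ _ => mem_univ _) (fun _ _ _ _ => mem_univ _)
  rw [inter_univ] at this
  exact hlt.ne this

/-- The main result. -/
theorem main : ∃ Γ : Subgroup GL4, IsDiscreteTorsionFree Γ ∧ (∀ g ∈ Γ, ¬ IsParabolic g) ∧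
    ¬ GeometricallyFinite Γ ∧ ∀ S : Set V, ¬ IsFiniteAreaMinimal Γ S :=
  ⟨Gam, Gam_discrete, fun _ hg => not_parabolic (Gam_le hg), Gam_not_finite, Gam_no_surface⟩

end Pool.Agent.MP_41c3fc_gt
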