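import Mathlib
import Pool.Agent.MP_41c3fc_gt.Unfold

set_option autoImplicit false

open MeasureTheory Set Filter Topology

namespace Pool.Agent.MP_41c3fc_gt

/-- Strict lexicographic order. -/
def lexLt (a b : V) : Prop := ∃ i, (∀ j < i, a j = b j) ∧ a i < b i

theorem lt_of_lexLt {a b : V} (h : lexLt a b) : toLex a < toLex b := h

theorem lexLt_of_lt {a b : V} (h : toLex a < toLex b) : lexLt a b := h

theorem measurableSet_lexLt (g : GL4) : MeasurableSet {x : V | lexLt x (act g x)} := by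
  have h1 : {x : V | lexLt x (act g x)} =
      ⋃ i : Fin 4, (⋂ j : Fin 4, ⋂ (_ : j < i), {x : V | x j = act g x j}) ∩
        {x : V | x i < act g x i} := by
    ext x
    simp only [lexLt, mem_ofPred_eq, mem_iUnion, mem_inter_iff, mem_iInter]
  rw [h1]
  have hm : ∀ i : Fin 4, Measurable fun x : V => act g x i := fun i =>
    (measurable_pi_apply i).comp (measurable_act g)
  refine MeasurableSet.iUnion fun i => MeasurableSet.inter
    (MeasurableSet.iInter fun j => MeasurableSet.iInter fun _ => ?_) ?_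
  · exact measurableSet_eq_fun (measurable_pi_apply j) (hm j)
  · exact measurableSet_lt (measurable_pi_apply i) (hm i)

theorem exists_fundamental_aux {Γ : Subgroup GL4} (hΓ : IsDiscreteTorsionFree Γ) :
    ∃ D : Set V, MeasurableSet D ∧ ∀ x, x ∈ D ↔ x ∈ H3 ∧ ∀ g ∈ Γ, toLex x ≤ toLex (act g x) := by
  have := countable_of_discrete hΓ
  refine ⟨H3 ∩ ⋂ g : Γ, ({x | lexLt x (act (g : GL4) x)} ∪ {x | x = act (g : GL4) x}), ?_, ?_⟩
  · apply isClosed_H3.measurableSet.inter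
    refine MeasurableSet.iInter fun g => (measurableSet_lexLt _).union ?_
    exact measurableSet_eq_fun measurable_id (measurable_act (g : GL4))
  · intro x
    simp only [mem_inter_iff, mem_iInter, mem_union, mem_ofPred_eq]
    constructor
    · rintro ⟨h1, h2⟩
      refine ⟨h1, fun g hg => ?_⟩
      rcases h2 ⟨g, hg⟩ with h | h
      · exact le_of_lt (lt_of_lexLt h)
      · exact le_of_eq (congrArg toLex h)
    · rintro ⟨h1, h2⟩
      refine ⟨h1, fun g => ?_⟩
      rcases (h2 g g.2).lt_or_eq with h | h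
      · exact Or.inl (lexLt_of_lt h)
      · exact Or.inr (toLex.injective h)

theorem exists_min_orbit {Γ : Subgroup GL4} (hΓ : IsDiscreteTorsionFree Γ) {x : V} (hx : x ∈ H3) :
    ∃ m ∈ Γ, ∀ g ∈ Γ, toLex (act m x) ≤ toLex (act g x) := by
  have hlor : ∀ y : V, -lor y e0 = y 0 := fun y => by simp [lor, e0]
  have hfin : {g : GL4 | g ∈ Γ ∧ act g x 0 ≤ x 0}.Finite := by
    refine (hΓ.discrete {y | y ∈ H3 ∧ -lor y e0 ≤ x 0} (fun y hy => hy.1)
      (isCompact_lorBall e0 e0_mem (x 0))).subset ?_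
    rintro g ⟨hg, hg2⟩
    exact ⟨hg, x, ⟨hx, by rw [hlor]⟩, (hΓ.isom g hg).2 x hx, by rw [hlor]; exact hg2⟩
  have hne : (1 : GL4) ∈ {g : GL4 | g ∈ Γ ∧ act g x 0 ≤ x 0} :=
    ⟨Γ.one_mem, by rw [act_one]⟩
  obtain ⟨m, hm, hmin⟩ := hfin.toFinset.exists_min_image (fun g : GL4 => toLex (act g x))
    ⟨1, by rwa [Finite.mem_toFinset]⟩
  rw [Finite.mem_toFinset] at hm
  refine ⟨m, hm.1, fun g hg => ?_⟩
  by_cases hgx : act g x 0 ≤ x 0
  · exact hmin g (by rw [Finite.mem_toFinset]; exact ⟨hg, hgx⟩)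
  · have hlt : lexLt (act m x) (act g x) :=
      ⟨0, fun j hj => absurd hj (by simp), lt_of_le_of_lt hm.2 (not_le.1 hgx)⟩
    exact le_of_lt (lt_of_lexLt hlt)

/-- Every discrete torsion-free group has a Borel fundamental set. -/
theorem exists_fundamental {Γ : Subgroup GL4} (hΓ : IsDiscreteTorsionFree Γ) :
    ∃ D, IsFundamentalSet Γ H3 D := by
  obtain ⟨D, hDm, hmemD⟩ := exists_fundamental_aux hΓ
  refine ⟨D, hDm, fun x hx => ((hmemD x).1 hx).1, ?_⟩
  intro x hx
  obtain ⟨m, hm, hmin⟩ := exists_min_orbit hΓ hx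
  have hmD : act m x ∈ D := by
    refine (hmemD _).2 ⟨(hΓ.isom m hm).2 x hx, fun g hg => ?_⟩
    rw [← act_mul]
    exact hmin (g * m) (Γ.mul_mem hg hm)
  refine ⟨act m x, ⟨hmD, m, hm, rfl⟩, ?_⟩
  rintro y ⟨hy, g, hg, hgy⟩
  have h1 := hmin g hg
  rw [hgy] at h1
  have h2 := ((hmemD _).1 hy).2 (m * g⁻¹) (Γ.mul_mem hm (Γ.inv_mem hg))
  rw [← hgy, act_mul, act_inv_act, hgy] at h2
  exact toLex.injective (le_antisymm h2 h1)

end Pool.Agent.MP_41c3fc_gt
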